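import Pool.Agent.Lib.MP_f31b39_co.NO.Defs

/-!
# NO-Dif: the differences of the elements `0, ± a i`
-/

namespace TightIndep.NO

open Finset

private def ev {m : ℕ} : Option (Fin m × Bool) → (Fin m → ℤ)
  | none => 0
  | some d => ud d

private def ng {m : ℕ} : Option (Fin m × Bool) → Option (Fin m × Bool)
  | none => none
  | some (l, b) => some (l, !b)

private theorem ng_ng {m : ℕ} (x : Option (Fin m × Bool)) : ng (ng x) = x := by
  rcases x with _ | ⟨l, b⟩
  · rfl
  · simp [ng]

private theorem ev_ng {m : ℕ} (x : Option (Fin m × Bool)) : ev (ng x) = - ev x := by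
  rcases x with _ | ⟨l, b⟩
  · simp [ng, ev]
  · funext j
    by_cases h : j = l
    · subst h
      cases b <;> simp [ng, ev, ud]
    · cases b <;> simp [ng, ev, ud, h]

private theorem ev_sum {G : Type} [AddCommGroup G] {m : ℕ} (a : Fin m → G) (x : Option (Fin m × Bool)) :
    ∑ l, ev x l • a l = sg a x := by
  rcases x with _ | ⟨l, b⟩
  · simp [ev, sg]
  · have h : ∑ j, ev (some (l, b)) j • a j = ev (some (l, b)) l • a l := by
      refine Finset.sum_eq_single l (fun j _ hj => ?_) (fun h => absurd (Finset.mem_univ _) h)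
      have h1 : ev (some (l, b)) j = 0 := by
        simp [ev, ud, hj]
      rw [h1, zero_smul]
    rw [h]
    cases b <;> simp [ev, ud, sg]

private theorem nrm_ev {m : ℕ} (x : Option (Fin m × Bool)) : nrm (ev x) ≤ 1 := by
  rcases x with _ | d
  · change nrm (0 : Fin m → ℤ) ≤ 1
    rw [nrm_zero]
    exact Nat.zero_le 1
  · exact (nrm_ud d).le

/-- the signed component -/
private def vl {m : ℕ} (x : Option (Fin m × Bool)) (d : Fin m × Bool) : ℤ := if d.2 then ev x d.1 else - ev x d.1

private theorem vl_spec {m : ℕ} (x : Option (Fin m × Bool)) (d : Fin m × Bool) :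
    (vl x d = 1 ∧ x = some d) ∨ (vl x d = -1 ∧ x = ng (some d)) ∨ (vl x d = 0 ∧ x ≠ some d ∧ x ≠ ng (some d)) := by
  rcases x with _ | ⟨l, b⟩
  · right
    right
    obtain ⟨l', b'⟩ := d
    refine ⟨?_, by simp, by simp [ng]⟩
    simp [vl, ev]
  · obtain ⟨l', b'⟩ := d
    by_cases h : l' = l
    · subst h
      cases b <;> cases b' <;> simp [vl, ev, ud, ng]
    · right
      right
      refine ⟨?_, ?_, ?_⟩
      · simp [vl, ev, ud, h]
      · intro h1
        simp only [Option.some.injEq, Prod.mk.injEq] at h1
        exact h h1.1.symm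
      · intro h1
        simp only [ng, Option.some.injEq, Prod.mk.injEq] at h1
        exact h h1.1.symm

private theorem ev_inj {m : ℕ} {x y : Option (Fin m × Bool)} (h : ev x = ev y) : x = y := by
  have hv : ∀ d, vl x d = vl y d := by
    intro d
    unfold vl
    rw [h]
  rcases x with _ | d
  · rcases y with _ | d
    · rfl
    · exfalso
      have h1 := hv d
      rcases vl_spec (none : Option (Fin m × Bool)) d with h2 | h2 | h2
      · simp at h2
      · simp [ng] at h2
      · rcases vl_spec (some d) d with h3 | h3 | h3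
        · omega
        · obtain ⟨l, b⟩ := d
          simp [ng] at h3
        · exact h3.2.1 rfl
  · have h1 := hv d
    rcases vl_spec (some d) d with h3 | h3 | h3
    · rcases vl_spec y d with h2 | h2 | h2
      · exact h2.2.symm
      · omega
      · omega
    · obtain ⟨l, b⟩ := d
      simp [ng] at h3
    · exact absurd rfl h3.2.1

private theorem vl_self {m : ℕ} (d : Fin m × Bool) : vl (some d) d = 1 := by
  rcases vl_spec (some d) d with h3 | h3 | h3
  · exact h3.1
  · obtain ⟨l, b⟩ := d
    simp [ng] at h3
  · exact absurd rfl h3.2.1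

private theorem ev_pair {m : ℕ} {x y x' y' : Option (Fin m × Bool)} (h : ev x + ev y = ev x' + ev y')
    (hw : ev x + ev y ≠ 0) : (x = x' ∧ y = y') ∨ (x = y' ∧ y = x') := by
  have hv : ∀ d, vl x d + vl y d = vl x' d + vl y' d := by
    intro d
    have h1 := congrFun h d.1
    simp only [Pi.add_apply] at h1
    unfold vl
    split_ifs
    · exact h1
    · omega
  have c1 : x = x' → (x = x' ∧ y = y') ∨ (x = y' ∧ y = x') := by
    intro hx
    refine Or.inl ⟨hx, ev_inj ?_⟩
    rw [hx] at h
    exact add_left_cancel h
  have c2 : x = y' → (x = x' ∧ y = y') ∨ (x = y' ∧ y = x') := by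
    intro hx
    refine Or.inr ⟨hx, ev_inj ?_⟩
    rw [hx, add_comm (ev x')] at h
    exact add_left_cancel h
  rcases x with _ | d
  · rcases x' with _ | d'
    · exact c1 rfl
    · rcases y' with _ | e'
      · exact c2 rfl
      · exfalso
        have h1 := hv d'
        have h0 : vl (none : Option (Fin m × Bool)) d' = 0 := by simp [vl, ev]
        rw [h0, vl_self] at h1
        rcases vl_spec (some e') d' with h2 | h2 | h2
        · rcases vl_spec y d' with h3 | h3 | h3 <;> omega
        · apply hw
          rw [h, h2.2, ev_ng, add_neg_cancel]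
        · rcases vl_spec y d' with h3 | h3 | h3
          · rw [h3.2] at h
            have h4 : ev (none : Option (Fin m × Bool)) = ev (some e') := by
              have h5 : ev (none : Option (Fin m × Bool)) + ev (some d') = ev (some e') + ev (some d') := by
                rw [h, add_comm]
              exact add_right_cancel h5
            have h6 := ev_inj h4
            simp at h6
          · omega
          · omega
  · have h1 := hv d
    rw [vl_self] at h1
    rcases vl_spec x' d with h2 | h2 | h2
    · exact c1 h2.2.symm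
    · rcases vl_spec y' d with h3 | h3 | h3
      · exact c2 h3.2.symm
      · rcases vl_spec y d with h4 | h4 | h4 <;> omega
      · rcases vl_spec y d with h4 | h4 | h4 <;> omega
    · rcases vl_spec y' d with h3 | h3 | h3
      · exact c2 h3.2.symm
      · rcases vl_spec y d with h4 | h4 | h4 <;> omega
      · exfalso
        rcases vl_spec y d with h4 | h4 | h4
        · omega
        · apply hw
          rw [h4.2, ev_ng, add_neg_cancel]
        · omega

theorem sg_inj {G : Type} [AddCommGroup G] {m : ℕ} (a : Fin m → G)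
    (h : ∀ v ∈ rel a, v ≠ 0 → 5 ≤ nrm v) : Function.Injective (sg a) := by
  intro p p' hp
  apply ev_inj
  by_contra hne
  have h1 : ev p - ev p' ∈ rel a := by
    change ∑ l, (ev p - ev p') l • a l = 0
    simp only [Pi.sub_apply, sub_smul]
    rw [Finset.sum_sub_distrib, ev_sum, ev_sum, hp, sub_self]
  have h2 := h _ h1 (sub_ne_zero.2 hne)
  have h3 := nrm_sub_le (ev p) (ev p')
  have h4 := nrm_ev p
  have h5 := nrm_ev p'
  omega

theorem sg_diff {G : Type} [AddCommGroup G] [DecidableEq G] {m : ℕ} (a : Fin m → G)
    (h : ∀ v ∈ rel a, v ≠ 0 → 5 ≤ nrm v) (i k : Option (Fin m × Bool)) (hik : i ≠ k) :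
    (univ.filter fun p : Option (Fin m × Bool) × Option (Fin m × Bool) =>
      sg a p.1 - sg a p.2 = sg a i - sg a k).card ≤ 2 := by
  have hsub : (univ.filter fun p : Option (Fin m × Bool) × Option (Fin m × Bool) =>
      sg a p.1 - sg a p.2 = sg a i - sg a k) ⊆ {(i, k), (ng k, ng i)} := by
    rintro ⟨p, p'⟩ hp
    rw [Finset.mem_filter] at hp
    have hp2 : sg a p - sg a p' = sg a i - sg a k := hp.2
    rw [Finset.mem_insert, Finset.mem_singleton, Prod.mk.injEq, Prod.mk.injEq]
    have h1 : (ev p - ev p') - (ev i - ev k) ∈ rel a := by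
      change ∑ l, ((ev p - ev p') - (ev i - ev k)) l • a l = 0
      simp only [Pi.sub_apply, sub_smul]
      rw [Finset.sum_sub_distrib, Finset.sum_sub_distrib, Finset.sum_sub_distrib, ev_sum, ev_sum, ev_sum, ev_sum, hp2, sub_self]
    have h2 : (ev p - ev p') - (ev i - ev k) = 0 := by
      by_contra hne
      have h3 := h _ h1 hne
      have h4 := nrm_sub_le (ev p - ev p') (ev i - ev k)
      have h5 := nrm_sub_le (ev p) (ev p')
      have h6 := nrm_sub_le (ev i) (ev k)
      have h7 := nrm_ev p
      have h8 := nrm_ev p'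
      have h9 := nrm_ev i
      have h10 := nrm_ev k
      omega
    have h3 : ev p + ev (ng i) = ev p' + ev (ng k) := by
      rw [ev_ng, ev_ng, ← sub_eq_add_neg, ← sub_eq_add_neg, ← sub_eq_zero]
      rw [← h2]
      abel
    by_cases hz : ev p + ev (ng i) = 0
    · left
      refine ⟨ev_inj ?_, ev_inj ?_⟩
      · rw [ev_ng, ← sub_eq_add_neg] at hz
        exact sub_eq_zero.1 hz
      · rw [hz, ev_ng, ← sub_eq_add_neg] at h3
        exact sub_eq_zero.1 h3.symm
    · rcases ev_pair h3 hz with h4 | h4
      · exfalso
        apply hik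
        rw [← ng_ng i, h4.2, ng_ng]
      · right
        exact ⟨h4.1, h4.2.symm⟩
  exact (Finset.card_le_card hsub).trans Finset.card_le_two

theorem sg_diff' {G : Type} [AddCommGroup G] [DecidableEq G] {m : ℕ} (a : Fin m → G)
    (h : ∀ v ∈ rel a, v ≠ 0 → 5 ≤ nrm v) (i k : Fin m × Bool) (hik : i ≠ k) :
    (univ.filter fun p : (Fin m × Bool) × (Fin m × Bool) =>
      sg a (some p.1) - sg a (some p.2) = sg a (some i) - sg a (some k)).card ≤ 2 := by
  refine le_trans (Finset.card_le_card_of_injOn
    (fun p : (Fin m × Bool) × (Fin m × Bool) => ((some p.1, some p.2) : Option (Fin m × Bool) × Option (Fin m × Bool)))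
    ?_ ?_) (sg_diff a h (some i) (some k) (fun h1 => hik (Option.some.inj h1)))
  · intro p hp
    rw [Finset.mem_coe, Finset.mem_filter] at hp ⊢
    exact ⟨Finset.mem_univ _, hp.2⟩
  · intro p _ q _ hpq
    simp only [Prod.mk.injEq, Option.some.injEq] at hpq
    exact Prod.ext hpq.1 hpq.2

end TightIndep.NO
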