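import Pool.Agent.Lib.MP_f31b39_co.NO.Ram

/-!
# NO-Mom: the second moment over the faithful characters
-/

namespace TightIndep.NO

open Finset

private theorem Mom_div {n : ℕ} [NeZero n] (f : ℕ → ℝ) :
    ∑ h ∈ (univ : Finset (ZMod n)).erase 0, f (addOrderOf h) / (Nat.totient (addOrderOf h) : ℝ) =
      ∑ d ∈ n.divisors.erase 1, f d := by
  have hn : n ≠ 0 := NeZero.ne n
  have hmap : ∀ h ∈ (univ : Finset (ZMod n)).erase 0, addOrderOf h ∈ n.divisors.erase 1 := by
    intro h hh
    rw [mem_erase] at hh ⊢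
    refine ⟨fun h1 => hh.1 (AddMonoid.addOrderOf_eq_one_iff.1 h1), ?_⟩
    rw [Nat.mem_divisors]
    refine ⟨?_, hn⟩
    have := addOrderOf_dvd_card (x := h)
    rwa [ZMod.card] at this
  rw [← sum_fiberwise_of_maps_to hmap]
  refine sum_congr rfl fun d hd => ?_
  rw [mem_erase, Nat.mem_divisors] at hd
  have h1 : ∑ h ∈ ((univ : Finset (ZMod n)).erase 0).filter (fun h => addOrderOf h = d),
      f (addOrderOf h) / (Nat.totient (addOrderOf h) : ℝ) =
      ∑ _h ∈ ((univ : Finset (ZMod n)).erase 0).filter (fun h => addOrderOf h = d), f d / (Nat.totient d : ℝ) :=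
    sum_congr rfl fun h hh => by rw [(mem_filter.1 hh).2]
  have h2 : ((univ : Finset (ZMod n)).erase 0).filter (fun h => addOrderOf h = d) =
      univ.filter (fun h : ZMod n => addOrderOf h = d) := by
    ext h
    simp only [mem_filter, mem_erase, mem_univ, and_true, true_and]
    refine ⟨fun h => h.2, fun h3 => ⟨fun h4 => hd.1 ?_, h3⟩⟩
    rw [← h3, h4, addOrderOf_zero]
  have hdpos : 0 < d := Nat.pos_of_dvd_of_pos hd.2.1 (Nat.pos_of_ne_zero hn)
  have h3 : (0 : ℝ) < Nat.totient d := by exact_mod_cast Nat.totient_pos.2 hdpos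
  rw [h1, sum_const, nsmul_eq_mul, h2, IsAddCyclic.card_addOrderOf_eq_totient (by rw [ZMod.card]; exact hd.2.1)]
  field_simp

theorem mom {n : ℕ} [NeZero n] {ι : Type} [Fintype ι] [DecidableEq ι] (g : ι → ZMod n)
    (hg : Function.Injective g)
    (hd : ∀ i k : ι, i ≠ k →
      (univ.filter fun p : ι × ι => g p.1 - g p.2 = g i - g k).card ≤ 2)
    (x : ZMod n → ℝ) (hx : ∀ j, (x j : ℂ) = ∑ i, ZMod.stdAddChar (j * g i)) :
    ∑ u : (ZMod n)ˣ, x u ^ 2 ≤ (Nat.totient n : ℝ) * (Fintype.card ι + 2 * ep n) ∧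
    (Nat.totient n : ℝ) * (Fintype.card ι - 2 * em n) ≤ ∑ u : (ZMod n)ˣ, x u ^ 2 := by
  classical
  have hn : n ≠ 0 := NeZero.ne n
  have hopos : ∀ h : ZMod n, 0 < Nat.totient (addOrderOf h) := fun h =>
    Nat.totient_pos.2 (addOrderOf_pos h)
  set r : ZMod n → ℝ := fun h =>
    (Nat.totient n : ℝ) * ((ArithmeticFunction.moebius (addOrderOf h) : ℤ) : ℝ) / (Nat.totient (addOrderOf h) : ℝ) with hr
  -- the Ramanujan sums
  have hR : ∀ h : ZMod n, ∑ u : (ZMod n)ˣ, (ZMod.stdAddChar ((u : ZMod n) * h) : ℂ) = (r h : ℂ) := by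
    intro h
    have h1 := ram h
    have h2 : (Nat.totient (addOrderOf h) : ℂ) ≠ 0 := by exact_mod_cast (hopos h).ne'
    rw [hr]
    push_cast
    rw [eq_div_iff h2, mul_comm, h1]
  -- the second moment
  have hS : ∑ u : (ZMod n)ˣ, x u ^ 2 = ∑ p : ι × ι, r (g p.1 - g p.2) := by
    have h1 : ((∑ u : (ZMod n)ˣ, x u ^ 2 : ℝ) : ℂ) = ((∑ p : ι × ι, r (g p.1 - g p.2) : ℝ) : ℂ) := by
      push_cast
      simp_rw [← hR]
      rw [sum_comm]
      refine sum_congr rfl fun u _ => ?_
      have h2 : (x u : ℂ) = ∑ k, (ZMod.stdAddChar (-((u : ZMod n) * g k)) : ℂ) := by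
        have h3 : (starRingEnd ℂ) (x u : ℂ) = (x u : ℂ) := Complex.conj_ofReal _
        rw [← h3, hx, map_sum]
        refine sum_congr rfl fun k _ => ?_
        rw [AddChar.map_neg_eq_conj]
      rw [pow_two]
      nth_rewrite 2 [h2]
      rw [hx, sum_mul_sum, ← univ_product_univ, sum_product]
      refine sum_congr rfl fun i _ => sum_congr rfl fun k _ => ?_
      rw [← AddChar.map_add_eq_mul]
      congr 1
      ring
    exact_mod_cast h1
  -- the number of representations
  set N : ZMod n → ℕ := fun h => (univ.filter fun p : ι × ι => g p.1 - g p.2 = h).card with hN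
  have hS2 : ∑ u : (ZMod n)ˣ, x u ^ 2 = ∑ h : ZMod n, (N h : ℝ) * r h := by
    rw [hS, ← sum_fiberwise univ (fun p : ι × ι => g p.1 - g p.2)]
    refine sum_congr rfl fun h _ => ?_
    rw [hN]
    simp only
    rw [← nsmul_eq_mul, ← sum_const]
    exact sum_congr rfl fun p hp => by rw [(mem_filter.1 hp).2]
  have hN0 : N 0 = Fintype.card ι := by
    rw [hN]
    simp only
    have h1 : (univ.filter fun p : ι × ι => g p.1 - g p.2 = 0) = univ.image (fun i : ι => (i, i)) := by
      ext p
      simp only [mem_filter, mem_univ, true_and, mem_image]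
      constructor
      · intro h
        exact ⟨p.1, Prod.ext rfl (hg (sub_eq_zero.1 h))⟩
      · rintro ⟨i, rfl⟩
        simp
    rw [h1, card_image_of_injective _ (fun i j h => congrArg Prod.fst h), card_univ]
  have hN2 : ∀ h : ZMod n, h ≠ 0 → N h ≤ 2 := by
    intro h hh
    rw [hN]
    simp only
    rcases Finset.eq_empty_or_nonempty (univ.filter fun p : ι × ι => g p.1 - g p.2 = h) with h0 | ⟨p, hp⟩
    · rw [h0]
      simp
    · have h1 : g p.1 - g p.2 = h := (mem_filter.1 hp).2
      have h2 : p.1 ≠ p.2 := by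
        intro h3
        rw [h3, sub_self] at h1
        exact hh h1.symm
      have h3 := hd p.1 p.2 h2
      rw [h1] at h3
      exact h3
  have hr0 : r 0 = Nat.totient n := by
    rw [hr]
    simp
  have hS3 : ∑ u : (ZMod n)ˣ, x u ^ 2 = Fintype.card ι * (Nat.totient n : ℝ) +
      ∑ h ∈ (univ : Finset (ZMod n)).erase 0, (N h : ℝ) * r h := by
    rw [hS2, ← add_sum_erase univ (fun h : ZMod n => (N h : ℝ) * r h) (mem_univ 0), hN0, hr0]
  have hmu : ∀ d : ℕ, ArithmeticFunction.moebius d = 1 ∨ ArithmeticFunction.moebius d = 0 ∨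
      ArithmeticFunction.moebius d = -1 := by
    intro d
    rcases eq_or_ne (ArithmeticFunction.moebius d) 0 with h | h
    · exact Or.inr (Or.inl h)
    · rcases ArithmeticFunction.moebius_ne_zero_iff_eq_or.1 h with h | h
      · exact Or.inl h
      · exact Or.inr (Or.inr h)
  have hφ : (0 : ℝ) ≤ Nat.totient n := Nat.cast_nonneg _
  constructor
  · have h1 : ∑ h ∈ (univ : Finset (ZMod n)).erase 0, (N h : ℝ) * r h ≤
        ∑ h ∈ (univ : Finset (ZMod n)).erase 0,
          ((Nat.totient n : ℝ) * (if ArithmeticFunction.moebius (addOrderOf h) = 1 then 2 else 0)) /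
            (Nat.totient (addOrderOf h) : ℝ) := by
      refine sum_le_sum fun h hh => ?_
      have h2 : (N h : ℝ) ≤ 2 := by exact_mod_cast hN2 h (mem_erase.1 hh).1
      have h3 : (0 : ℝ) < Nat.totient (addOrderOf h) := by exact_mod_cast hopos h
      have h4 : (0 : ℝ) ≤ N h := Nat.cast_nonneg _
      rw [hr, mul_div_assoc']
      refine div_le_div_of_nonneg_right ?_ h3.le
      rcases hmu (addOrderOf h) with h5 | h5 | h5
      · rw [h5, if_pos rfl]
        push_cast
        nlinarith
      · rw [h5, if_neg (by norm_num)]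
        simp
      · rw [h5, if_neg (by norm_num)]
        push_cast
        nlinarith
    have h2 := Mom_div (n := n)
      (fun d => (Nat.totient n : ℝ) * (if ArithmeticFunction.moebius d = 1 then 2 else 0))
    rw [h2, ← mul_sum] at h1
    have h3 : ∑ d ∈ n.divisors.erase 1, (if ArithmeticFunction.moebius d = 1 then (2 : ℝ) else 0) = 2 * ep n := by
      rw [← sum_filter, sum_const, nsmul_eq_mul, ep, mul_comm]
    rw [h3] at h1
    rw [hS3]
    linarith
  · have h1 : ∑ h ∈ (univ : Finset (ZMod n)).erase 0,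
          ((Nat.totient n : ℝ) * (if ArithmeticFunction.moebius (addOrderOf h) = -1 then -2 else 0)) /
            (Nat.totient (addOrderOf h) : ℝ) ≤ ∑ h ∈ (univ : Finset (ZMod n)).erase 0, (N h : ℝ) * r h := by
      refine sum_le_sum fun h hh => ?_
      have h2 : (N h : ℝ) ≤ 2 := by exact_mod_cast hN2 h (mem_erase.1 hh).1
      have h3 : (0 : ℝ) < Nat.totient (addOrderOf h) := by exact_mod_cast hopos h
      have h4 : (0 : ℝ) ≤ N h := Nat.cast_nonneg _
      rw [hr, mul_div_assoc']
      refine div_le_div_of_nonneg_right ?_ h3.le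
      rcases hmu (addOrderOf h) with h5 | h5 | h5
      · rw [h5, if_neg (by norm_num)]
        push_cast
        nlinarith
      · rw [h5, if_neg (by norm_num)]
        simp
      · rw [h5, if_pos rfl]
        push_cast
        nlinarith
    have h2 := Mom_div (n := n)
      (fun d => (Nat.totient n : ℝ) * (if ArithmeticFunction.moebius d = -1 then -2 else 0))
    rw [h2, ← mul_sum] at h1
    have h3 : -(2 * (em n : ℝ)) ≤
        ∑ d ∈ n.divisors.erase 1, (if ArithmeticFunction.moebius d = -1 then (-2 : ℝ) else 0) := by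
      rw [← sum_filter, sum_const, nsmul_eq_mul]
      have h4 : (((n.divisors.erase 1).filter fun d => ArithmeticFunction.moebius d = -1).card : ℝ) ≤ em n := by
        rw [em]
        exact_mod_cast card_le_card (filter_subset_filter _ (erase_subset _ _))
      linarith
    have h4 := mul_le_mul_of_nonneg_left h3 hφ
    rw [hS3]
    nlinarith

end TightIndep.NO
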