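import Pool.Agent.Lib.MP_f31b39_co.NO.Defs

/-!
# NO-Cnt: the number of the squarefree divisors
-/

namespace TightIndep.NO

open Finset

private theorem cnt_sum (n : ℕ) (hn : 1 < n) : ∑ d ∈ n.divisors, ArithmeticFunction.moebius d = 0 := by
  have h1 := congrArg (fun f : ArithmeticFunction ℤ => f n) ArithmeticFunction.moebius_mul_coe_zeta
  simp only [ArithmeticFunction.coe_mul_zeta_apply, ArithmeticFunction.one_apply] at h1
  rw [if_neg (by omega)] at h1
  exact h1

private theorem cnt_sqf (n : ℕ) (hn : n ≠ 0) : (n.divisors.filter Squarefree).card = 2 ^ n.primeFactors.card := by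
  have h1 := Nat.sum_divisors_filter_squarefree hn (f := fun _ => (1 : ℕ))
  rw [Finset.card_eq_sum_ones, h1]
  have h2 : (UniqueFactorizationMonoid.normalizedFactors n).toFinset = n.primeFactors := by
    rw [Nat.factors_eq]
    ext p
    simp
  rw [h2, ← Finset.card_eq_sum_ones, Finset.card_powerset]

theorem ep_em (n : ℕ) (hn : 1 < n) :
    2 * ep n + 2 = 2 ^ n.primeFactors.card ∧ 2 * em n = 2 ^ n.primeFactors.card := by
  classical
  have hn0 : n ≠ 0 := by omega
  have h0 := cnt_sum n hn
  have h1 := cnt_sqf n hn0
  obtain ⟨P, hP⟩ : ∃ P : Finset ℕ, P = n.divisors.filter fun d => ArithmeticFunction.moebius d = 1 := ⟨_, rfl⟩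
  obtain ⟨M, hM⟩ : ∃ M : Finset ℕ, M = n.divisors.filter fun d => ArithmeticFunction.moebius d = -1 := ⟨_, rfl⟩
  have hsum : ∑ d ∈ n.divisors, ArithmeticFunction.moebius d = (P.card : ℤ) - M.card := by
    have h2 : ∀ d ∈ n.divisors, ArithmeticFunction.moebius d =
        (if ArithmeticFunction.moebius d = 1 then (1 : ℤ) else 0) -
          (if ArithmeticFunction.moebius d = -1 then (1 : ℤ) else 0) := by
      intro d _
      rcases ArithmeticFunction.moebius_eq_or d with h | h | h <;> rw [h] <;> norm_num
    rw [Finset.sum_congr rfl h2, Finset.sum_sub_distrib, ← Finset.sum_filter, ← Finset.sum_filter, ← hP, ← hM,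
      Finset.sum_const, Finset.sum_const]
    simp
  have hdisj : Disjoint P M := by
    rw [hP, hM, Finset.disjoint_filter]
    intro d _ h2 h3
    rw [h2] at h3
    norm_num at h3
  have hunion : n.divisors.filter Squarefree = P ∪ M := by
    ext d
    rw [hP, hM, Finset.mem_union, Finset.mem_filter, Finset.mem_filter, Finset.mem_filter,
      ← ArithmeticFunction.moebius_ne_zero_iff_squarefree]
    rcases ArithmeticFunction.moebius_eq_or d with h | h | h <;> rw [h] <;> norm_num
  have hcard : P.card + M.card = 2 ^ n.primeFactors.card := by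
    rw [← h1, hunion, Finset.card_union_of_disjoint hdisj]
  have heq : P.card = M.card := by
    rw [hsum] at h0
    omega
  have hmem : 1 ∈ P := by
    rw [hP, Finset.mem_filter]
    exact ⟨Nat.one_mem_divisors.2 hn0, ArithmeticFunction.moebius_apply_one⟩
  have hep : ep n + 1 = P.card := by
    have h2 : (n.divisors.erase 1).filter (fun d => ArithmeticFunction.moebius d = 1) = P.erase 1 := by
      rw [hP, Finset.filter_erase]
    unfold ep
    rw [h2, Finset.card_erase_of_mem hmem]
    have : 0 < P.card := Finset.card_pos.2 ⟨1, hmem⟩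
    omega
  have hem : em n = M.card := by
    rw [hM]
    rfl
  constructor <;> omega

end TightIndep.NO
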