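import Pool.Agent.Lib.MP_f31b39_co.NO.Defs

/-!
# NO-Ram: Ramanujan sums
-/

namespace TightIndep.NO

open Finset

private theorem ram_roots {n : ℕ} (hn : 0 < n) :
    ∑ ξ ∈ Polynomial.nthRootsFinset n (1 : ℂ), ξ = if n = 1 then 1 else 0 := by
  by_cases h1 : n = 1
  · subst h1
    rw [if_pos rfl]
    have h2 : Polynomial.nthRootsFinset 1 (1 : ℂ) = {1} := by
      ext x
      rw [Polynomial.mem_nthRootsFinset one_pos, pow_one, Finset.mem_singleton]
    rw [h2, Finset.sum_singleton]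
  · rw [if_neg h1]
    have hω := Complex.isPrimitiveRoot_exp n hn.ne'
    set ω := Complex.exp (2 * Real.pi * Complex.I / n) with hωd
    have hω0 : ω ≠ 0 := hω.ne_zero hn.ne'
    have hω1 : ω ≠ 1 := hω.ne_one (by omega)
    have h2 : ∑ ξ ∈ Polynomial.nthRootsFinset n (1 : ℂ), ξ = ∑ ξ ∈ Polynomial.nthRootsFinset n (1 : ℂ), ω * ξ := by
      symm
      refine Finset.sum_nbij (fun ξ => ω * ξ) ?_ ?_ ?_ ?_
      · intro ξ hξ
        rw [Polynomial.mem_nthRootsFinset hn] at hξ ⊢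
        rw [mul_pow, hω.pow_eq_one, hξ, one_mul]
      · intro ξ _ ξ' _ h
        exact mul_left_cancel₀ hω0 h
      · intro ξ hξ
        rw [Finset.mem_coe, Polynomial.mem_nthRootsFinset hn] at hξ
        refine ⟨ω⁻¹ * ξ, ?_, ?_⟩
        · rw [Finset.mem_coe, Polynomial.mem_nthRootsFinset hn, mul_pow, inv_pow, hω.pow_eq_one, inv_one, hξ, one_mul]
        · exact mul_inv_cancel_left₀ hω0 ξ
      · intro ξ _
        rfl
    rw [← Finset.mul_sum] at h2
    have h3 : (ω - 1) * ∑ ξ ∈ Polynomial.nthRootsFinset n (1 : ℂ), ξ = 0 := by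
      rw [sub_mul, one_mul, ← h2, sub_self]
    exact (mul_eq_zero.1 h3).resolve_left (sub_ne_zero.2 hω1)

private theorem ram_prim {n : ℕ} (hn : 0 < n) :
    ∑ ξ ∈ primitiveRoots n ℂ, ξ = (ArithmeticFunction.moebius n : ℂ) := by
  classical
  have h1 : ∀ n > 0, ∑ i ∈ n.divisors, (∑ ξ ∈ primitiveRoots i ℂ, ξ) = (fun n : ℕ => if n = 1 then (1 : ℂ) else 0) n := by
    intro n hn
    change _ = if n = 1 then (1 : ℂ) else 0
    rw [← ram_roots hn, IsPrimitiveRoot.nthRoots_one_eq_biUnion_primitiveRoots, Finset.sum_biUnion]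
    intro i _ j _ hij
    exact IsPrimitiveRoot.disjoint hij
  have h2 := (ArithmeticFunction.sum_eq_iff_sum_mul_moebius_eq (R := ℂ)).1 h1 n hn
  rw [← h2, Finset.sum_eq_single (n, 1)]
  · simp
  · rintro ⟨a, b⟩ hab hne
    have hb : b ≠ 1 := by
      rintro rfl
      refine hne ?_
      rw [Nat.mem_divisorsAntidiagonal, mul_one] at hab
      exact Prod.ext hab.1 rfl
    simp [hb]
  · intro h
    exact absurd (Nat.mem_divisorsAntidiagonal.2 ⟨mul_one n, hn.ne'⟩) h

private theorem ram_units {o : ℕ} [NeZero o] {ζ : ℂ} (hζ : IsPrimitiveRoot ζ o) :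
    ∑ w : (ZMod o)ˣ, ζ ^ (w : ZMod o).val = (ArithmeticFunction.moebius o : ℂ) := by
  rw [← ram_prim (Nat.pos_of_ne_zero (NeZero.ne o))]
  refine Finset.sum_nbij (fun w : (ZMod o)ˣ => ζ ^ (w : ZMod o).val) ?_ ?_ ?_ ?_
  · intro w _
    rw [mem_primitiveRoots (Nat.pos_of_ne_zero (NeZero.ne o))]
    exact hζ.pow_of_coprime _ (ZMod.val_coe_unit_coprime w)
  · intro w _ w' _ h
    exact Units.ext (ZMod.val_injective o (hζ.pow_inj (ZMod.val_lt _) (ZMod.val_lt _) h))
  · intro ξ hξ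
    rw [Finset.mem_coe, mem_primitiveRoots (Nat.pos_of_ne_zero (NeZero.ne o)), hζ.isPrimitiveRoot_iff] at hξ
    obtain ⟨i, hi, hc, rfl⟩ := hξ
    refine ⟨ZMod.unitOfCoprime i hc, Finset.mem_coe.2 (Finset.mem_univ _), ?_⟩
    change ζ ^ ((ZMod.unitOfCoprime i hc : (ZMod o)ˣ) : ZMod o).val = ζ ^ i
    rw [ZMod.coe_unitOfCoprime, ZMod.val_natCast_of_lt hi]
  · intro w _
    rfl

theorem ram {n : ℕ} [NeZero n] (h : ZMod n) :
    (Nat.totient (addOrderOf h) : ℂ) *
        ∑ u : (ZMod n)ˣ, (ZMod.stdAddChar ((u : ZMod n) * h) : ℂ) =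
      (Nat.totient n : ℂ) * (ArithmeticFunction.moebius (addOrderOf h) : ℂ) := by
  classical
  have ho0 : 0 < addOrderOf h := addOrderOf_pos h
  have ho : NeZero (addOrderOf h) := ⟨ho0.ne'⟩
  have hdvd : addOrderOf h ∣ n := by
    have h1 := addOrderOf_dvd_card (x := h)
    rwa [ZMod.card] at h1
  set o := addOrderOf h with hod
  set ζ : ℂ := ZMod.stdAddChar h with hζd
  have hpow : ∀ k : ℕ, (ZMod.stdAddChar (k • h) : ℂ) = ζ ^ k := fun k => AddChar.map_nsmul_eq_pow _ k h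
  have hζ : IsPrimitiveRoot ζ o := by
    refine ⟨?_, ?_⟩
    · rw [← hpow, hod, addOrderOf_nsmul_eq_zero, AddChar.map_zero_eq_one]
    · intro l hl
      rw [← hpow, ← AddChar.map_zero_eq_one (ZMod.stdAddChar (N := n))] at hl
      exact addOrderOf_dvd_of_nsmul_eq_zero (ZMod.injective_stdAddChar hl)
  have hterm : ∀ u : (ZMod n)ˣ, (ZMod.stdAddChar ((u : ZMod n) * h) : ℂ) =
      ζ ^ ((ZMod.unitsMap hdvd u : (ZMod o)ˣ) : ZMod o).val := by
    intro u
    have h1 : (u : ZMod n) * h = (u : ZMod n).val • h := by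
      rw [nsmul_eq_mul, ZMod.natCast_val, ZMod.cast_id', id]
    rw [h1, hpow, ZMod.unitsMap_val, ZMod.cast_eq_val, ZMod.val_natCast, hζ.eq_orderOf, pow_mod_orderOf]
  have hfib : ∀ w w' : (ZMod o)ˣ, (Finset.univ.filter fun u : (ZMod n)ˣ => ZMod.unitsMap hdvd u = w).card =
      (Finset.univ.filter fun u : (ZMod n)ˣ => ZMod.unitsMap hdvd u = w').card := fun w w' =>
    MonoidHom.card_fiber_eq_of_mem_range (ZMod.unitsMap hdvd) (ZMod.unitsMap_surjective hdvd w)
      (ZMod.unitsMap_surjective hdvd w')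
  set c := (Finset.univ.filter fun u : (ZMod n)ˣ => ZMod.unitsMap hdvd u = 1).card with hc
  have hcard : Nat.totient n = Nat.totient o * c := by
    rw [← ZMod.card_units_eq_totient n, ← ZMod.card_units_eq_totient o, ← Finset.card_univ,
      Finset.card_eq_sum_card_fiberwise (f := ZMod.unitsMap hdvd) (t := Finset.univ) fun u _ => Finset.mem_coe.2 (Finset.mem_univ _),
      Finset.sum_congr rfl fun w _ => hfib w 1, Finset.sum_const, Finset.card_univ, smul_eq_mul]
  have hsum : ∑ u : (ZMod n)ˣ, (ZMod.stdAddChar ((u : ZMod n) * h) : ℂ) = c * (ArithmeticFunction.moebius o : ℂ) := by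
    rw [Finset.sum_congr rfl fun u _ => hterm u,
      ← Finset.sum_fiberwise_of_maps_to (g := ZMod.unitsMap hdvd) (t := Finset.univ) fun u _ => Finset.mem_univ _,
      ← ram_units hζ, Finset.mul_sum]
    refine Finset.sum_congr rfl fun w _ => ?_
    rw [Finset.sum_congr rfl fun u hu => by rw [(Finset.mem_filter.1 hu).2], Finset.sum_const, hfib w 1, nsmul_eq_mul]
  rw [hsum, hcard]
  push_cast
  ring

end TightIndep.NO
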