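import Pool.Agent.Lib.MP_f31b39_co.NO.Defs

/-!
# NO-Norm: the norm of a nonzero character sum is at least one
-/

namespace TightIndep.NO

open Finset

private theorem norm_aux {n : ℕ} [NeZero n] {ι : Type} [Fintype ι] (g : ι → ZMod n)
    (K : Type) [Field K] [Algebra ℚ K] [IsCyclotomicExtension {n} ℚ K]
    (x : ZMod n → ℝ) (hx : ∀ j, (x j : ℂ) = ∑ i, ZMod.stdAddChar (j * g i))
    (h0 : ∃ u : (ZMod n)ˣ, x u ≠ 0) : 1 ≤ |∏ u : (ZMod n)ˣ, x u| := by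
  classical
  have hirr : Irreducible (Polynomial.cyclotomic n ℚ) :=
    Polynomial.cyclotomic.irreducible_rat (NeZero.pos n)
  have : FiniteDimensional ℚ K := IsCyclotomicExtension.finiteDimensional {n} ℚ K
  have : IsGalois ℚ K := IsCyclotomicExtension.isGalois {n} ℚ K
  have hz : IsPrimitiveRoot (IsCyclotomicExtension.zeta n ℚ K) n :=
    IsCyclotomicExtension.zeta_spec n ℚ K
  obtain ⟨ζ, hζdef⟩ : ∃ ζ : ℂ, ζ = ZMod.stdAddChar (1 : ZMod n) := ⟨_, rfl⟩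
  have hζpow : ∀ j : ZMod n, ZMod.stdAddChar j = ζ ^ j.val := by
    intro j
    rw [hζdef, ← AddChar.map_nsmul_eq_pow]
    simp
  have hζ : IsPrimitiveRoot ζ n := by
    have h1 := Complex.isPrimitiveRoot_exp n (NeZero.ne n)
    have h2 := ZMod.stdAddChar_coe (N := n) 1
    have h3 : ζ = Complex.exp (2 * Real.pi * Complex.I / n) := by
      rw [hζdef]
      simpa using h2
    rw [h3]
    exact h1
  obtain ⟨σ₀, hσ₀⟩ : ∃ σ₀ : K →ₐ[ℚ] ℂ, σ₀ (IsCyclotomicExtension.zeta n ℚ K) = ζ := by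
    refine ⟨(hz.embeddingsEquivPrimitiveRoots ℂ hirr).symm
      ⟨ζ, (mem_primitiveRoots (NeZero.pos n)).2 hζ⟩, ?_⟩
    rw [← hz.embeddingsEquivPrimitiveRoots_apply_coe ℂ hirr]
    simp
  obtain ⟨α, hα⟩ : ∃ α : K, α = ∑ i, (IsCyclotomicExtension.zeta n ℚ K) ^ (g i).val := ⟨_, rfl⟩
  have hσu : ∀ σ : K ≃ₐ[ℚ] K, σ₀ (σ α) =
      (x ((IsCyclotomicExtension.autEquivPow K hirr σ : (ZMod n)ˣ) : ZMod n) : ℂ) := by
    intro σ
    have h1 : σ (IsCyclotomicExtension.zeta n ℚ K) = (IsCyclotomicExtension.zeta n ℚ K) ^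
        ((IsCyclotomicExtension.autEquivPow K hirr σ : (ZMod n)ˣ) : ZMod n).val :=
      (hz.autToPow_spec ℚ σ).symm
    rw [hx, hα, map_sum, map_sum]
    refine Finset.sum_congr rfl fun i _ => ?_
    rw [map_pow, map_pow, h1, map_pow, hσ₀, hζpow, ← pow_mul, ZMod.val_mul]
    exact pow_eq_pow_mod _ hζ.pow_eq_one
  have hint : IsIntegral ℤ α := by
    rw [hα]
    exact IsIntegral.sum _ fun i _ => (hz.isIntegral (NeZero.pos n)).pow _
  obtain ⟨u, hu⟩ := h0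
  have hα0 : α ≠ 0 := by
    intro h
    have h1 := hσu ((IsCyclotomicExtension.autEquivPow K hirr).symm u)
    rw [h, map_zero, map_zero, MulEquiv.apply_symm_apply] at h1
    exact hu (by exact_mod_cast h1.symm)
  obtain ⟨k, hk⟩ := IsIntegrallyClosed.isIntegral_iff.mp (Algebra.isIntegral_norm ℚ hint)
  have hk0 : k ≠ 0 := by
    rintro rfl
    exact (Algebra.norm_ne_zero_iff.mpr hα0) (by rw [← hk]; simp)
  have hprod : ((∏ u : (ZMod n)ˣ, x u : ℝ) : ℂ) = ((k : ℝ) : ℂ) := by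
    have h1 := congrArg σ₀ (Algebra.norm_eq_prod_automorphisms ℚ α)
    rw [map_prod, ← hk] at h1
    push_cast
    have h2 : σ₀ (algebraMap ℚ K ((algebraMap ℤ ℚ) k)) = (k : ℂ) := by simp
    rw [h2] at h1
    rw [h1]
    refine (Fintype.prod_equiv (IsCyclotomicExtension.autEquivPow K hirr).toEquiv _ _ ?_).symm
    intro σ
    exact hσu σ
  have h3 : (∏ u : (ZMod n)ˣ, x u) = (k : ℝ) := by exact_mod_cast hprod
  rw [h3]
  exact_mod_cast Int.one_le_abs hk0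

theorem norm_ge {n : ℕ} [NeZero n] {ι : Type} [Fintype ι] (g : ι → ZMod n)
    (x : ZMod n → ℝ) (hx : ∀ j, (x j : ℂ) = ∑ i, ZMod.stdAddChar (j * g i))
    (h0 : ∃ u : (ZMod n)ˣ, x u ≠ 0) : 1 ≤ |∏ u : (ZMod n)ˣ, x u| := by
  have h1 : NeZero ((n : ℕ) : ℚ) := ⟨by exact_mod_cast NeZero.ne n⟩
  have h2 : IsCyclotomicExtension {n} ℚ (CyclotomicField n ℚ) :=
    CyclotomicField.isCyclotomicExtension n ℚ
  exact norm_aux g (CyclotomicField n ℚ) x hx h0

end TightIndep.NO
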