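import Pool.Agent.Lib.MP_f31b39_co.NO.S17

/-!
# NO-A17: `m = 17`, the fibre counts modulo 17 are congruent
-/

namespace TightIndep.NO

open Finset

section poly

open Polynomial

private instance a17_fact : Fact (Nat.Prime 17) := ⟨by norm_num⟩

private theorem a17_cyc : cyclotomic 17 (ZMod 17) = (X - 1) ^ 16 := by
  have h1 := cyclotomic_prime_mul_X_sub_one (ZMod 17) 17
  have h2 : (X - 1 : (ZMod 17)[X]) ^ 17 = X ^ 17 - 1 := by
    rw [sub_pow_char, one_pow]
  have h3 : (X - 1 : (ZMod 17)[X]) ≠ 0 := by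
    rw [← C_1]; exact X_sub_C_ne_zero 1
  apply mul_right_cancel₀ h3
  rw [h1, ← h2, ← pow_succ]

private theorem a17_geom : ∑ i ∈ range 17, (X : (ZMod 17)[X]) ^ i = (X - 1) ^ 16 := by
  rw [← a17_cyc, cyclotomic_prime]

/-- the composition with `X ^ k` of `(X-1)^j g`. -/
private theorem a17_comp (g : (ZMod 17)[X]) (j k : ℕ) :
    ((X - 1) ^ j * g).comp (X ^ k) = (X - 1) ^ j * ((∑ i ∈ range k, X ^ i) ^ j * g.comp (X ^ k)) := by
  rw [mul_comp, pow_comp, sub_comp, X_comp, one_comp, ← mul_geom_sum, mul_pow, mul_assoc]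

private theorem a17_eval (g : (ZMod 17)[X]) (j k : ℕ) :
    eval 1 ((∑ i ∈ range k, (X : (ZMod 17)[X]) ^ i) ^ j * g.comp (X ^ k)) =
      (k : ZMod 17) ^ j * eval 1 g := by
  rw [eval_mul, eval_pow, eval_comp, eval_pow, eval_X, one_pow, eval_finsetSum]
  simp

/-- The main algebraic step. -/
private theorem a17_main (f : (ZMod 17)[X]) (h1 : eval 1 f = 0)
    (hF : (X - 1) ^ 16 ∣ f ^ 3 + 3 * f * f.comp (X ^ 2) + 2 * f.comp (X ^ 3) - 96 * f)
    (hsym : (X - 1) ^ 17 ∣ f.comp (X ^ 16) - f) : (X - 1) ^ 16 ∣ f := by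
  by_cases hf : f = 0
  · rw [hf]; exact dvd_zero _
  by_contra hnot
  obtain ⟨g, hg, hg1⟩ := exists_eq_pow_rootMultiplicity_mul_and_not_dvd f hf (1 : ZMod 17)
  set j := rootMultiplicity (1 : ZMod 17) f with hj
  rw [C_1] at hg hg1
  have hX : (X - 1 : (ZMod 17)[X]) ≠ 0 := by
    rw [← C_1]; exact X_sub_C_ne_zero 1
  have hge : eval 1 g ≠ 0 := by
    intro h
    apply hg1
    rw [← C_1, dvd_iff_isRoot]
    exact h
  have hj1 : 1 ≤ j := by
    rw [hj, Nat.one_le_iff_ne_zero, Ne, rootMultiplicity_eq_zero_iff]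
    intro h
    exact hf (h h1)
  have hj16 : j < 16 := by
    by_contra h
    apply hnot
    rw [hg]
    exact (pow_dvd_pow _ (not_lt.1 h)).mul_right _
  have hdiv : ∀ (N : ℕ) (H : (ZMod 17)[X]), j < N → (X - 1) ^ N ∣ (X - 1) ^ j * H →
      eval 1 H = 0 := by
    intro N H hN h
    obtain ⟨q, hq⟩ := h
    have h2 : (X - 1 : (ZMod 17)[X]) ^ N = (X - 1) ^ j * (X - 1) ^ (N - j) := by
      rw [← pow_add]; congr 1; omega
    rw [h2, mul_assoc] at hq
    have h3 := mul_left_cancel₀ (pow_ne_zero j hX) hq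
    rw [h3, eval_mul, eval_pow, eval_sub, eval_X, eval_one, sub_self,
      zero_pow (by omega), zero_mul]
  have h3 : (2 * 3 ^ j - 96 : ZMod 17) * eval 1 g = 0 := by
    have c2 : f.comp (X ^ 2) = (X - 1) ^ j * ((∑ i ∈ range 2, X ^ i) ^ j * g.comp (X ^ 2)) := by
      conv_lhs => rw [hg]
      exact a17_comp g j 2
    have c3 : f.comp (X ^ 3) = (X - 1) ^ j * ((∑ i ∈ range 3, X ^ i) ^ j * g.comp (X ^ 3)) := by
      conv_lhs => rw [hg]
      exact a17_comp g j 3
    have hB := a17_eval g j 3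
    rw [c2, c3] at hF
    generalize (∑ i ∈ range 2, (X : (ZMod 17)[X]) ^ i) ^ j * g.comp (X ^ 2) = A at hF
    generalize (∑ i ∈ range 3, (X : (ZMod 17)[X]) ^ i) ^ j * g.comp (X ^ 3) = B at hF hB
    have e1 : f ^ 3 + 3 * f * ((X - 1) ^ j * A) + 2 * ((X - 1) ^ j * B) - 96 * f =
        (X - 1) ^ j * ((X - 1) ^ j * ((X - 1) ^ j * g ^ 3) + 3 * ((X - 1) ^ j * (g * A)) +
          2 * B - 96 * g) := by
      clear_value j
      rw [hg]
      ring
    rw [e1] at hF
    have e2 := hdiv 16 _ hj16 hF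
    have n0 : eval 1 ((X - 1 : (ZMod 17)[X]) ^ j) = 0 := by
      rw [eval_pow, eval_sub, eval_X, eval_one, sub_self, zero_pow (by omega)]
    have n2 : eval 1 (2 : (ZMod 17)[X]) = 2 := by
      rw [← C_ofNat, eval_C]
    have n96 : eval 1 (96 : (ZMod 17)[X]) = 96 := by
      rw [← C_ofNat, eval_C]
    rw [eval_sub, eval_add, eval_add, eval_mul, eval_mul, eval_mul, eval_mul, eval_mul, eval_mul,
      eval_mul, n0, hB, n2, n96] at e2
    push_cast at e2
    linear_combination e2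
  have h4 : (16 ^ j : ZMod 17) * eval 1 g = eval 1 g := by
    have c16 : f.comp (X ^ 16) = (X - 1) ^ j * ((∑ i ∈ range 16, X ^ i) ^ j * g.comp (X ^ 16)) := by
      conv_lhs => rw [hg]
      exact a17_comp g j 16
    have e1 : f.comp (X ^ 16) - f = (X - 1) ^ j *
        ((∑ i ∈ range 16, X ^ i) ^ j * g.comp (X ^ 16) - g) := by
      rw [c16]
      conv_lhs => rw [hg]
      rw [mul_sub]
    rw [e1] at hsym
    have e2 := hdiv 17 _ (by omega) hsym
    rw [eval_sub, a17_eval] at e2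
    push_cast at e2
    linear_combination e2
  have h5 : (2 * 3 ^ j - 96 : ZMod 17) = 0 := (mul_eq_zero.1 h3).resolve_right hge
  have h6 : (16 ^ j : ZMod 17) = 1 := by
    apply mul_right_cancel₀ hge
    rw [h4, one_mul]
  clear_value j
  have key : ∀ i < 16, ((2 * 3 ^ i - 96 : ZMod 17) = 0) → ((16 ^ i : ZMod 17) = 1) → False := by
    decide
  exact key j hj16 h5 h6

/-- `ω ^ z` depends only on `z` modulo 17 -/
private theorem a17_zpow {ω : ℂ} (hω : ω ^ 17 = 1) (z : ℤ) : ω ^ z = ω ^ ((z : ZMod 17)).val := by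
  have h0 : ω ≠ 0 := by
    rintro rfl
    norm_num at hω
  have h1 : ((((z : ZMod 17)).val : ℤ)) = z % 17 := ZMod.val_intCast z
  have h2 : z = z % 17 + 17 * (z / 17) := (Int.emod_add_mul_ediv z 17).symm
  have h3 : ω ^ (17 * (z / 17)) = 1 := by
    rw [zpow_mul]
    have : ω ^ (17 : ℤ) = 1 := by exact_mod_cast hω
    rw [this, one_zpow]
  rw [← zpow_natCast, h1]
  conv_lhs => rw [h2, zpow_add₀ h0, h3, mul_one]

private theorem a17_tau (b : Fin 17 → ℤ) {ω : ℂ} (hω : ω ^ 17 = 1) :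
    T7.tau b ω = ∑ c : ZMod 17, ((e17 b c + e17 b (-c) : ℕ) : ℂ) * ω ^ c.val := by
  have h1 : ∑ i, ω ^ b i = ∑ c : ZMod 17, ((e17 b c : ℕ) : ℂ) * ω ^ c.val := by
    rw [← Finset.sum_fiberwise (s := univ) (g := fun i => ((b i : ℤ) : ZMod 17))]
    refine Finset.sum_congr rfl (fun c _ => ?_)
    have : ∀ i ∈ univ.filter (fun i => ((b i : ℤ) : ZMod 17) = c), ω ^ b i = ω ^ c.val := by
      intro i hi
      rw [a17_zpow hω, (Finset.mem_filter.1 hi).2]
    rw [Finset.sum_congr rfl this, Finset.sum_const, nsmul_eq_mul, e17]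
  have h2 : ∑ i, ω⁻¹ ^ b i = ∑ c : ZMod 17, ((e17 b (-c) : ℕ) : ℂ) * ω ^ c.val := by
    rw [← Equiv.sum_comp (Equiv.neg (ZMod 17))]
    rw [← Finset.sum_fiberwise (s := univ) (g := fun i => ((b i : ℤ) : ZMod 17))]
    refine Finset.sum_congr rfl (fun c _ => ?_)
    have : ∀ i ∈ univ.filter (fun i => ((b i : ℤ) : ZMod 17) = c), ω⁻¹ ^ b i = ω ^ (-c).val := by
      intro i hi
      rw [inv_zpow', a17_zpow hω]
      congr 2
      rw [Int.cast_neg, (Finset.mem_filter.1 hi).2]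
    rw [Finset.sum_congr rfl this, Finset.sum_const, nsmul_eq_mul, Equiv.neg_apply, neg_neg, e17]
  rw [T7.tau, Finset.sum_add_distrib, h1, h2, ← Finset.sum_add_distrib]
  refine Finset.sum_congr rfl (fun c _ => ?_)
  push_cast
  ring

private noncomputable def a17_f (T : ZMod 17 → ℕ) : ℤ[X] := ∑ c : ZMod 17, C (T c : ℤ) * X ^ c.val

private theorem a17_aeval (T : ZMod 17 → ℕ) (ω : ℂ) :
    aeval ω (a17_f T) = ∑ c : ZMod 17, (T c : ℂ) * ω ^ c.val := by
  rw [a17_f, map_sum]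
  refine Finset.sum_congr rfl (fun c _ => ?_)
  rw [map_mul, map_pow, aeval_X, aeval_C]
  simp

private theorem a17_map (T : ZMod 17 → ℕ) :
    (a17_f T).map (Int.castRingHom (ZMod 17)) = ∑ c : ZMod 17, C (T c : ZMod 17) * X ^ c.val := by
  rw [a17_f, Polynomial.map_sum]
  refine Finset.sum_congr rfl (fun c _ => ?_)
  simp

theorem a17 (b : Fin 17 → ℤ) (hS : S17 b) (c c' : ZMod 17) :
    e17 b c + e17 b (-c) ≡ e17 b c' + e17 b (-c') [MOD 17] := by
  set T : ZMod 17 → ℕ := fun c => e17 b c + e17 b (-c) with hT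
  have hTneg : ∀ c, T (-c) = T c := by
    intro c
    rw [hT]
    simp only [neg_neg]
    rw [add_comm]
  -- the polynomial over the integers
  have hprim : IsPrimitiveRoot (Complex.exp (2 * Real.pi * Complex.I / 17)) 17 := by
    have := Complex.isPrimitiveRoot_exp 17 (by norm_num)
    exact_mod_cast this
  set ζ : ℂ := Complex.exp (2 * Real.pi * Complex.I / 17) with hζ
  have hζ17 : ζ ^ 17 = 1 := hprim.pow_eq_one
  have hζn : ζ ^ 13192 = 1 := by
    rw [show 13192 = 17 * 776 by norm_num, pow_mul, hζ17, one_pow]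
  have hζ2 : ζ ^ 2 ≠ 1 := hprim.pow_ne_one_of_pos_of_lt (by norm_num) (by norm_num)
  have heq := hS.eq ζ hζn hζ2
  have hk : ∀ k : ℕ, (ζ ^ k) ^ 17 = 1 := by
    intro k
    rw [← pow_mul, mul_comm, pow_mul, hζ17, one_pow]
  have hcomp : ∀ k : ℕ, aeval ζ ((a17_f T).comp (X ^ k)) = T7.tau b (ζ ^ k) := by
    intro k
    rw [aeval_comp, map_pow, aeval_X, a17_aeval, a17_tau b (hk k)]
  have h1' : aeval ζ (a17_f T) = T7.tau b ζ := by
    rw [a17_aeval, a17_tau b hζ17]
  have hroot : aeval ζ ((a17_f T) ^ 3 + 3 * (a17_f T) * (a17_f T).comp (X ^ 2) +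
      2 * (a17_f T).comp (X ^ 3) - 96 * (a17_f T)) = 0 := by
    rw [map_sub, map_add, map_add, map_mul, map_mul, map_mul, map_mul, map_pow, hcomp, hcomp, h1']
    have n3 : aeval ζ (3 : ℤ[X]) = 3 := map_ofNat (aeval ζ) 3
    have n2 : aeval ζ (2 : ℤ[X]) = 2 := map_ofNat (aeval ζ) 2
    have n96 : aeval ζ (96 : ℤ[X]) = 96 := map_ofNat (aeval ζ) 96
    rw [n3, n2, n96]
    linear_combination heq
  have hcyc : cyclotomic 17 ℤ ∣ (a17_f T) ^ 3 + 3 * (a17_f T) * (a17_f T).comp (X ^ 2) +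
      2 * (a17_f T).comp (X ^ 3) - 96 * (a17_f T) := by
    rw [cyclotomic_eq_minpoly hprim (by norm_num)]
    exact minpoly.isIntegrallyClosed_dvd (hprim.isIntegral (by norm_num)) hroot
  set f : (ZMod 17)[X] := (a17_f T).map (Int.castRingHom (ZMod 17)) with hf
  have hfsum : f = ∑ c : ZMod 17, C (T c : ZMod 17) * X ^ c.val := a17_map T
  have hF : (X - 1) ^ 16 ∣ f ^ 3 + 3 * f * f.comp (X ^ 2) + 2 * f.comp (X ^ 3) - 96 * f := by
    have h2 := Polynomial.map_dvd (Int.castRingHom (ZMod 17)) hcyc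
    rw [map_cyclotomic_int, a17_cyc] at h2
    simpa [Polynomial.map_sub, Polynomial.map_add, Polynomial.map_mul, Polynomial.map_pow,
      Polynomial.map_comp, ← hf] using h2
  have hf1 : eval 1 f = 0 := by
    rw [hfsum, eval_finsetSum]
    have h3 : ∀ c : ZMod 17, eval 1 (C (T c : ZMod 17) * X ^ c.val) = (T c : ZMod 17) := by
      intro c; simp
    rw [Finset.sum_congr rfl (fun c _ => h3 c), ← Nat.cast_sum]
    have h4 : ∑ c : ZMod 17, e17 b c = 17 := by
      have := Finset.card_eq_sum_card_fiberwise (s := (univ : Finset (Fin 17)))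
        (t := (univ : Finset (ZMod 17))) (f := fun i => ((b i : ℤ) : ZMod 17))
        (fun _ _ => Finset.mem_coe.2 (Finset.mem_univ _))
      rw [Finset.card_univ, Fintype.card_fin] at this
      exact this.symm
    have h5 : ∑ c : ZMod 17, T c = 34 := by
      rw [hT, Finset.sum_add_distrib, h4]
      have : ∑ c : ZMod 17, e17 b (-c) = ∑ c : ZMod 17, e17 b c :=
        Equiv.sum_comp (Equiv.neg (ZMod 17)) (fun c => e17 b c)
      rw [this, h4]
    rw [h5]
    decide
  have hsym : (X - 1) ^ 17 ∣ f.comp (X ^ 16) - f := by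
    have h6 : (X - 1 : (ZMod 17)[X]) ^ 17 = X ^ 17 - 1 := by
      rw [sub_pow_char, one_pow]
    rw [h6]
    have h7 : f = ∑ c : ZMod 17, C (T c : ZMod 17) * X ^ (-c).val := by
      rw [hfsum, ← Equiv.sum_comp (Equiv.neg (ZMod 17))]
      refine Finset.sum_congr rfl (fun c _ => ?_)
      rw [Equiv.neg_apply, hTneg]
    have h8 : f.comp (X ^ 16) = ∑ c : ZMod 17, C (T c : ZMod 17) * X ^ (16 * c.val) := by
      rw [hfsum, Polynomial.sum_comp]
      refine Finset.sum_congr rfl (fun c _ => ?_)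
      rw [mul_comp, C_comp, pow_comp, X_comp, ← pow_mul]
    rw [h8]
    conv_rhs => rw [h7]
    rw [← Finset.sum_sub_distrib]
    refine Finset.dvd_sum (fun c _ => ?_)
    rw [← mul_sub]
    refine Dvd.dvd.mul_left ?_ _
    have h9 : ∀ a : ℕ, (X ^ 17 - 1 : (ZMod 17)[X]) ∣ X ^ (a + 17) - X ^ a := by
      intro a
      exact ⟨X ^ a, by ring⟩
    have h10 : ∀ (m a : ℕ), (X ^ 17 - 1 : (ZMod 17)[X]) ∣ X ^ (a + 17 * m) - X ^ a := by
      intro m a
      induction m with
      | zero => simp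
      | succ m ih =>
        have h11 := h9 (a + 17 * m)
        have h12 : (X ^ (a + 17 * (m + 1)) - X ^ a : (ZMod 17)[X]) =
            (X ^ (a + 17 * m + 17) - X ^ (a + 17 * m)) + (X ^ (a + 17 * m) - X ^ a) := by ring
        rw [h12]
        exact dvd_add h11 ih
    have h13 : ∃ m, 16 * c.val = (-c).val + 17 * m := by
      have : ∀ c : ZMod 17, 16 * c.val = (-c).val + 17 * ((16 * c.val) / 17) := by decide
      exact ⟨_, this c⟩
    obtain ⟨m, hm⟩ := h13
    rw [hm]
    exact h10 m _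
  have hdiv := a17_main f hf1 hF hsym
  obtain ⟨g, hg⟩ := hdiv
  -- `g` is constant
  have hdeg : f.natDegree ≤ 16 := by
    rw [hfsum]
    refine natDegree_sum_le_of_forall_le _ _ (fun c _ => ?_)
    refine (natDegree_C_mul_X_pow_le _ _).trans ?_
    have := ZMod.val_lt c
    omega
  have hg0 : g.natDegree = 0 := by
    by_cases h0 : g = 0
    · rw [h0, natDegree_zero]
    · have hX1 : (X - 1 : (ZMod 17)[X]) ≠ 0 := by
        rw [← C_1]; exact X_sub_C_ne_zero 1
      have h14 : f.natDegree = 16 + g.natDegree := by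
        rw [hg, natDegree_mul (pow_ne_zero _ hX1) h0, natDegree_pow]
        have : (X - 1 : (ZMod 17)[X]).natDegree = 1 := by
          rw [← C_1]; exact natDegree_X_sub_C 1
        rw [this]
      omega
  obtain ⟨a, ha⟩ := natDegree_eq_zero.1 hg0
  have hcoef : ∀ c : ZMod 17, (T c : ZMod 17) = a := by
    intro c
    have h15 : f.coeff c.val = (T c : ZMod 17) := by
      rw [hfsum, finsetSum_coeff, Finset.sum_eq_single c]
      · simp
      · intro d _ hd
        rw [coeff_C_mul, coeff_X_pow, if_neg, mul_zero]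
        intro h
        exact hd (ZMod.val_injective 17 h).symm
      · intro h
        exact absurd (Finset.mem_univ c) h
    rw [← h15, hg, ← ha, ← a17_geom, mul_comm, coeff_C_mul, finsetSum_coeff,
      Finset.sum_eq_single c.val]
    · simp
    · intro d _ hd
      rw [coeff_X_pow, if_neg (fun h => hd h.symm)]
    · intro h
      exact absurd (Finset.mem_range.2 (ZMod.val_lt c)) h
  have hfin : (T c : ZMod 17) = (T c' : ZMod 17) := by rw [hcoef, hcoef]
  exact (ZMod.natCast_eq_natCast_iff _ _ 17).1 hfin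

end poly

end TightIndep.NO
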