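import Pool.Agent.Lib.MP_f31b39_co.NO.S17

/-!
# NO-B17: `m = 17`, the fibre counts modulo 17 are equal
-/

namespace TightIndep.NO

open Finset

private theorem B17_fib (b : Fin 17 → ℤ) (f : ZMod 17 → ℂ) :
    ∑ i, f ((b i : ℤ) : ZMod 17) = ∑ c, (e17 b c : ℂ) * f c := by
  rw [← sum_fiberwise' univ (fun i => ((b i : ℤ) : ZMod 17)) f]
  refine sum_congr rfl fun c _ => ?_
  rw [sum_const, nsmul_eq_mul]
  rfl

private theorem B17_tau (b : Fin 17 → ℤ) (ψ : AddChar (ZMod 17) ℂ) (j : ZMod 17) :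
    T7.tau b (ψ j) = ∑ c, ((e17 b c + e17 b (-c) : ℕ) : ℂ) * ψ (c * j) := by
  have h1 : ∀ i, ψ j ^ b i = ψ (((b i : ℤ) : ZMod 17) * j) := by
    intro i
    rw [← AddChar.map_zsmul_eq_zpow, zsmul_eq_mul]
  have h2 : ∀ i, (ψ j)⁻¹ ^ b i = ψ (-((b i : ℤ) : ZMod 17) * j) := by
    intro i
    rw [inv_zpow, ← zpow_neg, ← AddChar.map_zsmul_eq_zpow, zsmul_eq_mul, Int.cast_neg]
  unfold T7.tau
  rw [sum_add_distrib, sum_congr rfl fun i _ => h1 i, sum_congr rfl fun i _ => h2 i,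
    B17_fib b (fun c => ψ (c * j)), B17_fib b (fun c => ψ (-c * j))]
  have h3 : ∑ c, (e17 b c : ℂ) * ψ (-c * j) = ∑ c, (e17 b (-c) : ℂ) * ψ (c * j) := by
    refine Fintype.sum_equiv (Equiv.neg (ZMod 17)) _ _ fun c => ?_
    rw [Equiv.neg_apply, neg_neg]
  rw [h3, ← sum_add_distrib]
  refine sum_congr rfl fun c _ => ?_
  push_cast
  ring

private theorem B17_sum (b : Fin 17 → ℤ) : ∑ c, (e17 b c + e17 b (-c)) = 34 := by
  have h1 : ∑ c, e17 b c = 17 := by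
    have h := B17_fib b (fun _ => 1)
    simp only [mul_one, sum_const, card_univ, Fintype.card_fin, nsmul_eq_mul] at h
    exact_mod_cast h.symm
  have h2 : ∑ c, e17 b (-c) = ∑ c, e17 b c :=
    Fintype.sum_equiv (Equiv.neg (ZMod 17)) _ _ fun c => rfl
  rw [sum_add_distrib, h2, h1]

private theorem B17_parseval (b : Fin 17 → ℤ) {ψ : AddChar (ZMod 17) ℂ} (hψ : ψ.IsPrimitive) :
    ∑ j, T7.tau b (ψ j) ^ 2 = 17 * ((∑ c, (e17 b c + e17 b (-c)) ^ 2 : ℕ) : ℂ) := by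
  have h1 : ∀ j, T7.tau b (ψ j) ^ 2 = ∑ c, ∑ c', ((e17 b c + e17 b (-c) : ℕ) : ℂ) *
      ((e17 b c' + e17 b (-c') : ℕ) : ℂ) * ψ (j * (c + c')) := by
    intro j
    rw [B17_tau, pow_two, sum_mul_sum]
    refine sum_congr rfl fun c _ => sum_congr rfl fun c' _ => ?_
    have h2 : ψ (j * (c + c')) = ψ (c * j) * ψ (c' * j) := by
      rw [← AddChar.map_add_eq_mul]
      congr 1
      ring
    rw [h2]
    ring
  rw [sum_congr rfl fun j _ => h1 j, sum_comm]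
  push_cast
  rw [mul_sum]
  refine sum_congr rfl fun c _ => ?_
  rw [sum_comm]
  have h3 : ∀ c' : ZMod 17, ∑ j, ((e17 b c : ℂ) + (e17 b (-c) : ℂ)) * ((e17 b c' : ℂ) + (e17 b (-c') : ℂ)) * ψ (j * (c + c')) =
      if c' = -c then 17 * ((e17 b c : ℂ) + (e17 b (-c) : ℂ)) ^ 2 else 0 := by
    intro c'
    rw [← mul_sum, AddChar.sum_mulShift (c + c') hψ]
    by_cases h : c' = -c
    · rw [if_pos h, if_pos (by rw [h, add_neg_cancel]), h, neg_neg, ZMod.card]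
      push_cast
      ring
    · rw [if_neg h, if_neg (fun h' => h (eq_neg_of_add_eq_zero_right h'))]
      simp
  rw [sum_congr rfl fun c' _ => h3 c', sum_ite_eq' univ (-c)]
  simp

private theorem B17_lt (b : Fin 17 → ℤ) (hS : S17 b) (c : ZMod 17) : e17 b c + e17 b (-c) < 17 := by
  have hψ := ZMod.isPrimitive_stdAddChar 17
  have hinj := ZMod.injective_stdAddChar (N := 17)
  generalize (ZMod.stdAddChar : AddChar (ZMod 17) ℂ) = ψ at hψ hinj
  have h1 := B17_parseval b hψ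
  have h0 : T7.tau b (ψ 0) = 34 := by
    rw [B17_tau]
    simp only [mul_zero, AddChar.map_zero_eq_one, mul_one]
    exact_mod_cast B17_sum b
  have hj : ∀ j ∈ univ.erase (0 : ZMod 17), ‖T7.tau b (ψ j) ^ 2‖ ≤ 144 := by
    intro j hj
    have hj0 : j ≠ 0 := (mem_erase.1 hj).1
    have e1 : ψ j ^ 13192 = 1 := by
      rw [← AddChar.map_nsmul_eq_pow, nsmul_eq_mul]
      have e2 : ((13192 : ℕ) : ZMod 17) = 0 := (ZMod.natCast_eq_zero_iff 13192 17).2 (by norm_num)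
      rw [e2, zero_mul, AddChar.map_zero_eq_one]
    have e3 : ψ j ^ 2 ≠ 1 := by
      rw [← AddChar.map_nsmul_eq_pow, nsmul_eq_mul]
      intro h
      have e4 : ((2 : ℕ) : ZMod 17) * j = 0 := hinj (by rw [h, AddChar.map_zero_eq_one])
      revert e4 hj0
      clear hj e1 h
      revert j
      decide
    have e5 := hS.bd (ψ j) e1 e3
    rw [norm_pow]
    nlinarith [norm_nonneg (T7.tau b (ψ j))]
  have h2 : ‖∑ j, T7.tau b (ψ j) ^ 2‖ ≤ 3460 := by
    rw [← add_sum_erase univ _ (mem_univ (0 : ZMod 17)), h0]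
    refine (norm_add_le _ _).trans ?_
    have e1 : ‖((34 : ℂ) ^ 2)‖ = 1156 := by
      rw [norm_pow]
      norm_num
    have e2 : ‖∑ j ∈ univ.erase (0 : ZMod 17), T7.tau b (ψ j) ^ 2‖ ≤ 16 * 144 := by
      refine (norm_sum_le _ _).trans ((sum_le_sum hj).trans ?_)
      rw [sum_const, card_erase_of_mem (mem_univ _), card_univ, ZMod.card]
      norm_num
    rw [e1]
    linarith
  rw [h1, norm_mul, Complex.norm_natCast] at h2
  have h3 : ‖(17 : ℂ)‖ = 17 := by norm_num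
  rw [h3] at h2
  have h4 : 17 * ∑ c, (e17 b c + e17 b (-c)) ^ 2 ≤ 3460 := by exact_mod_cast h2
  have h5 : (e17 b c + e17 b (-c)) ^ 2 ≤ ∑ c, (e17 b c + e17 b (-c)) ^ 2 :=
    single_le_sum (f := fun c => (e17 b c + e17 b (-c)) ^ 2) (fun _ _ => Nat.zero_le _) (mem_univ c)
  clear h2 h1 h0 hj hS
  generalize ∑ c, (e17 b c + e17 b (-c)) ^ 2 = Z at h4 h5
  generalize e17 b c + e17 b (-c) = t at h5 ⊢
  by_contra hcon
  push Not at hcon
  have h6 : 17 ^ 2 ≤ t ^ 2 := Nat.pow_le_pow_left hcon 2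
  omega

theorem b17 (b : Fin 17 → ℤ) (hS : S17 b)
    (hA : ∀ c c' : ZMod 17, e17 b c + e17 b (-c) ≡ e17 b c' + e17 b (-c') [MOD 17])
    (c : ZMod 17) : e17 b c + e17 b (-c) = 2 := by
  have h1 : ∀ c', e17 b c' + e17 b (-c') = e17 b c + e17 b (-c) := fun c' =>
    Nat.ModEq.eq_of_lt_of_lt (hA c' c) (B17_lt b hS c') (B17_lt b hS c)
  have h2 := B17_sum b
  rw [sum_congr rfl fun c' _ => h1 c', sum_const, card_univ, ZMod.card, smul_eq_mul] at h2
  omega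

end TightIndep.NO
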