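import Pool.Agent.Lib.MP_f31b39_co.NO.S17

/-!
# NO-C17: `m = 17`, every class modulo 17 is met once
-/

namespace TightIndep.NO

open Finset

/-- the power sum of the family at `z` -/
private noncomputable def EE (b : Fin 17 → ℤ) (z : ℂ) : ℂ := ∑ i, z ^ b i

private theorem zpow_val {z : ℂ} (hz : z ^ 17 = 1) (n : ℤ) : z ^ n = z ^ ((n : ZMod 17)).val := by
  have hz0 : z ≠ 0 := by
    rintro rfl
    norm_num at hz
  have h1 : (((n : ZMod 17)).val : ℤ) = n % 17 := by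
    have := ZMod.val_intCast (n := 17) n
    exact_mod_cast this
  rw [← zpow_natCast z ((n : ZMod 17)).val, h1]
  conv_lhs => rw [← Int.emod_add_mul_ediv n 17]
  rw [zpow_add₀ hz0, zpow_mul]
  have h2 : z ^ (17 : ℤ) = 1 := by exact_mod_cast hz
  rw [h2, one_zpow, mul_one]

private theorem sum_fib (b : Fin 17 → ℤ) (f : ZMod 17 → ℂ) :
    ∑ i, f ((b i : ℤ) : ZMod 17) = ∑ c, (e17 b c : ℂ) * f c := by
  rw [← Finset.sum_fiberwise univ (fun i => ((b i : ℤ) : ZMod 17))]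
  refine Finset.sum_congr rfl fun c _ => ?_
  rw [Finset.sum_congr rfl (g := fun _ => f c)]
  · rw [Finset.sum_const, nsmul_eq_mul]
    rfl
  · intro i hi
    rw [(Finset.mem_filter.1 hi).2]

private theorem EE_eq (b : Fin 17 → ℤ) {z : ℂ} (hz : z ^ 17 = 1) :
    EE b z = ∑ c : ZMod 17, (e17 b c : ℂ) * z ^ c.val := by
  rw [← sum_fib b (fun c => z ^ c.val)]
  exact Finset.sum_congr rfl fun i _ => zpow_val hz (b i)

private theorem EE_inv_eq (b : Fin 17 → ℤ) {z : ℂ} (hz : z ^ 17 = 1) :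
    EE b z⁻¹ = ∑ c : ZMod 17, (e17 b (-c) : ℂ) * z ^ c.val := by
  have h1 : EE b z⁻¹ = ∑ c : ZMod 17, (e17 b c : ℂ) * z ^ (-c).val := by
    rw [← sum_fib b (fun c => z ^ (-c).val)]
    refine Finset.sum_congr rfl fun i _ => ?_
    rw [inv_zpow', zpow_val hz (-b i), Int.cast_neg]
  rw [h1]
  refine (Equiv.sum_comp (Equiv.neg (ZMod 17)) _).symm.trans ?_
  refine Finset.sum_congr rfl fun c _ => ?_
  rw [Equiv.neg_apply, neg_neg]

private theorem geom {z : ℂ} (hz : z ^ 17 = 1) (h1 : z ≠ 1) : ∑ k ∈ range 17, z ^ k = 0 := by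
  have h2 := geom_sum_mul z 17
  rw [hz, sub_self] at h2
  rcases mul_eq_zero.1 h2 with h | h
  · exact h
  · exact absurd (sub_eq_zero.1 h) h1

private theorem sum_val (z : ℂ) : ∑ c : ZMod 17, z ^ c.val = ∑ k ∈ range 17, z ^ k :=
  Fin.sum_univ_eq_sum_range (fun k => z ^ k) 17

private theorem EE_anti {b : Fin 17 → ℤ} (hB : ∀ c : ZMod 17, e17 b c + e17 b (-c) = 2) {z : ℂ}
    (hz : z ^ 17 = 1) (h1 : z ≠ 1) : EE b z⁻¹ = - EE b z := by
  rw [eq_neg_iff_add_eq_zero, EE_eq b hz, EE_inv_eq b hz, ← Finset.sum_add_distrib]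
  have h2 : ∀ c : ZMod 17, (e17 b (-c) : ℂ) * z ^ c.val + (e17 b c : ℂ) * z ^ c.val = 2 * z ^ c.val := by
    intro c
    have h3 : (e17 b (-c) : ℂ) + (e17 b c : ℂ) = 2 := by
      have := hB c
      rw [add_comm] at this
      exact_mod_cast this
    rw [← add_mul, h3]
  rw [Finset.sum_congr rfl fun c _ => h2 c, ← Finset.mul_sum, sum_val, geom hz h1, mul_zero]

private theorem unit_pow {u : ℂ} (hu : u ^ 4 = 1) {n : ℤ} (hn : n % 4 = 1) : u ^ n = u := by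
  have hu0 : u ≠ 0 := by
    rintro rfl
    norm_num at hu
  conv_lhs => rw [← Int.emod_add_mul_ediv n 4]
  rw [zpow_add₀ hu0, zpow_mul]
  have h2 : u ^ (4 : ℤ) = 1 := by exact_mod_cast hu
  rw [h2, one_zpow, mul_one, hn, zpow_one]

private theorem tau_mul {b : Fin 17 → ℤ} (hb : ∀ i, b i % 4 = 1) {u : ℂ} (hu : u ^ 4 = 1) (z : ℂ) :
    T7.tau b (u * z) = u * EE b z + u⁻¹ * EE b z⁻¹ := by
  unfold T7.tau EE
  rw [Finset.sum_add_distrib, Finset.mul_sum, Finset.mul_sum]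
  have hu' : u⁻¹ ^ 4 = 1 := by rw [inv_pow, hu, inv_one]
  congr 1
  · exact Finset.sum_congr rfl fun i _ => by rw [mul_zpow, unit_pow hu (hb i)]
  · exact Finset.sum_congr rfl fun i _ => by rw [mul_inv, mul_zpow, unit_pow hu' (hb i)]

/-- the relation between the power sums -/
private theorem cube_rel {b : Fin 17 → ℤ} (hS : S17 b)
    (hB : ∀ c : ZMod 17, e17 b c + e17 b (-c) = 2) {z : ℂ} (hz : z ^ 17 = 1) (h1 : z ≠ 1) :
    EE b (z ^ 3) = 2 * (-24 * EE b z - EE b z ^ 3) := by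
  have hI2 : Complex.I ^ 2 = -1 := Complex.I_sq
  have hI4 : Complex.I ^ 4 = 1 := Complex.I_pow_four
  have hz2 : (z ^ 2) ^ 17 = 1 := by rw [← pow_mul, mul_comm, pow_mul, hz, one_pow]
  have hz3 : (z ^ 3) ^ 17 = 1 := by rw [← pow_mul, mul_comm, pow_mul, hz, one_pow]
  have h2 : z ^ 2 ≠ 1 := by
    intro h
    apply h1
    calc z = z * (z ^ 2) ^ 8 := by rw [h, one_pow, mul_one]
      _ = z ^ 17 := by ring
      _ = 1 := hz
  have h3 : z ^ 3 ≠ 1 := by
    intro h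
    apply h1
    calc z = z * z ^ 17 := by rw [hz, mul_one]
      _ = (z ^ 3) ^ 6 := by ring
      _ = 1 := by rw [h, one_pow]
  have hω : (Complex.I * z) ^ 13192 = 1 := by
    rw [mul_pow, show 13192 = 4 * 3298 by norm_num, pow_mul Complex.I, hI4, one_pow, one_mul,
      show 4 * 3298 = 17 * 776 by norm_num, pow_mul, hz, one_pow]
  have hω2 : (Complex.I * z) ^ 2 = -1 * z ^ 2 := by rw [mul_pow, hI2]
  have hω3 : (Complex.I * z) ^ 3 = -Complex.I * z ^ 3 := by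
    rw [mul_pow, pow_succ, hI2]
    ring
  have hne : (Complex.I * z) ^ 2 ≠ 1 := by
    intro h
    rw [hω2] at h
    have h4 : (-1 * z ^ 2) ^ 17 = -1 := by
      rw [mul_pow, hz2]
      norm_num
    rw [h, one_pow] at h4
    norm_num at h4
  have e := hS.eq (Complex.I * z) hω hne
  rw [hω2, hω3, tau_mul hS.one hI4, tau_mul hS.one (by norm_num : (-1 : ℂ) ^ 4 = 1),
    tau_mul hS.one (show (-Complex.I) ^ 4 = 1 by rw [neg_pow, hI4]; norm_num), EE_anti hB hz h1,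
    EE_anti hB hz2 h2, EE_anti hB hz3 h3, Complex.inv_I] at e
  have hinv : (-Complex.I)⁻¹ = Complex.I := by
    rw [inv_neg, Complex.inv_I, neg_neg]
  have hinv1 : (-1 : ℂ)⁻¹ = -1 := by norm_num
  rw [hinv, hinv1] at e
  have hI : Complex.I ≠ 0 := Complex.I_ne_zero
  have e2 : Complex.I * (EE b (z ^ 3) - 2 * (-24 * EE b z - EE b z ^ 3)) = 0 := by
    have hI3 : Complex.I ^ 3 = -Complex.I := Complex.I_pow_three
    linear_combination (-1 / 4 : ℂ) * e + 2 * EE b z ^ 3 * hI3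
  rcases mul_eq_zero.1 e2 with h | h
  · exact absurd h hI
  · exact sub_eq_zero.1 h

private theorem EE_int (b : Fin 17 → ℤ) {z : ℂ} (hz : z ^ 17 = 1) : IsIntegral ℤ (EE b z) := by
  unfold EE
  refine IsIntegral.sum _ fun i _ => ?_
  refine IsIntegral.of_pow (n := 17) (by norm_num) ?_
  have h : (z ^ b i) ^ 17 = 1 := by
    rw [← zpow_natCast, ← zpow_mul, mul_comm, zpow_mul]
    have h2 : z ^ ((17 : ℕ) : ℤ) = 1 := by exact_mod_cast hz
    rw [h2, one_zpow]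
  rw [h]
  exact isIntegral_one

/-- all power sums are divisible by two -/
private theorem EE_half {b : Fin 17 → ℤ} (hS : S17 b)
    (hB : ∀ c : ZMod 17, e17 b c + e17 b (-c) = 2) {z : ℂ} (hz : z ^ 17 = 1) (h1 : z ≠ 1) :
    ∃ w : ℂ, IsIntegral ℤ w ∧ EE b z = 2 * w := by
  have hz6 : (z ^ 6) ^ 17 = 1 := by rw [← pow_mul, mul_comm, pow_mul, hz, one_pow]
  have h6 : z ^ 6 ≠ 1 := by
    intro h
    apply h1
    calc z = z * z ^ 17 := by rw [hz, mul_one]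
      _ = (z ^ 6) ^ 3 := by ring
      _ = 1 := by rw [h, one_pow]
  have h := cube_rel hS hB hz6 h6
  have h2 : (z ^ 6) ^ 3 = z := by
    calc (z ^ 6) ^ 3 = z * z ^ 17 := by ring
      _ = z := by rw [hz, mul_one]
  rw [h2] at h
  refine ⟨_, ?_, h⟩
  have h3 := EE_int b hz6
  have h4 : IsIntegral ℤ (-24 : ℂ) := by
    have := isIntegral_algebraMap (R := ℤ) (A := ℂ) (x := -24)
    simpa using this
  exact (h4.mul h3).sub (h3.pow 3)

private theorem fourier (b : Fin 17 → ℤ) {ζ : ℂ} (hζ : IsPrimitiveRoot ζ 17) (c : ZMod 17) :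
    ∑ k ∈ range 17, EE b (ζ ^ k) * ((ζ ^ k)⁻¹) ^ c.val = 17 * (e17 b c : ℂ) := by
  have hz : ζ ^ 17 = 1 := hζ.pow_eq_one
  have hz0 : ζ ≠ 0 := hζ.ne_zero (by norm_num)
  have h1 : ∀ k, EE b (ζ ^ k) * ((ζ ^ k)⁻¹) ^ c.val =
      ∑ c' : ZMod 17, (e17 b c' : ℂ) * (ζ ^ c'.val * ζ⁻¹ ^ c.val) ^ k := by
    intro k
    have hk : (ζ ^ k) ^ 17 = 1 := by rw [← pow_mul, mul_comm, pow_mul, hz, one_pow]
    rw [EE_eq b hk, Finset.sum_mul]
    refine Finset.sum_congr rfl fun c' _ => ?_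
    rw [mul_pow, ← pow_mul, ← pow_mul ζ c'.val k, ← inv_pow, ← pow_mul, ← pow_mul ζ⁻¹ c.val k, mul_comm k c'.val,
      mul_comm k c.val, mul_assoc]
  simp only [h1]
  rw [Finset.sum_comm]
  have h2 : ∀ c' : ZMod 17, ∑ k ∈ range 17, (e17 b c' : ℂ) * (ζ ^ c'.val * ζ⁻¹ ^ c.val) ^ k =
      if c' = c then 17 * (e17 b c : ℂ) else 0 := by
    intro c'
    rw [← Finset.mul_sum]
    split_ifs with h
    · subst h
      have : ζ ^ c'.val * ζ⁻¹ ^ c'.val = 1 := by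
        rw [← mul_pow, mul_inv_cancel₀ hz0, one_pow]
      rw [this]
      simp
      ring
    · rw [geom, mul_zero]
      · have h5 : (ζ ^ c'.val) ^ 17 = 1 := by rw [← pow_mul, mul_comm, pow_mul, hz, one_pow]
        have h6 : (ζ⁻¹ ^ c.val) ^ 17 = 1 := by
          rw [← pow_mul, mul_comm, pow_mul, inv_pow, hz, inv_one, one_pow]
        rw [mul_pow, h5, h6, one_mul]
      · intro h3
        apply h
        have h4 : ζ ^ c'.val = ζ ^ c.val := by
          rw [inv_pow] at h3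
          exact (mul_inv_eq_one₀ (pow_ne_zero _ hz0)).1 h3
        exact ZMod.val_injective 17 (hζ.pow_inj (ZMod.val_lt _) (ZMod.val_lt _) h4)
  simp only [h2]
  simp

private theorem odd_e {b : Fin 17 → ℤ} (hS : S17 b)
    (hB : ∀ c : ZMod 17, e17 b c + e17 b (-c) = 2) (c : ZMod 17) : Odd (e17 b c) := by
  obtain ⟨ζ, hζ⟩ : ∃ ζ : ℂ, IsPrimitiveRoot ζ 17 := ⟨_, Complex.isPrimitiveRoot_exp 17 (by norm_num)⟩
  have hz : ζ ^ 17 = 1 := hζ.pow_eq_one
  have hF := fourier b hζ c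
  rw [Finset.sum_range_succ'] at hF
  have h0 : EE b (ζ ^ 0) * ((ζ ^ 0)⁻¹) ^ c.val = 17 := by
    unfold EE
    simp
  rw [h0] at hF
  have hint : ∀ k ∈ range 16, ∃ w : ℂ, IsIntegral ℤ w ∧
      EE b (ζ ^ (k + 1)) * ((ζ ^ (k + 1))⁻¹) ^ c.val = 2 * w := by
    intro k hk
    have hk' := mem_range.1 hk
    have hk1 : (ζ ^ (k + 1)) ^ 17 = 1 := by rw [← pow_mul, mul_comm, pow_mul, hz, one_pow]
    have hk2 : ζ ^ (k + 1) ≠ 1 := hζ.pow_ne_one_of_pos_of_lt (by omega) (by omega)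
    obtain ⟨w, hw, hw2⟩ := EE_half hS hB hk1 hk2
    refine ⟨w * ((ζ ^ (k + 1))⁻¹) ^ c.val, ?_, by rw [hw2]; ring⟩
    refine hw.mul (IsIntegral.pow ?_ _)
    refine IsIntegral.of_pow (n := 17) (by norm_num) ?_
    rw [inv_pow, hk1, inv_one]
    exact isIntegral_one
  choose! w hw1 hw2 using hint
  have hsum : ∑ k ∈ range 16, EE b (ζ ^ (k + 1)) * ((ζ ^ (k + 1))⁻¹) ^ c.val = 2 * ∑ k ∈ range 16, w k := by
    rw [Finset.mul_sum]
    exact Finset.sum_congr rfl hw2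
  rw [hsum] at hF
  have hWint : IsIntegral ℤ (∑ k ∈ range 16, w k) := IsIntegral.sum _ hw1
  have hWq : (∑ k ∈ range 16, w k) = algebraMap ℚ ℂ (17 * ((e17 b c : ℚ) - 1) / 2) := by
    have : (algebraMap ℚ ℂ) (17 * ((e17 b c : ℚ) - 1) / 2) = (17 * ((e17 b c : ℂ) - 1) / 2) := by
      simp
    rw [this]
    linear_combination (1 / 2 : ℂ) * hF
  rw [hWq, isIntegral_algebraMap_iff (algebraMap ℚ ℂ).injective, IsIntegrallyClosed.isIntegral_iff] at hWint
  obtain ⟨y, hy⟩ := hWint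
  have hy2 : (y : ℚ) = 17 * ((e17 b c : ℚ) - 1) / 2 := hy
  have hy3 : 2 * y = 17 * ((e17 b c : ℤ) - 1) := by
    have : (2 * y : ℚ) = 17 * ((e17 b c : ℚ) - 1) := by rw [hy2]; ring
    exact_mod_cast this
  rw [Nat.odd_iff]
  omega

theorem c17 (b : Fin 17 → ℤ) (hS : S17 b)
    (hB : ∀ c : ZMod 17, e17 b c + e17 b (-c) = 2) (c : ZMod 17) : e17 b c = 1 := by
  have h1 := odd_e hS hB c
  have h2 := odd_e hS hB (-c)
  have h3 := hB c
  rw [Nat.odd_iff] at h1 h2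
  omega

end TightIndep.NO
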