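import Pool.Agent.Lib.MP_f31b39_co.NO.S17

/-!
# NO-D17: `m = 17`, the contradiction at order `8 * 17`
-/

namespace TightIndep.NO

open Finset

private theorem d17_pw4 (u : ℂ) (hu : u ^ 4 = 1) (n : ℤ) (hn : n % 4 = 1) : u ^ n = u := by
  have hu0 : u ≠ 0 := by
    rintro rfl
    norm_num at hu
  obtain ⟨k, hk⟩ : ∃ k : ℤ, n = 4 * k + 1 := ⟨n / 4, by omega⟩
  have h4 : u ^ (4 : ℤ) = 1 := by exact_mod_cast hu
  rw [hk, zpow_add₀ hu0, zpow_mul, h4, one_zpow, one_mul, zpow_one]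

private theorem d17_pw8 (w : ℂ) (hw : w ^ 4 = -1) (n : ℤ) (hn : n % 4 = 1) :
    w ^ n = (if n % 8 = 5 then -1 else 1) * w := by
  have hw0 : w ≠ 0 := by
    rintro rfl
    norm_num at hw
  have h8 : w ^ (8 : ℤ) = 1 := by
    have : w ^ 8 = 1 := by
      calc w ^ 8 = (w ^ 4) ^ 2 := by ring
        _ = 1 := by rw [hw]; norm_num
    exact_mod_cast this
  split_ifs with h
  · obtain ⟨k, hk⟩ : ∃ k : ℤ, n = 8 * k + 5 := ⟨n / 8, by omega⟩
    have h5 : w ^ (5 : ℤ) = -1 * w := by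
      have : w ^ 5 = -1 * w := by
        calc w ^ 5 = w ^ 4 * w := by ring
          _ = -1 * w := by rw [hw]
      exact_mod_cast this
    rw [hk, zpow_add₀ hw0, zpow_mul, h8, one_zpow, one_mul, h5]
  · obtain ⟨k, hk⟩ : ∃ k : ℤ, n = 8 * k + 1 := ⟨n / 8, by omega⟩
    rw [hk, zpow_add₀ hw0, zpow_mul, h8, one_zpow, one_mul, zpow_one, one_mul]

/-- the signed sum -/
private noncomputable def dd (b : Fin 17 → ℤ) (z : ℂ) : ℂ := ∑ i, (if b i % 8 = 5 then (-1 : ℂ) else 1) * z ^ b i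

/-- the sum over the second kind -/
private noncomputable def qq (b : Fin 17 → ℤ) (z : ℂ) : ℂ := ∑ i, if b i % 8 = 5 then z ^ b i else 0

/-- the full sum -/
private noncomputable def pp (b : Fin 17 → ℤ) (z : ℂ) : ℂ := ∑ i, z ^ b i

private theorem dd_eq (b : Fin 17 → ℤ) (z : ℂ) : dd b z = pp b z - 2 * qq b z := by
  unfold dd pp qq
  rw [Finset.mul_sum, ← Finset.sum_sub_distrib]
  refine Finset.sum_congr rfl fun i _ => ?_
  split_ifs <;> ring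

private theorem tau_one (b : Fin 17 → ℤ) (h1 : ∀ i, b i % 4 = 1) (w z : ℂ) (hw : w ^ 4 = -1) :
    T7.tau b (w * z) = w * dd b z + w⁻¹ * dd b z⁻¹ := by
  have hw' : w⁻¹ ^ 4 = -1 := by
    rw [inv_pow, hw]
    norm_num
  unfold T7.tau dd
  rw [Finset.mul_sum, Finset.mul_sum, ← Finset.sum_add_distrib]
  refine Finset.sum_congr rfl fun i _ => ?_
  rw [mul_inv, mul_zpow, mul_zpow, d17_pw8 w hw _ (h1 i), d17_pw8 w⁻¹ hw' _ (h1 i)]
  ring

private theorem tau_two (b : Fin 17 → ℤ) (h1 : ∀ i, b i % 4 = 1) (w z : ℂ) (hw : w ^ 4 = -1) :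
    T7.tau b ((w * z) ^ 2) = w ^ 2 * pp b (z ^ 2) + (w ^ 2)⁻¹ * pp b (z ^ 2)⁻¹ := by
  have h4 : (w ^ 2) ^ 4 = 1 := by
    calc (w ^ 2) ^ 4 = (w ^ 4) ^ 2 := by ring
      _ = 1 := by rw [hw]; norm_num
  have h4' : (w ^ 2)⁻¹ ^ 4 = 1 := by
    rw [inv_pow, h4, inv_one]
  unfold T7.tau pp
  rw [Finset.mul_sum, Finset.mul_sum, ← Finset.sum_add_distrib]
  refine Finset.sum_congr rfl fun i _ => ?_
  rw [mul_pow, mul_inv, mul_zpow, mul_zpow, d17_pw4 _ h4 _ (h1 i), d17_pw4 _ h4' _ (h1 i)]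

private theorem inj17 (b : Fin 17 → ℤ) (hC : ∀ c : ZMod 17, e17 b c = 1) :
    Function.Bijective (fun i => ((b i : ℤ) : ZMod 17)) := by
  have hinj : Function.Injective (fun i => ((b i : ℤ) : ZMod 17)) := by
    intro i j hij
    have h := hC ((b i : ℤ) : ZMod 17)
    unfold e17 at h
    rw [Finset.card_eq_one] at h
    obtain ⟨a, ha⟩ := h
    have hi : i ∈ ({a} : Finset (Fin 17)) := by
      rw [← ha, Finset.mem_filter]
      exact ⟨Finset.mem_univ _, rfl⟩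
    have hj : j ∈ ({a} : Finset (Fin 17)) := by
      rw [← ha, Finset.mem_filter]
      exact ⟨Finset.mem_univ _, hij.symm⟩
    rw [Finset.mem_singleton] at hi hj
    rw [hi, hj]
  rw [Fintype.bijective_iff_injective_and_card]
  exact ⟨hinj, by rw [ZMod.card, Fintype.card_fin]⟩

private theorem pp_zero (b : Fin 17 → ℤ) (hC : ∀ c : ZMod 17, e17 b c = 1) (z : ℂ) (hz : z ^ 17 = 1) (hz1 : z ≠ 1) :
    pp b z = 0 := by
  have hz0 : z ≠ 0 := by
    rintro rfl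
    norm_num at hz
  have h1 : ∀ i, z ^ b i = z ^ ((b i : ℤ) : ZMod 17).val := by
    intro i
    have hd : ((b i - (((b i : ℤ) : ZMod 17).val : ℤ) : ℤ) : ZMod 17) = 0 := by
      push_cast
      rw [ZMod.natCast_zmod_val, sub_self]
    rw [ZMod.intCast_zmod_eq_zero_iff_dvd] at hd
    obtain ⟨k, hk⟩ := hd
    have h2 : b i = (17 : ℕ) * k + (((b i : ℤ) : ZMod 17).val : ℤ) := by
      have : (((17 : ℕ) : ℤ)) * k = b i - (((b i : ℤ) : ZMod 17).val : ℤ) := hk.symm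
      omega
    conv_lhs => rw [h2]
    rw [zpow_add₀ hz0, zpow_mul, zpow_natCast, hz, one_zpow, one_mul, zpow_natCast]
  unfold pp
  rw [Finset.sum_congr rfl fun i _ => h1 i]
  have h2 : ∑ i, z ^ ((b i : ℤ) : ZMod 17).val = ∑ c : ZMod 17, z ^ c.val :=
    (inj17 b hC).sum_comp (fun c : ZMod 17 => z ^ c.val)
  rw [h2]
  have h3 : ∑ c : ZMod 17, z ^ c.val = ∑ k ∈ Finset.range 17, z ^ k := by
    rw [Finset.sum_range]
    rfl
  rw [h3]
  have h4 := mul_neg_geom_sum z 17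
  rw [hz, sub_self] at h4
  exact (mul_eq_zero.1 h4).resolve_left (sub_ne_zero.2 (Ne.symm hz1))

private theorem w_ne {w : ℂ} (hw : w ^ 4 = -1) : w ≠ 0 := by
  rintro rfl
  norm_num at hw

private theorem w_inv {w : ℂ} (hw : w ^ 4 = -1) : w⁻¹ = -w ^ 3 := by
  apply inv_eq_of_mul_eq_one_right
  linear_combination -hw

/-- the first equation -/
private theorem eq_one (b : Fin 17 → ℤ) (hS : S17 b) (hC : ∀ c : ZMod 17, e17 b c = 1) (w z : ℂ) (hw : w ^ 4 = -1)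
    (hz : z ^ 17 = 1) (hz1 : z ≠ 1) :
    (3 * dd b z ^ 2 * dd b z⁻¹ - dd b z⁻¹ ^ 3 - 2 * dd b (z ^ 3)⁻¹ - 96 * dd b z) * w +
      (dd b z ^ 3 - 3 * dd b z * dd b z⁻¹ ^ 2 + 2 * dd b (z ^ 3) + 96 * dd b z⁻¹) * w ^ 3 = 0 := by
  have hw0 := w_ne hw
  have hw8 : w ^ 8 = 1 := by
    calc w ^ 8 = (w ^ 4) ^ 2 := by ring
      _ = 1 := by rw [hw]; norm_num
  have hz0 : z ≠ 0 := by
    rintro rfl
    norm_num at hz
  have hw3 : (w ^ 3) ^ 4 = -1 := by
    calc (w ^ 3) ^ 4 = (w ^ 4) ^ 3 := by ring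
      _ = -1 := by rw [hw]; norm_num
  have hω : (w * z) ^ 13192 = 1 := by
    calc (w * z) ^ 13192 = (w ^ 8) ^ 1649 * (z ^ 17) ^ 776 := by
          rw [mul_pow, ← pow_mul, ← pow_mul]
      _ = 1 := by rw [hw8, hz, one_pow, one_pow, mul_one]
  have hω2 : (w * z) ^ 2 ≠ 1 := by
    intro h
    have h1 : w ^ 2 = 1 := by
      calc w ^ 2 = (w ^ 8) ^ 4 * w ^ 2 * (z ^ 17) ^ 2 := by rw [hw8, hz]; ring
        _ = ((w * z) ^ 2) ^ 17 := by ring
        _ = 1 := by rw [h, one_pow]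
    have h2 : w ^ 4 = 1 := by
      calc w ^ 4 = (w ^ 2) ^ 2 := by ring
        _ = 1 := by rw [h1]; norm_num
    rw [hw] at h2
    norm_num at h2
  have hz2 : (z ^ 2) ^ 17 = 1 := by
    calc (z ^ 2) ^ 17 = (z ^ 17) ^ 2 := by ring
      _ = 1 := by rw [hz]; norm_num
  have hz21 : z ^ 2 ≠ 1 := by
    intro h
    apply hz1
    calc z = z ^ 17 * z := by rw [hz, one_mul]
      _ = (z ^ 2) ^ 9 := by ring
      _ = 1 := by rw [h, one_pow]
  have hE := hS.eq (w * z) hω hω2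
  have t1 := tau_one b hS.one w z hw
  have t2 := tau_two b hS.one w z hw
  have t3 := tau_one b hS.one (w ^ 3) (z ^ 3) hw3
  have p1 := pp_zero b hC (z ^ 2) hz2 hz21
  have p2 := pp_zero b hC (z ^ 2)⁻¹ (by rw [inv_pow, hz2, inv_one]) (by
    intro h
    exact hz21 (inv_eq_one.1 h))
  rw [p1, p2, mul_zero, mul_zero, add_zero] at t2
  rw [← mul_pow] at t3
  rw [t2, t3, t1, w_inv hw, w_inv hw3] at hE
  linear_combination hE + (-(3 * dd b z ^ 2 * dd b z⁻¹ * w - 3 * dd b z * dd b z⁻¹ ^ 2 * w ^ 3 +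
    dd b z⁻¹ ^ 3 * (w ^ 5 - w)) * (-1) + 2 * dd b (z ^ 3)⁻¹ * (w ^ 5 - w)) * hw

private theorem qq_int (b : Fin 17 → ℤ) (z : ℂ) (hz : z ^ 17 = 1) : IsIntegral ℤ (qq b z) := by
  unfold qq
  refine IsIntegral.sum _ fun i _ => ?_
  split_ifs
  · refine IsIntegral.of_pow (n := 17) (by norm_num) ?_
    have : (z ^ b i) ^ 17 = 1 := by
      rw [← zpow_natCast, ← zpow_mul, mul_comm, zpow_mul, zpow_natCast, hz, one_zpow]
    rw [this]
    exact isIntegral_one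
  · exact isIntegral_zero

private theorem pow_ne_one {z : ℂ} (hz : z ^ 17 = 1) (hz1 : z ≠ 1) : z ^ 3 ≠ 1 ∧ z ^ 11 ≠ 1 := by
  constructor
  · intro h
    apply hz1
    calc z = (z ^ 17) * z := by rw [hz, one_mul]
      _ = (z ^ 3) ^ 6 := by ring
      _ = 1 := by rw [h, one_pow]
  · intro h
    apply hz1
    calc z = (z ^ 17) ^ 9 * z := by rw [hz, one_pow, one_mul]
      _ = (z ^ 11) ^ 14 := by ring
      _ = 1 := by rw [h, one_pow]

/-- the recursion -/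
private theorem qq_rec (b : Fin 17 → ℤ) (hS : S17 b) (hC : ∀ c : ZMod 17, e17 b c = 1) (w z : ℂ) (hw : w ^ 4 = -1)
    (hz : z ^ 17 = 1) (hz1 : z ≠ 1) :
    qq b (z ^ 3)⁻¹ = 2 * (3 * qq b z ^ 2 * qq b z⁻¹ - qq b z⁻¹ ^ 3 - 24 * qq b z) := by
  have hw0 := w_ne hw
  have hw3 : (w ^ 3) ^ 4 = -1 := by
    calc (w ^ 3) ^ 4 = (w ^ 4) ^ 3 := by ring
      _ = -1 := by rw [hw]; norm_num
  have e1 := eq_one b hS hC w z hw hz hz1
  have e2 := eq_one b hS hC (w ^ 3) z hw3 hz hz1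
  obtain ⟨A, hA⟩ : ∃ A, A = 3 * dd b z ^ 2 * dd b z⁻¹ - dd b z⁻¹ ^ 3 - 2 * dd b (z ^ 3)⁻¹ - 96 * dd b z := ⟨_, rfl⟩
  obtain ⟨B, hB⟩ : ∃ B, B = dd b z ^ 3 - 3 * dd b z * dd b z⁻¹ ^ 2 + 2 * dd b (z ^ 3) + 96 * dd b z⁻¹ := ⟨_, rfl⟩
  rw [← hA, ← hB] at e1 e2
  have hw9 : (w ^ 3) ^ 3 = w := by
    calc (w ^ 3) ^ 3 = (w ^ 4) ^ 2 * w := by ring
      _ = w := by rw [hw]; norm_num
  rw [hw9] at e2
  have hA0 : A = 0 := by
    have h1 : 2 * A * w ^ 3 = 0 := by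
      linear_combination w ^ 2 * e1 + e2 - B * w * hw
    have h2 : (2 : ℂ) * w ^ 3 ≠ 0 := mul_ne_zero two_ne_zero (pow_ne_zero 3 hw0)
    have h3 : A * (2 * w ^ 3) = 0 := by linear_combination h1
    exact (mul_eq_zero.1 h3).resolve_right h2
  have hzi : z⁻¹ ^ 17 = 1 := by rw [inv_pow, hz, inv_one]
  have hzi1 : z⁻¹ ≠ 1 := fun h => hz1 (inv_eq_one.1 h)
  have hz3 : (z ^ 3)⁻¹ ^ 17 = 1 := by
    rw [inv_pow, ← pow_mul, mul_comm, pow_mul, hz, one_pow, inv_one]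
  have hz31 : (z ^ 3)⁻¹ ≠ 1 := fun h => (pow_ne_one hz hz1).1 (inv_eq_one.1 h)
  rw [dd_eq b z, dd_eq b z⁻¹, dd_eq b (z ^ 3)⁻¹, pp_zero b hC z hz hz1, pp_zero b hC z⁻¹ hzi hzi1,
    pp_zero b hC (z ^ 3)⁻¹ hz3 hz31] at hA
  rw [hA0] at hA
  linear_combination (-1 / 4 : ℂ) * hA

private theorem qq_half (b : Fin 17 → ℤ) (hS : S17 b) (hC : ∀ c : ZMod 17, e17 b c = 1) (w y : ℂ) (hw : w ^ 4 = -1)
    (hy : y ^ 17 = 1) (hy1 : y ≠ 1) : ∃ r : ℂ, IsIntegral ℤ r ∧ qq b y = 2 * r := by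
  have hz : (y ^ 11) ^ 17 = 1 := by
    rw [← pow_mul, mul_comm, pow_mul, hy, one_pow]
  have hz1 : y ^ 11 ≠ 1 := (pow_ne_one hy hy1).2
  have h := qq_rec b hS hC w (y ^ 11) hw hz hz1
  have e : ((y ^ 11) ^ 3)⁻¹ = y := by
    apply inv_eq_of_mul_eq_one_right
    calc (y ^ 11) ^ 3 * y = (y ^ 17) ^ 2 := by ring
      _ = 1 := by rw [hy, one_pow]
  rw [e] at h
  have i1 := qq_int b (y ^ 11) hz
  have i2 := qq_int b (y ^ 11)⁻¹ (by rw [inv_pow, hz, inv_one])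
  have c3 : IsIntegral ℤ (3 : ℂ) := by exact_mod_cast isIntegral_algebraMap (R := ℤ) (A := ℂ) (x := 3)
  have c24 : IsIntegral ℤ (24 : ℂ) := by exact_mod_cast isIntegral_algebraMap (R := ℤ) (A := ℂ) (x := 24)
  exact ⟨_, (((c3.mul (i1.pow 2)).mul i2).sub (i2.pow 3)).sub (c24.mul i1), h⟩

private theorem even_of_int (m : ℤ) (R : ℂ) (hR : IsIntegral ℤ R) (h : (m : ℂ) = 2 * R) : (2 : ℤ) ∣ m := by
  have h1 : R = algebraMap ℚ ℂ ((m : ℚ) / 2) := by
    have : R = (m : ℂ) / 2 := by rw [h]; ring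
    rw [this]
    simp
  rw [h1, isIntegral_algebraMap_iff (algebraMap ℚ ℂ).injective] at hR
  obtain ⟨y, hy⟩ := IsIntegrallyClosed.isIntegral_iff.1 hR
  refine ⟨y, ?_⟩
  have h2 : (m : ℚ) = 2 * (y : ℚ) := by
    have h3 : ((y : ℤ) : ℚ) = (m : ℚ) / 2 := hy
    rw [h3]
    ring
  exact_mod_cast h2

/-- Fourier inversion: all the signs agree -/
private theorem all_same (b : Fin 17 → ℤ) (hS : S17 b) (hC : ∀ c : ZMod 17, e17 b c = 1) (w ζ : ℂ) (hw : w ^ 4 = -1)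
    (hζ : IsPrimitiveRoot ζ 17) (i0 : Fin 17) :
    (2 : ℤ) ∣ 17 * (if b i0 % 8 = 5 then 1 else 0) - ∑ i, (if b i % 8 = 5 then 1 else 0) := by
  have hz : ζ ^ 17 = 1 := hζ.pow_eq_one
  have hz0 : ζ ≠ 0 := hζ.ne_zero (by norm_num)
  have hj17 : ∀ j : ℕ, (ζ ^ j) ^ 17 = 1 := fun j => by rw [← pow_mul, mul_comm, pow_mul, hz, one_pow]
  have hj1 : ∀ j : ℕ, 0 < j → j < 17 → ζ ^ j ≠ 1 := fun j h1 h2 => hζ.pow_ne_one_of_pos_of_lt (by omega) h2
  have hpow : ∀ (j : ℕ) (i : Fin 17), (ζ ^ j) ^ b i * (ζ ^ j) ^ (-b i0) = (ζ ^ (b i - b i0)) ^ j := by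
    intro j i
    rw [← zpow_natCast ζ j, ← zpow_mul, ← zpow_mul, ← zpow_add₀ hz0, ← zpow_natCast, ← zpow_mul]
    congr 1
    ring
  have hinner : ∀ i : Fin 17, ∑ j ∈ Finset.range 17, (ζ ^ (b i - b i0)) ^ j = if i = i0 then 17 else 0 := by
    intro i
    split_ifs with h
    · subst h
      simp
    · have hne : ζ ^ (b i - b i0) ≠ 1 := by
        intro h1
        rw [hζ.zpow_eq_one_iff_dvd] at h1
        apply h
        apply (inj17 b hC).1
        show ((b i : ℤ) : ZMod 17) = ((b i0 : ℤ) : ZMod 17)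
        rw [← sub_eq_zero, ← Int.cast_sub, ZMod.intCast_zmod_eq_zero_iff_dvd]
        exact_mod_cast h1
      have h4 := mul_neg_geom_sum (ζ ^ (b i - b i0)) 17
      have h5 : (ζ ^ (b i - b i0)) ^ 17 = 1 := by
        rw [← zpow_natCast, ← zpow_mul, mul_comm, zpow_mul, zpow_natCast, hz, one_zpow]
      rw [h5, sub_self] at h4
      exact (mul_eq_zero.1 h4).resolve_left (sub_ne_zero.2 (Ne.symm hne))
  have hF : ∑ j ∈ Finset.range 17, qq b (ζ ^ j) * (ζ ^ j) ^ (-b i0) = 17 * (if b i0 % 8 = 5 then 1 else 0) := by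
    have h1 : ∀ j ∈ Finset.range 17, qq b (ζ ^ j) * (ζ ^ j) ^ (-b i0) =
        ∑ i, (if b i % 8 = 5 then 1 else 0) * (ζ ^ (b i - b i0)) ^ j := by
      intro j _
      unfold qq
      rw [Finset.sum_mul]
      refine Finset.sum_congr rfl fun i _ => ?_
      rw [← hpow j i]
      split_ifs <;> ring
    rw [Finset.sum_congr rfl h1, Finset.sum_comm]
    have h2 : ∀ i ∈ (Finset.univ : Finset (Fin 17)), ∑ j ∈ Finset.range 17,
        (if b i % 8 = 5 then (1 : ℂ) else 0) * (ζ ^ (b i - b i0)) ^ j =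
        if i = i0 then 17 * (if b i0 % 8 = 5 then 1 else 0) else 0 := by
      intro i _
      rw [← Finset.mul_sum, hinner i]
      by_cases h : i = i0
      · subst h
        rw [if_pos rfl, if_pos rfl, mul_comm]
      · rw [if_neg h, if_neg h, mul_zero]
    rw [Finset.sum_congr rfl h2, Finset.sum_ite_eq' Finset.univ i0]
    simp
  have hhalf : ∀ j ∈ Finset.range 16, ∃ r : ℂ, IsIntegral ℤ r ∧
      qq b (ζ ^ (j + 1)) * (ζ ^ (j + 1)) ^ (-b i0) = 2 * r := by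
    intro j hj
    rw [Finset.mem_range] at hj
    obtain ⟨r, hr, he⟩ := qq_half b hS hC w (ζ ^ (j + 1)) hw (hj17 _) (hj1 _ (by omega) (by omega))
    refine ⟨r * (ζ ^ (j + 1)) ^ (-b i0), hr.mul ?_, by rw [he]; ring⟩
    refine IsIntegral.of_pow (n := 17) (by norm_num) ?_
    have : ((ζ ^ (j + 1)) ^ (-b i0)) ^ 17 = 1 := by
      rw [← zpow_natCast, ← zpow_mul, mul_comm, zpow_mul, zpow_natCast, hj17, one_zpow]
    rw [this]
    exact isIntegral_one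
  have hex : ∃ R : ℂ, IsIntegral ℤ R ∧
      ∑ j ∈ Finset.range 16, qq b (ζ ^ (j + 1)) * (ζ ^ (j + 1)) ^ (-b i0) = 2 * R := by
    choose! r hr1 hr2 using hhalf
    refine ⟨∑ j ∈ Finset.range 16, r j, IsIntegral.sum _ hr1, ?_⟩
    rw [Finset.sum_congr rfl hr2, Finset.mul_sum]
  obtain ⟨R, hR, hRe⟩ := hex
  refine even_of_int _ R hR ?_
  rw [Finset.sum_range_succ', hRe] at hF
  have h0 : qq b (ζ ^ 0) * (ζ ^ 0) ^ (-b i0) = ∑ i, (if b i % 8 = 5 then 1 else 0) := by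
    rw [pow_zero, one_zpow, mul_one]
    unfold qq
    simp only [one_zpow]
  rw [h0] at hF
  push_cast
  linear_combination -hF

theorem d17 (b : Fin 17 → ℤ) (hS : S17 b) (hC : ∀ c : ZMod 17, e17 b c = 1) : False := by
  obtain ⟨w, hw⟩ : ∃ w : ℂ, w ^ 4 = -1 := IsAlgClosed.exists_pow_nat_eq (-1 : ℂ) (by norm_num)
  have hζ := Complex.isPrimitiveRoot_exp 17 (by norm_num)
  have hall := all_same b hS hC w _ hw hζ
  have hs : ∃ s : ℂ, s ^ 2 = 1 ∧ dd b 1 = 17 * s := by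
    by_cases h : b 0 % 8 = 5
    · refine ⟨-1, by norm_num, ?_⟩
      have h1 : ∀ i, b i % 8 = 5 := by
        intro i
        by_contra hi
        have k1 := hall 0
        have k2 := hall i
        rw [if_pos h] at k1
        rw [if_neg hi] at k2
        omega
      unfold dd
      rw [Finset.sum_congr rfl fun i _ => by rw [if_pos (h1 i), one_zpow]]
      simp
    · refine ⟨1, by norm_num, ?_⟩
      have h1 : ∀ i, ¬ b i % 8 = 5 := by
        intro i hi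
        have k1 := hall 0
        have k2 := hall i
        rw [if_neg h] at k1
        rw [if_pos hi] at k2
        omega
      unfold dd
      rw [Finset.sum_congr rfl fun i _ => by rw [if_neg (h1 i), one_zpow]]
      simp
  obtain ⟨s, hs2, hs1⟩ := hs
  have hp1 : pp b 1 = 17 := by
    unfold pp
    simp
  have hw0 := w_ne hw
  have hw8 : w ^ 8 = 1 := by
    calc w ^ 8 = (w ^ 4) ^ 2 := by ring
      _ = 1 := by rw [hw]; norm_num
  have hw3 : (w ^ 3) ^ 4 = -1 := by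
    calc (w ^ 3) ^ 4 = (w ^ 4) ^ 3 := by ring
      _ = -1 := by rw [hw]; norm_num
  have hω : w ^ 13192 = 1 := by
    calc w ^ 13192 = (w ^ 8) ^ 1649 := by rw [← pow_mul]
      _ = 1 := by rw [hw8, one_pow]
  have hω2 : w ^ 2 ≠ 1 := by
    intro h
    have h2 : w ^ 4 = 1 := by
      calc w ^ 4 = (w ^ 2) ^ 2 := by ring
        _ = 1 := by rw [h]; norm_num
    rw [hw] at h2
    norm_num at h2
  have hE := hS.eq w hω hω2
  have t1 := tau_one b hS.one w 1 hw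
  have t2 := tau_two b hS.one w 1 hw
  have t3 := tau_one b hS.one (w ^ 3) 1 hw3
  rw [mul_one, inv_one, hs1, w_inv hw] at t1
  rw [mul_one, one_pow, inv_one, hp1] at t2
  rw [mul_one, inv_one, hs1, w_inv hw3] at t3
  have hi2 : (w ^ 2)⁻¹ = -w ^ 2 := by
    apply inv_eq_of_mul_eq_one_right
    linear_combination -hw
  rw [hi2] at t2
  have t2' : T7.tau b (w ^ 2) = 0 := by rw [t2]; ring
  obtain ⟨x, hx⟩ : ∃ x, x = T7.tau b w := ⟨_, rfl⟩
  rw [t2', t3, ← hx] at hE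
  rw [← hx] at t1
  have hx2 : x ^ 2 = 578 := by
    rw [t1]
    linear_combination (289 * (w - w ^ 3) ^ 2) * hs2 + (289 * (w ^ 2 - 2)) * hw
  have hx3 : x * (x ^ 2 - 98) = 0 := by
    have e9 : (w ^ 3) ^ 3 = w := by
      calc (w ^ 3) ^ 3 = (w ^ 4) ^ 2 * w := by ring
        _ = w := by rw [hw]; norm_num
    rw [e9] at hE
    linear_combination hE - 2 * t1
  rw [hx2] at hx3
  have hx0 : x = 0 := by
    rcases mul_eq_zero.1 hx3 with h | h
    · exact h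
    · norm_num at h
  rw [hx0] at hx2
  norm_num at hx2

end TightIndep.NO
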