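import Pool.Agent.Lib.MP_f31b39_co.NO.Defs

/-!
# NO-Max: the maximum of the character sums

PROOF.  Let `j` maximize `|x j|` on the finite set `{j | 2j ≠ 0}` (if it is empty nothing is to prove).
If `4j = 0` then `x j = 0` and all `|x j'| ≤ 0 ≤ M`.  Else `2 (2j) ≠ 0` and `2 (3j) ≠ 0` (`3` is a unit), so
`|x (2j)|, |x (3j)| ≤ |x j| =: y` and `y^3 ≤ 3 y^2 + 2 y + b y`; so `y = 0` or `y^2 ≤ 3 y + 2 + b ≤ M^2 - 3 M + 3 y`;
since `M > 3` (`hM`), `y > M` is impossible.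
-/

namespace TightIndep.NO

open Finset

theorem maxb {n : ℕ} [NeZero n] (hn3 : Nat.Coprime 3 n) (x : ZMod n → ℝ) (b M : ℝ) (hb : 0 ≤ b)
    (heq : ∀ j : ZMod n, 2 * j ≠ 0 →
      x j ^ 3 + 3 * x j * x (2 * j) + 2 * x (3 * j) = b * x j)
    (h4 : ∀ j : ZMod n, 2 * j ≠ 0 → 4 * j = 0 → x j = 0)
    (hM0 : 0 ≤ M) (hM : 3 * M + 2 + b ≤ M ^ 2) : ∀ j : ZMod n, 2 * j ≠ 0 → |x j| ≤ M := by
  classical
  intro j0 hj0
  obtain ⟨j, hj, hmax⟩ := Finset.exists_max_image (Finset.univ.filter fun j : ZMod n => 2 * j ≠ 0) (fun j => |x j|)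
    ⟨j0, Finset.mem_filter.2 ⟨Finset.mem_univ _, hj0⟩⟩
  have hj2 : 2 * j ≠ 0 := (Finset.mem_filter.1 hj).2
  have hle : ∀ k : ZMod n, 2 * k ≠ 0 → |x k| ≤ |x j| := fun k hk =>
    hmax k (Finset.mem_filter.2 ⟨Finset.mem_univ _, hk⟩)
  refine (hle j0 hj0).trans ?_
  have hu : IsUnit ((3 : ℕ) : ZMod n) := (ZMod.isUnit_iff_coprime 3 n).2 hn3
  by_cases h4j : 4 * j = 0
  · rw [h4 j hj2 h4j, abs_zero]
    exact hM0
  · have h2 : |x (2 * j)| ≤ |x j| := hle _ (by
      intro h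
      apply h4j
      rw [← h]; ring)
    have h3 : |x (3 * j)| ≤ |x j| := hle _ (by
      intro h
      have e : (3 : ZMod n) * (2 * j) = 2 * (3 * j) := by ring
      rw [← e] at h
      have hu' : IsUnit (3 : ZMod n) := by exact_mod_cast hu
      exact hj2 ((hu'.mul_right_eq_zero).1 h))
    have h1 := heq j hj2
    obtain ⟨y, hy⟩ : ∃ y, y = |x j| := ⟨_, rfl⟩
    rw [← hy] at h2 h3 ⊢
    have hy0 : 0 ≤ y := by rw [hy]; exact abs_nonneg _
    have h5 : y ^ 3 ≤ 3 * y ^ 2 + 2 * y + b * y := by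
      have e1 : y ^ 3 = |x j ^ 3| := by rw [abs_pow, hy]
      have e2 : x j ^ 3 = b * x j - 3 * x j * x (2 * j) - 2 * x (3 * j) := by linarith
      rw [e1, e2]
      refine (abs_sub _ _).trans ?_
      have e3 : |b * x j - 3 * x j * x (2 * j)| ≤ b * y + 3 * y ^ 2 := by
        refine (abs_sub _ _).trans ?_
        rw [abs_mul, abs_mul, abs_mul, abs_of_nonneg hb, ← hy]
        have e4 : |(3 : ℝ)| = 3 := abs_of_pos (by norm_num)
        rw [e4]
        nlinarith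
      have e5 : |2 * x (3 * j)| ≤ 2 * y := by
        rw [abs_mul, abs_of_pos (by norm_num : (0 : ℝ) < 2)]
        linarith
      linarith
    by_contra hcon
    push Not at hcon
    have hypos : 0 < y := by linarith
    have h6 : y ^ 2 ≤ 3 * y + 2 + b := by
      have : y * y ^ 2 ≤ y * (3 * y + 2 + b) := by nlinarith
      exact le_of_mul_le_mul_left this hypos
    have hM3 : 3 < M := by
      by_contra h
      push Not at h
      nlinarith
    nlinarith

end TightIndep.NO
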