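import Pool.Agent.Lib.MP_f31b39_co.NO.A17
import Pool.Agent.Lib.MP_f31b39_co.NO.B17
import Pool.Agent.Lib.MP_f31b39_co.NO.C17
import Pool.Agent.Lib.MP_f31b39_co.NO.D17
import Pool.Agent.Lib.MP_f31b39_co.NO.Eqn7
import Pool.Agent.Lib.MP_f31b39_co.NO.Max
import Pool.Agent.Lib.MP_f31b39_co.T7.Main

/-!
# NO-F17: no tight 7-independent set with 17 elements
-/

namespace TightIndep.NO

open Finset

private theorem tau_std {n : ℕ} [NeZero n] {m : ℕ} (a : Fin (m + 1) → ZMod n) (j : ZMod n)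
    (b : Fin (m + 1) → ℤ) (hb : ∀ i, ((b i : ℤ) : ZMod n) = a i ∨ ((b i : ℤ) : ZMod n) = - a i) :
    T7.tau b (ZMod.stdAddChar j) = ∑ i, ZMod.stdAddChar (j * sg a (some i)) := by
  rw [Fintype.sum_prod_type]
  unfold T7.tau
  refine Finset.sum_congr rfl fun i _ => ?_
  rw [Fintype.sum_bool]
  have e : ∀ z : ℤ, (ZMod.stdAddChar j : ℂ) ^ z = ZMod.stdAddChar (j * (z : ZMod n)) := by
    intro z
    rw [← AddChar.map_zsmul_eq_zpow, zsmul_eq_mul, mul_comm]
  have e' : ∀ z : ℤ, (ZMod.stdAddChar j : ℂ)⁻¹ ^ z = ZMod.stdAddChar (j * -(z : ZMod n)) := by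
    intro z
    rw [inv_zpow', e, Int.cast_neg]
  rw [e, e']
  rcases hb i with h | h
  · rw [h]
    rfl
  · rw [h, neg_neg, add_comm]
    rfl

theorem p17 {n : ℕ} [NeZero n] (a : Fin (16 + 1) → ZMod n)
    (h : ∀ v ∈ rel a, v ≠ 0 → 8 ≤ nrm v) (hG : Fintype.card (ZMod n) = bound (16 + 1) 7) :
    False := by
  have hn : n = 13192 := by
    have h3n : 3 * n = 8 * 17 * (17 ^ 2 + 2) := by
      have := T7.three_bound 17 (by norm_num)
      rw [← this, ← ZMod.card n, hG]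
    omega
  have hodd := T7.odd_val a h hG
  obtain ⟨x, hx, heq, h4⟩ := x7 a h hG fun i => by exact_mod_cast hodd i
  have hmax := maxb (n := n) (by rw [hn]; decide) x (6 * (16 : ℕ) : ℝ) (58 / 5) (by norm_num) heq h4
    (by norm_num) (by norm_num)
  -- the representatives `≡ 1 (mod 4)`
  obtain ⟨b, hb1, hb2⟩ : ∃ b : Fin (16 + 1) → ℤ, (∀ i, b i % 4 = 1) ∧
      ∀ i, ((b i : ℤ) : ZMod n) = a i ∨ ((b i : ℤ) : ZMod n) = - a i := by
    refine ⟨fun i => if ((a i).val : ℤ) % 4 = 1 then ((a i).val : ℤ) else -((a i).val : ℤ), ?_, ?_⟩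
    · intro i
      have h1 := Int.odd_iff.1 (hodd i)
      dsimp only
      split_ifs with h2
      · exact h2
      · omega
    · intro i
      dsimp only
      split_ifs with h2
      · left
        simp
      · right
        simp
  have hroot : ∀ ω : ℂ, ω ^ 13192 = 1 → ω ^ 2 ≠ 1 → ∃ j : ZMod n, 2 * j ≠ 0 ∧
      ω = ZMod.stdAddChar j ∧ ω ^ 2 = ZMod.stdAddChar (2 * j) ∧
      ω ^ 3 = ZMod.stdAddChar (3 * j) := by
    intro ω h1 h2
    have hprim : IsPrimitiveRoot (ZMod.stdAddChar (1 : ZMod n) : ℂ) n := by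
      rw [ZMod.stdAddChar_apply]
      have := Complex.isPrimitiveRoot_exp n (NeZero.ne n)
      have h5 := ZMod.toCircle_intCast (N := n) 1
      rw [Int.cast_one] at h5
      rw [h5]
      convert this using 2
      push_cast
      ring
    obtain ⟨k, -, hk⟩ := hprim.eq_pow_of_pow_eq_one (by rw [hn]; exact h1)
    have e1 : ω = ZMod.stdAddChar (k : ZMod n) := by
      rw [← hk, ← AddChar.map_nsmul_eq_pow, nsmul_eq_mul, mul_one]
    have e2 : ω ^ 2 = ZMod.stdAddChar (2 * (k : ZMod n)) := by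
      rw [e1, ← AddChar.map_nsmul_eq_pow, nsmul_eq_mul, Nat.cast_ofNat]
    have e3 : ω ^ 3 = ZMod.stdAddChar (3 * (k : ZMod n)) := by
      rw [e1, ← AddChar.map_nsmul_eq_pow, nsmul_eq_mul, Nat.cast_ofNat]
    refine ⟨k, ?_, e1, e2, e3⟩
    intro h0
    apply h2
    rw [e2, h0, AddChar.map_zero_eq_one]
  have hS : S17 b := by
    refine ⟨hb1, ?_, ?_⟩
    · intro ω h1 h2
      obtain ⟨j, hj, e1, e2, e3⟩ := hroot ω h1 h2
      rw [e2, e3, e1, tau_std a _ b hb2, tau_std a _ b hb2, tau_std a _ b hb2, ← hx, ← hx, ← hx]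
      have h5 := heq j hj
      norm_num at h5
      exact_mod_cast h5
    · intro ω h1 h2
      obtain ⟨j, hj, e1, -, -⟩ := hroot ω h1 h2
      rw [e1, tau_std a _ b hb2, ← hx, Complex.norm_real, Real.norm_eq_abs]
      exact (hmax j hj).trans (by norm_num)
  exact d17 b hS (c17 b hS (b17 b hS (a17 b hS)))

end TightIndep.NO
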