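import Pool.Agent.Lib.MP_f31b39_co.NO.Fin
import Pool.Agent.Lib.MP_f31b39_co.NO.F17

/-!
# NO-All: tight 6- and 7-independent sets in cyclic groups
-/

namespace TightIndep.NO

open Finset

private theorem P6_res : ∀ j ∈ Icc 1 17, ¬ 19 ∣ 402 + 36 * (1 + 2 ^ j) + 2 * 3 ^ j := by
  decide +kernel

private theorem p6 {n : ℕ} [NeZero n] (a : Fin (5 + 1) → ZMod n)
    (h : ∀ v ∈ rel a, v ≠ 0 → 8 ≤ nrm v) (hG : Fintype.card (ZMod n) = bound (5 + 1) 7) :
    False := by
  have hb := T7.three_bound (5 + 1) (by norm_num)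
  have hn : n = 608 := by
    rw [← ZMod.card n, hG]
    omega
  have hpr : Fact (Nat.Prime 19) := ⟨by norm_num⟩
  refine pseven (p := 19) a h hG (hn ▸ ⟨32, by norm_num⟩) (by norm_num) (by norm_num)
    ⟨96, by norm_num⟩ ?_
  intro j hj hd
  refine P6_res j hj ?_
  rw [← Int.natCast_dvd_natCast]
  push_cast
  convert hd using 1
  norm_num
  ring

private theorem square_cases (s m : ℕ) (hs : 3 * m = s ^ 2 + 2) (h3 : 3 ≤ m) (hm : m < 35) :
    m = 6 ∨ m = 9 ∨ m = 17 ∨ m = 22 ∨ m = 34 := by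
  have hs1 : s < 11 := by
    by_contra hcon
    push Not at hcon
    have : 11 ^ 2 ≤ s ^ 2 := Nat.pow_le_pow_left hcon 2
    omega
  interval_cases s <;> omega

private theorem fam7 {n : ℕ} [NeZero n] {m : ℕ} (a : Fin (m + 1) → ZMod n)
    (h : ∀ v ∈ rel a, v ≠ 0 → 8 ≤ nrm v) (hG : Fintype.card (ZMod n) = bound (m + 1) 7) :
    m + 1 ≤ 2 := by
  by_contra hcon
  push Not at hcon
  rcases lt_or_ge (m + 1) 35 with h35 | h35
  · obtain ⟨-, s, hs⟩ := T7.family a h hG (by omega)
    have h3n : 3 * n = 8 * (m + 1) * ((m + 1) ^ 2 + 2) := by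
      rw [← T7.three_bound (m + 1) (by omega), ← hG, ZMod.card]
    have hthree : 3 ∣ n → False := by
      intro h3
      obtain ⟨x, hx⟩ := three7 a h hG h3
      have := cub7 (m + 1) s x hs (by push_cast; linear_combination hx)
      omega
    rcases square_cases s (m + 1) hs (by omega) h35 with h1 | h1 | h1 | h1 | h1
    · obtain rfl : m = 5 := by omega
      exact p6 a h hG
    · obtain rfl : m = 8 := by omega
      exact hthree (by omega)
    · obtain rfl : m = 16 := by omega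
      exact p17 a h hG
    · obtain rfl : m = 21 := by omega
      exact hthree (by omega)
    · obtain rfl : m = 33 := by omega
      exact p34 a h hG
  · exact fin7 a h hG h35

/-- `t = 7` -/
theorem seven {n : ℕ} [NeZero n] (A : Finset (ZMod n)) (hA : Tight 7 A) : A.card ≤ 2 := by
  by_contra hcon
  push Not at hcon
  obtain ⟨hI, hG⟩ := hA
  obtain ⟨a, ha⟩ := fam_rel 7 A hI
  obtain ⟨m, hm⟩ : ∃ m, A.card = m + 1 := ⟨A.card - 1, by omega⟩
  clear hI
  revert a
  generalize A.card = k at *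
  subst hm
  intro a ha
  have := fam7 a ha hG
  omega

/-- `t = 6` -/
theorem six {n : ℕ} [NeZero n] (A : Finset (ZMod n)) (hA : Tight 6 A) : A.card ≤ 64 := by
  obtain ⟨hI, hG⟩ := hA
  obtain ⟨a, ha⟩ := fam_rel 6 A hI
  exact fin6 a ha hG

end TightIndep.NO
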