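import Pool.Agent.Lib.MP_f31b39_co.NO.Om

/-!
# NO-Ari6: the numerical conditions for `t = 6`
-/

namespace TightIndep.NO

open Finset

/-- the test for one value of `m` -/
private def Ari6_chk (m n : ℕ) : Bool :=
  n % 3 == 0 || (List.range 4).any (fun k =>
    decide (n < (pl.filter (fun p => n % p = 0)).prod * 101 ^ (k + 1)) &&
    decide (3 * 2 ^ ((pl.filter (fun p => n % p = 0)).length + k) + 7 ≤ 2 * m) &&
    decide (96 * m + 68 ≤ (2 * m - 7 - 3 * 2 ^ ((pl.filter (fun p => n % p = 0)).length + k)) ^ 2))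

private theorem Ari6_all : ((List.range 375).all fun m =>
    decide (m < 65) || Ari6_chk m ((2 * m + 1) * (2 * m ^ 2 + 2 * m + 3) / 3)) = true := by
  decide +kernel

private theorem Ari6_small (m n : ℕ) (hm : 65 ≤ m) (hm2 : m < 375)
    (h : 3 * n = (2 * m + 1) * (2 * m ^ 2 + 2 * m + 3)) (h3 : ¬ 3 ∣ n) :
    3 * 2 ^ n.primeFactors.card + 7 ≤ 2 * m ∧
      96 * m + 68 ≤ (2 * m - 7 - 3 * 2 ^ n.primeFactors.card) ^ 2 := by
  have hn : (2 * m + 1) * (2 * m ^ 2 + 2 * m + 3) / 3 = n := by omega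
  have hn0 : 0 < n := by
    rcases Nat.eq_zero_or_pos n with h0 | h0
    · subst h0; exact absurd (dvd_zero 3) h3
    · exact h0
  have h1 := List.all_eq_true.1 Ari6_all m (List.mem_range.2 hm2)
  rw [hn, Bool.or_eq_true, decide_eq_true_eq] at h1
  have h2 : Ari6_chk m n = true := h1.resolve_left (by omega)
  unfold Ari6_chk at h2
  rw [Bool.or_eq_true, beq_iff_eq, List.any_eq_true] at h2
  rcases h2 with h2 | ⟨k, _, h2⟩
  · exact absurd (Nat.dvd_of_mod_eq_zero h2) h3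
  · rw [Bool.and_eq_true, Bool.and_eq_true, decide_eq_true_eq, decide_eq_true_eq, decide_eq_true_eq] at h2
    obtain ⟨⟨ha, hb⟩, hc⟩ := h2
    have hcard := om_list n hn0 h3 k ha
    have hpow : 2 ^ n.primeFactors.card ≤ 2 ^ ((pl.filter (fun p => n % p = 0)).length + k) :=
      Nat.pow_le_pow_right (by norm_num) hcard
    refine ⟨by omega, hc.trans (Nat.pow_le_pow_left (by omega) 2)⟩

private theorem Ari6_large (m n : ℕ) (hm : 375 ≤ m)
    (h : 3 * n = (2 * m + 1) * (2 * m ^ 2 + 2 * m + 3)) (h3 : ¬ 3 ∣ n) :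
    3 * 2 ^ n.primeFactors.card + 7 ≤ 2 * m ∧
      96 * m + 68 ≤ (2 * m - 7 - 3 * 2 ^ n.primeFactors.card) ^ 2 := by
  have hn0 : 0 < n := by
    rcases Nat.eq_zero_or_pos n with h0 | h0
    · subst h0; exact absurd (dvd_zero 3) h3
    · exact h0
  have h2 : ¬ 2 ∣ n := by
    intro h2
    have h4 : 2 ∣ (2 * m + 1) * (2 * m ^ 2 + 2 * m + 3) := h ▸ (h2.mul_left 3)
    rcases (Nat.Prime.dvd_mul Nat.prime_two).1 h4 with h5 | h5 <;> omega
  have hom := om6 n hn0 h2 h3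
  obtain ⟨w, hw⟩ : ∃ w, w = 2 ^ n.primeFactors.card := ⟨_, rfl⟩
  have hw4 : 16 ^ n.primeFactors.card = w ^ 4 := by
    rw [hw, ← pow_mul, mul_comm, pow_mul]; norm_num
  rw [hw4] at hom
  rw [← hw]
  have hkey : 15 * w ≤ 7 * m := by
    by_contra hcon
    rw [not_le] at hcon
    have h6 : (7 * m) ^ 4 < (15 * w) ^ 4 := Nat.pow_lt_pow_left hcon (by norm_num)
    have h7 : w ^ 4 * 15015 ≤ 65536 * ((2 * m + 1) * (2 * m ^ 2 + 2 * m + 3)) := by
      rw [← h]; linarith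
    have h8 : (15 * w) ^ 4 * 15015 ≤ 50625 * (65536 * ((2 * m + 1) * (2 * m ^ 2 + 2 * m + 3))) := by
      calc (15 * w) ^ 4 * 15015 = 50625 * (w ^ 4 * 15015) := by ring
        _ ≤ _ := Nat.mul_le_mul_left _ h7
    have h9 : (7 * m) ^ 4 * 15015 < 50625 * (65536 * ((2 * m + 1) * (2 * m ^ 2 + 2 * m + 3))) := by
      calc (7 * m) ^ 4 * 15015 < (15 * w) ^ 4 * 15015 := by
            exact Nat.mul_lt_mul_of_pos_right h6 (by norm_num)
        _ ≤ _ := h8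
    obtain ⟨d, rfl⟩ := Nat.exists_eq_add_of_le hm
    ring_nf at h9
    nlinarith [sq_nonneg d, Nat.zero_le (d ^ 3), Nat.zero_le (d ^ 4), Nat.zero_le (d ^ 2), Nat.zero_le d]
  have h10 : 3 * w + 7 ≤ 2 * m := by omega
  refine ⟨h10, ?_⟩
  obtain ⟨e, he⟩ : ∃ e, e = 2 * m - 7 - 3 * w := ⟨_, rfl⟩
  rw [← he]
  have h11 : 3 * m ≤ 5 * e + 35 := by omega
  obtain ⟨d, rfl⟩ := Nat.exists_eq_add_of_le hm
  have h12 : 218 + d / 2 ≤ e := by omega
  have h13 : 435 + d ≤ 2 * e := by omega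
  nlinarith

theorem ari6 (m n : ℕ) (hm : 65 ≤ m) (h : 3 * n = (2 * m + 1) * (2 * m ^ 2 + 2 * m + 3))
    (h3 : ¬ 3 ∣ n) : 3 * 2 ^ n.primeFactors.card + 7 ≤ 2 * m ∧
      96 * m + 68 ≤ (2 * m - 7 - 3 * 2 ^ n.primeFactors.card) ^ 2 := by
  rcases lt_or_ge m 375 with h1 | h1
  · exact Ari6_small m n hm h1 h h3
  · exact Ari6_large m n h1 h h3

end TightIndep.NO
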