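import Pool.Agent.Lib.MP_f31b39_co.NO.Om

/-!
# NO-Ari7: the numerical conditions for `t = 7`
-/

namespace TightIndep.NO

open Finset

private theorem mono {m w w' : ℕ} (hw : w ≤ w') (h1 : 3 * w' + 12 ≤ 2 * m)
    (h2 : 96 * m ≤ (2 * m - 12 - 3 * w') ^ 2 + 28) :
    3 * w + 12 ≤ 2 * m ∧ 96 * m ≤ (2 * m - 12 - 3 * w) ^ 2 + 28 := by
  refine ⟨by omega, h2.trans ?_⟩
  have h3 : 2 * m - 12 - 3 * w' ≤ 2 * m - 12 - 3 * w := by omega
  have h4 := Nat.pow_le_pow_left h3 2
  omega

private def mm (s : ℕ) : ℕ := (s ^ 2 + 2) / 3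

private def nn (s : ℕ) : ℕ := 8 * mm s * (mm s ^ 2 + 2) / 3

private def good (m n k : ℕ) : Bool :=
  decide (n < (pl.filter (fun p => n % p = 0)).prod * 101 ^ (k + 1)) &&
    (decide (3 * 2 ^ ((pl.filter (fun p => n % p = 0)).length + k) + 12 ≤ 2 * m) &&
    decide (96 * m ≤ (2 * m - 12 - 3 * 2 ^ ((pl.filter (fun p => n % p = 0)).length + k)) ^ 2 + 28))

private def chk (s : ℕ) : Bool :=
  decide ((s ^ 2 + 2) % 3 ≠ 0) || (decide (nn s % 3 = 0) || (decide (s = 13) || (decide (s = 14) ||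
    (List.range 6).any (fun k => good (mm s) (nn s) k))))

private theorem chk_all : ∀ s < 82, 11 ≤ s → chk s = true := by
  decide +kernel

private theorem three_pf {n p q r : ℕ} (hp : p.Prime) (hq : q.Prime) (hr : r.Prime) {a : ℕ}
    (hn : n = p ^ a * q * r) : n.primeFactors.card ≤ 3 := by
  have hsub : n.primeFactors ⊆ {p, q, r} := by
    intro x hx
    have hxp := Nat.prime_of_mem_primeFactors hx
    have hxd := Nat.dvd_of_mem_primeFactors hx
    rw [hn] at hxd
    simp only [mem_insert, mem_singleton]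
    rcases hxp.dvd_mul.1 hxd with h | h
    · rcases hxp.dvd_mul.1 h with h | h
      · exact Or.inl ((Nat.prime_dvd_prime_iff_eq hxp hp).1 (hxp.dvd_of_dvd_pow h))
      · exact Or.inr (Or.inl ((Nat.prime_dvd_prime_iff_eq hxp hq).1 h))
    · exact Or.inr (Or.inr ((Nat.prime_dvd_prime_iff_eq hxp hr).1 h))
  exact (card_le_card hsub).trans card_le_three

private theorem large (m n : ℕ) (hm : 2242 ≤ m) (h : 3 * n = 8 * m * (m ^ 2 + 2)) (h3 : ¬ 3 ∣ n) :
    3 * 2 ^ n.primeFactors.card + 12 ≤ 2 * m ∧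
      96 * m ≤ (2 * m - 12 - 3 * 2 ^ n.primeFactors.card) ^ 2 + 28 := by
  obtain ⟨t, rfl⟩ := Nat.exists_eq_add_of_le hm
  have hn : 0 < n := by
    rcases Nat.eq_zero_or_pos n with h0 | h0
    · exact absurd (h0 ▸ dvd_zero 3) h3
    · exact h0
  have h7 := om7 n hn h3
  set w := 2 ^ n.primeFactors.card with hw
  have hw4 : 16 ^ n.primeFactors.card = w ^ 4 := by
    rw [hw, ← pow_mul, mul_comm, pow_mul]; norm_num
  rw [hw4] at h7
  have hkey : 87 * w ≤ 116234 + 55 * t := by
    by_contra hcon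
    have h8 : 116235 + 55 * t ≤ 87 * w := by omega
    have h9 := Nat.pow_le_pow_left h8 4
    have e1 : (87 * w) ^ 4 * 30030 = 87 ^ 4 * 3 * (w ^ 4 * 10010) := by ring
    have e2 : 87 ^ 4 * 3 * (1048576 * n) = 87 ^ 4 * 1048576 * (3 * n) := by ring
    have h10 : (116235 + 55 * t) ^ 4 * 30030 ≤ 87 ^ 4 * 1048576 * (8 * (2242 + t) * ((2242 + t) ^ 2 + 2)) := by
      calc (116235 + 55 * t) ^ 4 * 30030 ≤ (87 * w) ^ 4 * 30030 := Nat.mul_le_mul_right _ h9
        _ = 87 ^ 4 * 3 * (w ^ 4 * 10010) := e1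
        _ ≤ 87 ^ 4 * 3 * (1048576 * n) := Nat.mul_le_mul_left _ h7
        _ = 87 ^ 4 * 1048576 * (3 * n) := e2
        _ = _ := by rw [h]
    have e3 : (116235 + 55 * t) ^ 4 * 30030 =
        87 ^ 4 * 1048576 * (8 * (2242 + t) * ((2242 + t) ^ 2 + 2)) +
          (65604559587536841196014 + 3127996284184991397528 * t + 4131474575322993012 * t ^ 2 +
            1842371059332312 * t ^ 3 + 274793268750 * t ^ 4) := by ring
    rw [e3] at h10
    omega
  refine ⟨by omega, ?_⟩
  have h11 : 3 * (2242 + t) ≤ 29 * (2 * (2242 + t) - 12 - 3 * w) ∧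
      3 * (2242 + t) + 6728 ≤ 29 * (2 * (2242 + t) - 12 - 3 * w) := by omega
  have h12 := Nat.pow_le_pow_left h11.2 2
  have e4 : (29 * (2 * (2242 + t) - 12 - 3 * w)) ^ 2 = 841 * (2 * (2242 + t) - 12 - 3 * w) ^ 2 := by ring
  rw [e4] at h12
  have h13 : 841 * (96 * (2242 + t)) ≤ (3 * (2242 + t) + 6728) ^ 2 := by
    zify
    nlinarith [sq_nonneg (3 * (2242 + (t : ℤ)) - 6728)]
  omega

theorem ari7 (m n s : ℕ) (hm : 35 ≤ m) (hs : 3 * m = s ^ 2 + 2)
    (h : 3 * n = 8 * m * (m ^ 2 + 2)) (h3 : ¬ 3 ∣ n) :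
    3 * 2 ^ n.primeFactors.card + 12 ≤ 2 * m ∧
      96 * m ≤ (2 * m - 12 - 3 * 2 ^ n.primeFactors.card) ^ 2 + 28 := by
  rcases Nat.lt_or_ge s 82 with hlt | hge
  · have h11 : 11 ≤ s := by
      by_contra hc
      have : s ≤ 10 := by omega
      have h5 := Nat.pow_le_pow_left this 2
      omega
    have hmm : mm s = m := by unfold mm; omega
    have hnn : nn s = n := by unfold nn; rw [hmm]; omega
    have hc := chk_all s hlt h11
    unfold chk at hc
    rw [hmm, hnn] at hc
    simp only [Bool.or_eq_true, decide_eq_true_eq, List.any_eq_true] at hc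
    have hn : 0 < n := by
      rcases Nat.eq_zero_or_pos n with h0 | h0
      · exact absurd (h0 ▸ dvd_zero 3) h3
      · exact h0
    rcases hc with hc | hc | hc | hc | ⟨k, -, hc⟩
    · omega
    · exact absurd (Nat.dvd_of_mod_eq_zero hc) h3
    · subst hc
      have hm' : m = 57 := by omega
      subst hm'
      have hn' : n = 494152 := by omega
      have h5 : n.primeFactors.card ≤ 3 := three_pf (p := 2) (q := 19) (r := 3251) (a := 3) (by norm_num)
        (by norm_num) (by norm_num) (by rw [hn']; norm_num)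
      have h6 : 2 ^ n.primeFactors.card ≤ 2 ^ 3 := Nat.pow_le_pow_right (by norm_num) h5
      exact mono h6 (by norm_num) (by norm_num)
    · subst hc
      have hm' : m = 66 := by omega
      subst hm'
      have hn' : n = 767008 := by omega
      have h5 : n.primeFactors.card ≤ 3 := three_pf (p := 2) (q := 11) (r := 2179) (a := 5) (by norm_num)
        (by norm_num) (by norm_num) (by rw [hn']; norm_num)
      have h6 : 2 ^ n.primeFactors.card ≤ 2 ^ 3 := Nat.pow_le_pow_right (by norm_num) h5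
      exact mono h6 (by norm_num) (by norm_num)
    · unfold good at hc
      simp only [Bool.and_eq_true, decide_eq_true_eq] at hc
      obtain ⟨h5, h6, h7⟩ := hc
      exact mono (Nat.pow_le_pow_right (by norm_num) (om_list n hn h3 k h5)) h6 h7
  · have h5 := Nat.pow_le_pow_left hge 2
    exact large m n (by omega) h h3

end TightIndep.NO
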