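import Pool.Agent.Lib.MP_f31b39_co.NO.Defs

/-!
# NO-Bd6: the number `b(m, 6)`
-/

namespace TightIndep.NO

open Finset

private theorem Bd6_two (n : ℕ) : 2 * (n + 2).choose 2 = (n + 2) * (n + 1) := by
  induction n with
  | zero => decide
  | succ n ih =>
    have h1 : (n + 1 + 2).choose 2 = (n + 2).choose 1 + (n + 2).choose 2 := Nat.choose_succ_succ _ _
    rw [h1, mul_add, ih, Nat.choose_one_right]
    ring

private theorem Bd6_six (n : ℕ) : 6 * (n + 2).choose 3 = (n + 2) * (n + 1) * n := by
  induction n with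
  | zero => decide
  | succ n ih =>
    have h1 : (n + 1 + 2).choose 3 = (n + 2).choose 2 + (n + 2).choose 3 := Nat.choose_succ_succ _ _
    have h2 := Bd6_two n
    rw [h1, mul_add, ih]
    linear_combination 3 * h2

theorem bound6 (m : ℕ) : 3 * bound m 6 = (2 * m + 1) * (2 * m ^ 2 + 2 * m + 3) := by
  obtain h | h | h | ⟨n, rfl⟩ : m = 0 ∨ m = 1 ∨ m = 2 ∨ ∃ n, m = n + 3 := by
    rcases lt_or_ge m 3 with h | h
    · interval_cases m <;> simp
    · exact Or.inr (Or.inr (Or.inr ⟨m - 3, by omega⟩))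
  · subst h; decide
  · subst h; decide
  · subst h; decide
  have heven : Even 6 := by decide
  have hsum : bound (n + 3) 6 = ∑ i ∈ Finset.range 4, (n + 3).choose i * (3 : ℕ).choose i * 2 ^ i := by
    unfold bound
    rw [if_pos heven]
    refine (Finset.sum_subset (Finset.range_subset_range.2 (by omega)) fun i hi hi' => ?_).symm
    rw [Finset.mem_range] at hi hi'
    have h4 : 3 < i := by omega
    have : ((6 : ℕ) / 2 : ℕ).choose i = 0 := Nat.choose_eq_zero_of_lt h4
    rw [this]
    simp
  have h1 : ∑ i ∈ Finset.range 4, (n + 3).choose i * (3 : ℕ).choose i * 2 ^ i =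
      1 + 6 * (n + 3) + 12 * (n + 3).choose 2 + 8 * (n + 3).choose 3 := by
    simp only [Finset.sum_range_succ, Finset.sum_range_zero]
    norm_num [show (3 : ℕ).choose 2 = 3 from rfl, show (3 : ℕ).choose 3 = 1 from rfl]
    ring
  have h2 := Bd6_two (n + 1)
  have h3 := Bd6_six (n + 1)
  rw [hsum, h1]
  rw [show n + 1 + 2 = n + 3 from rfl] at h2 h3
  linear_combination 18 * h2 + 4 * h3

end TightIndep.NO
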