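import Pool.Agent.Lib.MP_f31b39_co.NO.Defs

/-!
# NO-Core: the product of the conjugates is too small
-/

namespace TightIndep.NO

open Finset

private theorem unit_ne {n : ℕ} [NeZero n] (hn : 7 ≤ n) (k : ℕ) (hk : 0 < k) (hk7 : k < 7)
    (u : (ZMod n)ˣ) : (k : ZMod n) * (u : ZMod n) ≠ 0 := by
  intro h
  have h1 : (k : ZMod n) = 0 := (Units.mul_left_eq_zero u).1 h
  rw [ZMod.natCast_eq_zero_iff] at h1
  have := Nat.le_of_dvd hk h1
  omega

theorem core {n : ℕ} [NeZero n] (hn : 7 ≤ n) (hn3 : Nat.Coprime 3 n) (x : ZMod n → ℝ)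
    (b M K : ℝ) (hM0 : 2 ≤ M) (hM : ∀ j : ZMod n, 2 * j ≠ 0 → |x j| ≤ M)
    (heq : ∀ j : ZMod n, 2 * j ≠ 0 →
      x j ^ 3 + 3 * x j * x (2 * j) + 2 * x (3 * j) = b * x j)
    (hK : ∑ u : (ZMod n)ˣ, x u ^ 2 ≤ (Nat.totient n : ℝ) * K)
    (hN : 1 ≤ |∏ u : (ZMod n)ˣ, x u|)
    (h1 : 4 * M ^ 2 ≤ 9 * (b - 5 * M)) (h2 : 9 * K ≤ 4 * (b - 3 * M - 3))
    (h3 : 4 * M ^ 3 < (b - 1 - 3 * M) ^ 2) : False := by
  classical
  obtain ⟨t, ht⟩ : ∃ t : (ZMod n)ˣ, (t : ZMod n) = 3 :=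
    ⟨ZMod.unitOfCoprime 3 hn3, by rw [ZMod.coe_unitOfCoprime]; norm_num⟩
  have hB : 4 < b - 3 * M := by nlinarith
  have hu2 : ∀ u : (ZMod n)ˣ, (2 : ZMod n) * u ≠ 0 := fun u => by
    simpa using unit_ne hn 2 (by norm_num) (by norm_num) u
  have hu4 : ∀ u : (ZMod n)ˣ, (2 : ZMod n) * (2 * u) ≠ 0 := fun u => by
    have := unit_ne hn 4 (by norm_num) (by norm_num) u
    intro h
    apply this
    rw [← h]
    push_cast
    ring
  have hx1 : ∀ u : (ZMod n)ˣ, |x u| ≤ M := fun u => hM _ (hu2 u)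
  have hx2 : ∀ u : (ZMod n)ˣ, |x (2 * u)| ≤ M := fun u => hM _ (hu4 u)
  have e3 : ∀ u : (ZMod n)ˣ, x (3 * u) = x ((t * u : (ZMod n)ˣ) : ZMod n) := fun u => by
    rw [Units.val_mul, ht]
  have heq' : ∀ u : (ZMod n)ˣ, x u * (b - x u ^ 2 - 3 * x (2 * u)) =
      2 * x ((t * u : (ZMod n)ˣ) : ZMod n) := by
    intro u
    have h := heq u (hu2 u)
    rw [e3] at h
    linear_combination -h
  obtain ⟨q, hq⟩ : ∃ q : ℝ, q = 2 / (b - 3 * M - 1) := ⟨_, rfl⟩
  have hq0 : 0 < q := by rw [hq]; apply div_pos <;> linarith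
  have hq1 : q ≤ 1 := by
    rw [hq, div_le_one (by linarith)]
    linarith
  have hqB : q * (b - 3 * M - 1) = 2 := by
    rw [hq]
    exact div_mul_cancel₀ _ (ne_of_gt (by linarith))
  have hsmall : ∀ u : (ZMod n)ˣ, |x u| ≤ 1 → |x u| ≤ q * |x ((t * u : (ZMod n)ˣ) : ZMod n)| := by
    intro u hu
    have h4 : |x u| * |b - x u ^ 2 - 3 * x (2 * u)| = 2 * |x ((t * u : (ZMod n)ˣ) : ZMod n)| := by
      rw [← abs_mul, heq', abs_mul, abs_of_pos (by norm_num : (0 : ℝ) < 2)]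
    have h5 : b - 3 * M - 1 ≤ |b - x u ^ 2 - 3 * x (2 * u)| := by
      have h6 := (abs_le.1 (hx2 u)).2
      have h7 : x u ^ 2 ≤ 1 := by
        rw [← sq_abs]
        have := abs_nonneg (x u)
        nlinarith
      refine le_trans ?_ (le_abs_self _)
      linarith
    have h8 : |x u| * (b - 3 * M - 1) ≤ 2 * |x ((t * u : (ZMod n)ˣ) : ZMod n)| := by
      rw [← h4]
      exact mul_le_mul_of_nonneg_left h5 (abs_nonneg _)
    have h9 : (b - 3 * M - 1) * |x u| ≤ (b - 3 * M - 1) * (q * |x ((t * u : (ZMod n)ˣ) : ZMod n)|) := by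
      have : (b - 3 * M - 1) * (q * |x ((t * u : (ZMod n)ˣ) : ZMod n)|) =
        2 * |x ((t * u : (ZMod n)ˣ) : ZMod n)| := by
        rw [← mul_assoc, mul_comm (b - 3 * M - 1) q, hqB]
      rw [this]
      linarith
    exact le_of_mul_le_mul_left h9 (by linarith)
  have hlarge : ∀ u : (ZMod n)ˣ, 1 < |x u| → b - 3 * M - 3 ≤ x u ^ 2 := by
    intro u hu
    have h4 : |x u| * |b - x u ^ 2 - 3 * x (2 * u)| = 2 * |x ((t * u : (ZMod n)ˣ) : ZMod n)| := by
      rw [← abs_mul, heq', abs_mul, abs_of_pos (by norm_num : (0 : ℝ) < 2)]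
    have h5 := hx1 (t * u)
    have h6 := (abs_le.1 (hx2 u)).2
    have h7 : |b - x u ^ 2 - 3 * x (2 * u)| ≤ 2 * M := by
      have h8 := abs_nonneg (b - x u ^ 2 - 3 * x (2 * u))
      nlinarith
    have h8 : (2 * M / 3) ^ 2 ≤ |x u| ^ 2 := by
      have h9 := (abs_le.1 h7).2
      rw [sq_abs]
      nlinarith
    have h9 : 2 * M / 3 ≤ |x u| := by
      refine le_of_sq_le_sq ?_ (abs_nonneg _)
      exact h8
    have h10 : |b - x u ^ 2 - 3 * x (2 * u)| ≤ 3 := by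
      have h11 : 2 * M / 3 * |b - x u ^ 2 - 3 * x (2 * u)| ≤ 2 * M / 3 * 3 := by
        calc 2 * M / 3 * |b - x u ^ 2 - 3 * x (2 * u)| ≤ |x u| * |b - x u ^ 2 - 3 * x (2 * u)| :=
              mul_le_mul_of_nonneg_right h9 (abs_nonneg _)
          _ ≤ 2 * M / 3 * 3 := by rw [h4]; linarith
      exact le_of_mul_le_mul_left h11 (by linarith)
    have h11 := (abs_le.1 h10).2
    linarith
  -- the exponents
  obtain ⟨s, hs⟩ : ∃ s : (ZMod n)ˣ → ℕ, s = fun u : (ZMod n)ˣ => if |x (u : ZMod n)| ≤ 1 then 1 else 0 :=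
    ⟨fun u : (ZMod n)ˣ => if |x (u : ZMod n)| ≤ 1 then 1 else 0, rfl⟩
  have hs1 : ∀ u, s u ≤ 1 := fun u => by rw [hs]; dsimp only; split_ifs <;> norm_num
  obtain ⟨L, hL⟩ : ∃ L : Finset (ZMod n)ˣ, L = univ.filter fun u : (ZMod n)ˣ => 1 < |x (u : ZMod n)| :=
    ⟨_, rfl⟩
  have hPcard : (univ : Finset (ZMod n)ˣ).card = Nat.totient n := by
    rw [card_univ, ZMod.card_units_eq_totient]
  have hsL : ∑ u, s u + L.card = Nat.totient n := by
    rw [hs, hL, Finset.sum_boole, ← hPcard]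
    have := Finset.card_filter_add_card_filter_not (s := (univ : Finset (ZMod n)ˣ)) (fun u : (ZMod n)ˣ => |x u| ≤ 1)
    simp only [not_le] at this
    simpa using this
  have hLB : 9 * L.card ≤ 4 * Nat.totient n := by
    have h4 : (L.card : ℝ) * (b - 3 * M - 3) ≤ (Nat.totient n : ℝ) * K := by
      refine le_trans ?_ hK
      calc (L.card : ℝ) * (b - 3 * M - 3) = ∑ u ∈ L, (b - 3 * M - 3) := by
            rw [Finset.sum_const, nsmul_eq_mul]
        _ ≤ ∑ u ∈ L, x u ^ 2 := Finset.sum_le_sum fun u hu => hlarge u (by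
            rw [hL, Finset.mem_filter] at hu; exact hu.2)
        _ ≤ ∑ u : (ZMod n)ˣ, x u ^ 2 :=
            Finset.sum_le_sum_of_subset_of_nonneg (Finset.subset_univ _) fun _ _ _ => sq_nonneg _
    have h5 : (9 * L.card : ℝ) * (b - 3 * M - 3) ≤ (4 * Nat.totient n : ℝ) * (b - 3 * M - 3) := by
      have h6 : (Nat.totient n : ℝ) * (9 * K) ≤ (Nat.totient n : ℝ) * (4 * (b - 3 * M - 3)) :=
        mul_le_mul_of_nonneg_left h2 (Nat.cast_nonneg _)
      nlinarith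
    have h6 := le_of_mul_le_mul_right h5 (by linarith)
    exact_mod_cast h6
  have hst : ∑ u, s (t * u) = ∑ u, s u := Equiv.sum_comp (Equiv.mulLeft t) s
  obtain ⟨k, hk⟩ : ∃ k : (ZMod n)ˣ → ℕ, k = fun u : (ZMod n)ˣ => s u + s u * s (t * u) :=
    ⟨fun u : (ZMod n)ˣ => s u + s u * s (t * u), rfl⟩
  have hk1 : ∀ u, 2 * s u + s (t * u) ≤ k u + 1 := by
    intro u
    rw [hk]
    dsimp only
    have h4 := hs1 u
    have h5 := hs1 (t * u)
    interval_cases s u <;> interval_cases s (t * u) <;> norm_num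
  have hksum : 2 * Nat.totient n ≤ 3 * ∑ u, k u := by
    have h4 : ∑ u, (2 * s u + s (t * u)) ≤ ∑ u, (k u + 1) := Finset.sum_le_sum fun u _ => hk1 u
    rw [Finset.sum_add_distrib, ← Finset.mul_sum, hst, Finset.sum_add_distrib, Finset.sum_const, hPcard,
      smul_eq_mul, mul_one] at h4
    omega
  have hbd : ∀ u : (ZMod n)ˣ, |x u| ≤ M * q ^ k u := by
    intro u
    rw [hk, hs]
    dsimp only
    by_cases h4 : |x u| ≤ 1
    · by_cases h5 : |x ((t * u : (ZMod n)ˣ) : ZMod n)| ≤ 1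
      · rw [if_pos h4, if_pos h5]
        have h6 := hsmall u h4
        have h7 := hsmall (t * u) h5
        have h8 := hx1 (t * (t * u))
        calc |x u| ≤ q * |x ((t * u : (ZMod n)ˣ) : ZMod n)| := h6
          _ ≤ q * (q * M) := by
              refine mul_le_mul_of_nonneg_left (h7.trans ?_) hq0.le
              exact mul_le_mul_of_nonneg_left h8 hq0.le
          _ = M * q ^ (1 + 1 * 1) := by ring
      · rw [if_pos h4, if_neg h5]
        have h6 := hsmall u h4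
        have h8 := hx1 (t * u)
        calc |x u| ≤ q * |x ((t * u : (ZMod n)ˣ) : ZMod n)| := h6
          _ ≤ q * M := mul_le_mul_of_nonneg_left h8 hq0.le
          _ = M * q ^ (1 + 1 * 0) := by ring
    · rw [if_neg h4]
      simpa using hx1 u
  have hprod : |∏ u : (ZMod n)ˣ, x u| ≤ M ^ Nat.totient n * q ^ ∑ u, k u := by
    rw [Finset.abs_prod]
    calc ∏ u : (ZMod n)ˣ, |x u| ≤ ∏ u : (ZMod n)ˣ, M * q ^ k u :=
          Finset.prod_le_prod (fun _ _ => abs_nonneg _) fun u _ => hbd u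
      _ = M ^ Nat.totient n * q ^ ∑ u, k u := by
          rw [Finset.prod_mul_distrib, Finset.prod_const, hPcard, Finset.prod_pow_eq_pow_sum]
  have hP : 0 < Nat.totient n := Nat.totient_pos.2 (by omega)
  have hfin : (M ^ Nat.totient n * q ^ ∑ u, k u) ^ 3 < 1 := by
    calc (M ^ Nat.totient n * q ^ ∑ u, k u) ^ 3 = (M ^ 3) ^ Nat.totient n * q ^ (3 * ∑ u, k u) := by
          rw [mul_pow, ← pow_mul, ← pow_mul, ← pow_mul, mul_comm (Nat.totient n) 3, mul_comm (∑ u, k u) 3]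
      _ ≤ (M ^ 3) ^ Nat.totient n * q ^ (2 * Nat.totient n) := by
          refine mul_le_mul_of_nonneg_left ?_ (by positivity)
          exact pow_le_pow_of_le_one hq0.le hq1 hksum
      _ = (M ^ 3 * q ^ 2) ^ Nat.totient n := by rw [mul_pow, ← pow_mul q]
      _ < 1 := by
          refine pow_lt_one₀ (by positivity) ?_ hP.ne'
          have h4 : M ^ 3 * q ^ 2 * (b - 3 * M - 1) ^ 2 = 4 * M ^ 3 := by
            calc M ^ 3 * q ^ 2 * (b - 3 * M - 1) ^ 2 = M ^ 3 * (q * (b - 3 * M - 1)) ^ 2 := by ring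
              _ = 4 * M ^ 3 := by rw [hqB]; ring
          have h5 : (0 : ℝ) < (b - 3 * M - 1) ^ 2 := by
            have : 0 < b - 3 * M - 1 := by linarith
            positivity
          have h6 : M ^ 3 * q ^ 2 * (b - 3 * M - 1) ^ 2 < 1 * (b - 3 * M - 1) ^ 2 := by
            rw [h4, one_mul]
            calc 4 * M ^ 3 < (b - 1 - 3 * M) ^ 2 := h3
              _ = (b - 3 * M - 1) ^ 2 := by ring
          exact lt_of_mul_lt_mul_right h6 h5.le
  have h4 : (1 : ℝ) ≤ (M ^ Nat.totient n * q ^ ∑ u, k u) ^ 3 := by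
    have h5 : (1 : ℝ) ≤ M ^ Nat.totient n * q ^ ∑ u, k u := hN.trans hprod
    exact one_le_pow₀ h5
  linarith

end TightIndep.NO
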