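import Pool.Agent.Lib.MP_f31b39_co.NO.Defs

/-!
# NO-Cub: two cubic equations
-/

namespace TightIndep.NO

open Finset

private theorem cub_chk7 : ∀ k ∈ Finset.range 406, (6 * ((k : ℤ) - 202) - 4) ∣
      (((k : ℤ) - 202) ^ 3 + 3 * ((k : ℤ) - 202) ^ 2 + 6 * ((k : ℤ) - 202)) →
    (((k : ℤ) - 202) ^ 3 + 3 * ((k : ℤ) - 202) ^ 2 + 6 * ((k : ℤ) - 202)) / (6 * ((k : ℤ) - 202) - 4) ≤ 2 ∨
    (((k : ℤ) - 202) ^ 3 + 3 * ((k : ℤ) - 202) ^ 2 + 6 * ((k : ℤ) - 202)) / (6 * ((k : ℤ) - 202) - 4) ∈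
      ([4, 5, 14, 18, 130] : List ℤ) := by
  decide +kernel

private theorem cub_chk6 : ∀ k ∈ Finset.range 406, (6 * ((k : ℤ) - 202) - 4) ∣
      (((k : ℤ) - 202) ^ 3 + 3 * ((k : ℤ) - 202) ^ 2 + 2) →
    (((k : ℤ) - 202) ^ 3 + 3 * ((k : ℤ) - 202) ^ 2 + 2) / (6 * ((k : ℤ) - 202) - 4) < 60 := by
  decide +kernel

private theorem cub_range {x N : ℤ} (hN : 0 < N) (hN2 : N ≤ 1216) (h : (6 * x - 4) ∣ N) :
    ∃ k ∈ Finset.range 406, x = (k : ℤ) - 202 := by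
  have h1 : 6 * x - 4 ≤ N := Int.le_of_dvd hN h
  have h2 : -(6 * x - 4) ≤ N := Int.le_of_dvd hN (neg_dvd.mpr h)
  exact ⟨(x + 202).toNat, Finset.mem_range.mpr (by omega), by omega⟩

private theorem cub_ne (x : ℤ) : 6 * x - 4 ≠ 0 := by omega

theorem cub7 (m s : ℕ) (x : ℤ) (hs : 3 * m = s ^ 2 + 2)
    (h : x ^ 3 + 3 * x ^ 2 + 4 * m = 6 * ((m : ℤ) - 1) * x) : m ≤ 2 := by
  have hd : (6 * x - 4) ∣ 1216 :=
    ⟨216 * m - ((6 * x - 4) ^ 2 + 30 * (6 * x - 4) + 408), by linear_combination 216 * h⟩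
  obtain ⟨k, hk, rfl⟩ := cub_range (by norm_num) le_rfl hd
  have he : ((k : ℤ) - 202) ^ 3 + 3 * ((k : ℤ) - 202) ^ 2 + 6 * ((k : ℤ) - 202) = (6 * ((k : ℤ) - 202) - 4) * m := by
    linear_combination h
  have hc := cub_chk7 k hk ⟨m, he⟩
  rw [he, Int.mul_ediv_cancel_left _ (cub_ne _)] at hc
  rcases hc with hc | hc
  · exact_mod_cast hc
  · exfalso
    have hs20 : s ≤ 20 := by
      by_contra hlt
      have h21 : 21 ≤ s := by omega
      have h3 : 441 ≤ s ^ 2 := by nlinarith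
      simp only [List.mem_cons, List.not_mem_nil, or_false] at hc
      omega
    simp only [List.mem_cons, List.not_mem_nil, or_false] at hc
    interval_cases s <;> omega

theorem cub6 (m : ℕ) (x : ℤ) (h : x ^ 3 + 3 * x ^ 2 + 2 * (2 * m + 1) = 6 * m * x) : m < 60 := by
  have hd : (6 * x - 4) ∣ 784 :=
    ⟨216 * m - ((6 * x - 4) ^ 2 + 30 * (6 * x - 4) + 192), by linear_combination 216 * h⟩
  obtain ⟨k, hk, rfl⟩ := cub_range (by norm_num) (by norm_num) hd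
  have he : ((k : ℤ) - 202) ^ 3 + 3 * ((k : ℤ) - 202) ^ 2 + 2 = (6 * ((k : ℤ) - 202) - 4) * m := by
    linear_combination h
  have hc := cub_chk6 k hk ⟨m, he⟩
  rw [he, Int.mul_ediv_cancel_left _ (cub_ne _)] at hc
  exact_mod_cast hc

end TightIndep.NO
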