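import Pool.Agent.Lib.MP_f31b39_co.AS.Fam

/-!
# Board NO (tight 6- and 7-independent sets in cyclic groups): definitions
-/

namespace TightIndep.NO

open Finset

/-- the number of the divisors `d ≠ 1` of `n` with `μ d = 1` -/
def ep (n : ℕ) : ℕ := ((n.divisors.erase 1).filter fun d => ArithmeticFunction.moebius d = 1).card

/-- the number of the divisors `d` of `n` with `μ d = -1` -/
def em (n : ℕ) : ℕ := (n.divisors.filter fun d => ArithmeticFunction.moebius d = -1).card

/-- the elements `0`, `a i`, `- a i` -/
def sg {G : Type} [AddCommGroup G] {m : ℕ} (a : Fin m → G) : Option (Fin m × Bool) → G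
  | none => 0
  | some (i, true) => a i
  | some (i, false) => - a i

end TightIndep.NO
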