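import Pool.Agent.Lib.MP_f31b39_co.NO.Six

/-!
# NO-Eqn6: the real character sums and their equation for `t = 6`
-/

namespace TightIndep.NO

open Finset

private theorem eqn6_sum {n : ℕ} [NeZero n] {m : ℕ} (a : Fin m → ZMod n) (j : ZMod n) :
    ∑ i, (ZMod.stdAddChar (j * sg a i) : ℂ) =
      1 + ∑ i, (ZMod.stdAddChar (j * a i) + (ZMod.stdAddChar (j * a i) : ℂ)⁻¹) := by
  rw [Fintype.sum_option, Fintype.sum_prod_type]
  congr 1
  · simp [sg]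
  · refine Finset.sum_congr rfl fun i _ => ?_
    rw [Fintype.sum_bool]
    simp only [sg]
    rw [mul_neg, AddChar.map_neg_eq_inv]

private theorem eqn6_mul {n : ℕ} [NeZero n] {m : ℕ} (a : Fin m → ZMod n) (j : ZMod n) (k : ℕ) :
    ∑ i, (ZMod.stdAddChar ((k : ZMod n) * j * sg a i) : ℂ) =
      1 + ∑ i, ((ZMod.stdAddChar (j * a i) : ℂ) ^ k + ((ZMod.stdAddChar (j * a i) : ℂ)⁻¹) ^ k) := by
  rw [eqn6_sum]
  congr 1
  refine Finset.sum_congr rfl fun i _ => ?_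
  have h1 : (ZMod.stdAddChar ((k : ZMod n) * j * a i) : ℂ) = (ZMod.stdAddChar (j * a i) : ℂ) ^ k := by
    rw [← AddChar.map_nsmul_eq_pow, nsmul_eq_mul, mul_assoc]
  rw [h1, inv_pow]

private theorem eqn6_real {n : ℕ} [NeZero n] {m : ℕ} (a : Fin m → ZMod n) (j : ZMod n) :
    (((∑ i, (ZMod.stdAddChar (j * sg a i) : ℂ)).re : ℝ) : ℂ) = ∑ i, (ZMod.stdAddChar (j * sg a i) : ℂ) := by
  rw [← Complex.conj_eq_iff_re, eqn6_sum, map_add, map_one, map_sum]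
  congr 1
  refine Finset.sum_congr rfl fun i _ => ?_
  rw [map_add, ← AddChar.map_neg_eq_inv, ← AddChar.map_neg_eq_conj, ← AddChar.map_neg_eq_conj, neg_neg, add_comm]

theorem x6 {n : ℕ} [NeZero n] {m : ℕ} (a : Fin m → ZMod n)
    (h : ∀ v ∈ rel a, v ≠ 0 → 7 ≤ nrm v) (hG : Fintype.card (ZMod n) = bound m 6) :
    ∃ x : ZMod n → ℝ, (∀ j, (x j : ℂ) = ∑ i, ZMod.stdAddChar (j * sg a i)) ∧
      ∀ j : ZMod n, j ≠ 0 →
        x j ^ 3 + 3 * x j * x (2 * j) + 2 * x (3 * j) = (6 * m : ℝ) * x j := by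
  refine ⟨fun j => (∑ i, (ZMod.stdAddChar (j * sg a i) : ℂ)).re, fun j => eqn6_real a j, fun j hj => ?_⟩
  have hχ : AddChar.mulShift (ZMod.stdAddChar : AddChar (ZMod n) ℂ) j ≠ 1 := ZMod.isPrimitive_stdAddChar n hj
  have h1 := six_eq a h hG (AddChar.mulShift (ZMod.stdAddChar : AddChar (ZMod n) ℂ) j) hχ
  simp only [AddChar.mulShift_apply] at h1
  have e2 := eqn6_mul a j 2
  have e3 := eqn6_mul a j 3
  rw [Nat.cast_ofNat] at e2 e3
  rw [← eqn6_sum, ← e2, ← e3, ← eqn6_real a j, ← eqn6_real a (2 * j), ← eqn6_real a (3 * j)] at h1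
  exact_mod_cast h1

end TightIndep.NO
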