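import Pool.Agent.Lib.MP_f31b39_co.NO.Pcr
import Pool.Agent.Lib.MP_f31b39_co.T7.Eq
import Pool.Agent.Lib.MP_f31b39_co.T7.Bd

/-!
# NO-P34: no tight 7-independent set with 34 elements
-/

namespace TightIndep.NO

open Finset

private theorem P34_fib {ι κ R : Type} [Fintype ι] [Fintype κ] [DecidableEq κ] [CommSemiring R] (f : ι → κ) (F : κ → R) :
    ∑ c, ((univ.filter fun i => f i = c).card : R) * F c = ∑ i, F (f i) := by
  have h1 : ∀ c, ((univ.filter fun i => f i = c).card : R) * F c = ∑ i, if f i = c then F c else 0 := by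
    intro c
    rw [← sum_filter, sum_const, nsmul_eq_mul]
  simp_rw [h1]
  rw [sum_comm]
  refine sum_congr rfl fun i _ => ?_
  rw [sum_ite_eq, if_pos (mem_univ _)]

/-- Tight `7`-independent sets of `m + 1` elements: a criterion modulo a prime divisor of the order. -/
theorem pseven {m n p : ℕ} [NeZero n] [Fact p.Prime] (a : Fin (m + 1) → ZMod n)
    (h : ∀ v ∈ rel a, v ≠ 0 → 8 ≤ nrm v) (hG : Fintype.card (ZMod n) = bound (m + 1) 7)
    (hp : p ∣ n) (hp2 : 2 < p) (hKp : 2 * (m + 1) + 1 < p)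
    (h0 : (p : ℤ) ∣ ((2 * (m + 1) : ℕ) : ℤ) * (((2 * (m + 1) : ℕ) : ℤ) ^ 2 + 3 * ((2 * (m + 1) : ℕ) : ℤ) + 2 - 6 * m))
    (hL : ∀ j ∈ Icc 1 (p - 2), ¬ (p : ℤ) ∣ 3 * ((2 * (m + 1) : ℕ) : ℤ) ^ 2 + 3 * ((2 * (m + 1) : ℕ) : ℤ) * (1 + 2 ^ j) +
      2 * 3 ^ j - 6 * m) :
    False := by
  have hpp : p.Prime := Fact.out
  have hp1 : Fact (1 < p) := ⟨hpp.one_lt⟩
  obtain ⟨φ, hφ⟩ : ∃ φ : ZMod n →+* ZMod p, φ = ZMod.castHom hp (ZMod p) := ⟨_, rfl⟩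
  obtain ⟨ζ, hζ⟩ : ∃ ζ : ℂ, IsPrimitiveRoot ζ p := ⟨_, Complex.isPrimitiveRoot_exp p hpp.ne_zero⟩
  have hζn : ζ ^ n = 1 := (hζ.pow_eq_one_iff_dvd n).2 hp
  obtain ⟨χ, hχ⟩ : ∃ χ : AddChar (ZMod n) ℂ, χ = AddChar.zmodChar n hζn := ⟨_, rfl⟩
  have hchi : ∀ g : ZMod n, χ g = ζ ^ (φ g).val := by
    intro g
    rw [hχ, AddChar.zmodChar_apply, hφ, ZMod.castHom_apply, ZMod.cast_eq_val, ZMod.val_natCast]
    exact pow_eq_pow_mod _ hζ.pow_eq_one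
  have hinv : ∀ g : ZMod n, (χ g)⁻¹ = ζ ^ (- φ g).val := by
    intro g
    rw [← AddChar.map_neg_eq_inv, hchi, map_neg]
  have hne : ∃ g, χ g ^ 2 ≠ 1 := by
    refine ⟨1, ?_⟩
    rw [hchi, map_one, ZMod.val_one, pow_one]
    exact hζ.pow_ne_one_of_pos_of_lt (by norm_num) hp2
  have hE := T7.seven_eq a h hG χ hne
  obtain ⟨T, hT⟩ : ∃ T : ZMod p → ℕ, ∀ c, T c = (univ.filter fun i => φ (a i) = c).card +
      (univ.filter fun i => - φ (a i) = c).card := ⟨_, fun c => rfl⟩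
  have hsum : ∀ x : ℂ, ∑ c, (T c : ℂ) * x ^ c.val = ∑ i, (x ^ (φ (a i)).val + x ^ (- φ (a i)).val) := by
    intro x
    have h1 := P34_fib (fun i => φ (a i)) (fun c => x ^ c.val)
    have h2 := P34_fib (fun i => - φ (a i)) (fun c => x ^ c.val)
    rw [sum_add_distrib, ← h1, ← h2, ← sum_add_distrib]
    refine sum_congr rfl fun c _ => ?_
    rw [hT]
    push_cast
    ring
  have hK : ∑ c, T c = 2 * (m + 1) := by
    have h1 := P34_fib (fun i => φ (a i)) (fun _ => (1 : ℕ))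
    have h2 := P34_fib (fun i => - φ (a i)) (fun _ => (1 : ℕ))
    simp only [mul_one, Nat.cast_id, sum_const, card_univ, Fintype.card_fin, smul_eq_mul] at h1 h2
    simp_rw [hT]
    rw [sum_add_distrib, h1, h2]
    ring
  have s1 : ∑ c, (T c : ℂ) * ζ ^ c.val = ∑ i, (χ (a i) + (χ (a i))⁻¹) := by
    rw [hsum]
    refine sum_congr rfl fun i _ => ?_
    rw [hinv, hchi]
  have s2 : ∑ c, (T c : ℂ) * (ζ ^ 2) ^ c.val = ∑ i, (χ (a i) ^ 2 + (χ (a i))⁻¹ ^ 2) := by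
    rw [hsum]
    refine sum_congr rfl fun i _ => ?_
    rw [hinv, hchi, pow_right_comm ζ 2, pow_right_comm ζ 2]
  have s3 : ∑ c, (T c : ℂ) * (ζ ^ 3) ^ c.val = ∑ i, (χ (a i) ^ 3 + (χ (a i))⁻¹ ^ 3) := by
    rw [hsum]
    refine sum_congr rfl fun i _ => ?_
    rw [hinv, hchi, pow_right_comm ζ 3, pow_right_comm ζ 3]
  have heq : (∑ c, (T c : ℂ) * ζ ^ c.val) ^ 3 +
      3 * (∑ c, (T c : ℂ) * ζ ^ c.val) * (∑ c, (T c : ℂ) * (ζ ^ 2) ^ c.val) +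
      2 * ∑ c, (T c : ℂ) * (ζ ^ 3) ^ c.val = ((6 * m : ℤ) : ℂ) * ∑ c, (T c : ℂ) * ζ ^ c.val := by
    rw [s1, s2, s3]
    push_cast
    linear_combination hE
  have hz := pcrit p T (2 * (m + 1)) hK hKp (6 * m) ζ hζ heq h0 hL
  have hT0 : T 0 = 2 * (m + 1) := by
    rw [← hK]
    exact (sum_eq_single 0 (fun c _ hc => hz c hc) (fun h => absurd (mem_univ _) h)).symm
  have hx : ∀ x : ℂ, ∑ c, (T c : ℂ) * x ^ c.val = 2 * (m + 1) := by
    intro x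
    rw [sum_eq_single 0 (fun c _ hc => by rw [hz c hc]; simp) (fun h => absurd (mem_univ _) h), hT0]
    simp
  rw [hx, hx, hx] at heq
  have hr : ((2 * (m + 1)) ^ 3 + 3 * (2 * (m + 1)) * (2 * (m + 1)) + 2 * (2 * (m + 1)) : ℤ) =
      6 * m * (2 * (m + 1)) := by
    exact_mod_cast heq
  have hm : (0 : ℤ) ≤ m := Int.natCast_nonneg m
  nlinarith [mul_nonneg hm hm, mul_nonneg (mul_nonneg hm hm) hm]

private theorem P34_res : ∀ j ∈ Icc 1 191, ¬ 193 ∣ 13674 + 204 * (1 + 2 ^ j) + 2 * 3 ^ j := by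
  decide +kernel

theorem p34 {n : ℕ} [NeZero n] (a : Fin (33 + 1) → ZMod n)
    (h : ∀ v ∈ rel a, v ≠ 0 → 8 ≤ nrm v) (hG : Fintype.card (ZMod n) = bound (33 + 1) 7) :
    False := by
  have hb := T7.three_bound (33 + 1) (by norm_num)
  have hn : n = 104992 := by
    rw [← ZMod.card n, hG]
    omega
  have hpr : Fact (Nat.Prime 193) := ⟨by norm_num⟩
  refine pseven (p := 193) a h hG (hn ▸ ⟨544, by norm_num⟩) (by norm_num) (by norm_num) ⟨1632, by norm_num⟩ ?_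
  intro j hj hd
  refine P34_res j hj ?_
  rw [← Int.natCast_dvd_natCast]
  push_cast
  push_cast at hd
  convert hd using 1
  ring

end TightIndep.NO
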