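import Pool.Agent.Lib.MP_f31b39_co.NO.Six
import Pool.Agent.Lib.MP_f31b39_co.T7.Eq

/-!
# NO-Thr: the characters of order three
-/

namespace TightIndep.NO

open Finset

private theorem thr_char {n : ℕ} [NeZero n] (h3 : 3 ∣ n) :
    ∃ χ : AddChar (ZMod n) ℂ, (∀ g, χ g ^ 3 = 1) ∧ χ 1 ≠ 1 := by
  obtain ⟨k, hk⟩ := h3
  have hn : n ≠ 0 := NeZero.ne n
  have hk0 : 0 < k := by
    rcases Nat.eq_zero_or_pos k with h | h
    · rw [h, mul_zero] at hk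
      exact absurd hk hn
    · exact h
  refine ⟨(ZMod.stdAddChar (N := n)).mulShift (k : ZMod n), fun g => ?_, fun h => ?_⟩
  · rw [AddChar.mulShift_apply, ← AddChar.map_nsmul_eq_pow]
    have h1 : 3 • ((k : ZMod n) * g) = 0 := by
      have h2 : ((3 * k : ℕ) : ZMod n) = 0 := by rw [← hk]; exact ZMod.natCast_self n
      rw [nsmul_eq_mul, ← mul_assoc]
      push_cast at h2 ⊢
      rw [h2, zero_mul]
    rw [h1, AddChar.map_zero_eq_one]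
  · rw [AddChar.mulShift_apply, mul_one] at h
    have h1 : (k : ZMod n) = 0 := by
      apply ZMod.injective_stdAddChar
      rw [h, AddChar.map_zero_eq_one]
    rw [ZMod.natCast_eq_zero_iff] at h1
    have h2 := Nat.le_of_dvd hk0 h1
    omega

private theorem thr_val {y : ℂ} (hy : y ^ 3 = 1) :
    ∃ z : ℤ, y + y⁻¹ = z ∧ y ^ 2 + y⁻¹ ^ 2 = z ∧ y ^ 3 + y⁻¹ ^ 3 = 2 := by
  have hy0 : y ≠ 0 := by
    rintro rfl
    norm_num at hy
  have hinv : y⁻¹ = y ^ 2 := by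
    field_simp
    linear_combination -hy
  have h3 : y⁻¹ ^ 3 = 1 := by rw [inv_pow, hy, inv_one]
  have hinv2 : y⁻¹ ^ 2 = y := by
    rw [hinv]
    linear_combination y * hy
  have hf : (y - 1) * (y ^ 2 + y + 1) = 0 := by linear_combination hy
  rcases mul_eq_zero.1 hf with h | h
  · have h1 : y = 1 := sub_eq_zero.1 h
    refine ⟨2, ?_, ?_, ?_⟩ <;> rw [h1] <;> norm_num
  · refine ⟨-1, ?_, ?_, ?_⟩
    · rw [hinv]; push_cast; linear_combination h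
    · rw [hinv2]; push_cast; linear_combination h
    · rw [h3, hy]; norm_num

private theorem thr_sum {G : Type} [AddCommGroup G] {M : ℕ} (a : Fin M → G) (χ : AddChar G ℂ)
    (h : ∀ g, χ g ^ 3 = 1) : ∃ z : ℤ, ∑ i, (χ (a i) + (χ (a i))⁻¹) = z ∧
      ∑ i, (χ (a i) ^ 2 + (χ (a i))⁻¹ ^ 2) = z ∧ ∑ i, (χ (a i) ^ 3 + (χ (a i))⁻¹ ^ 3) = 2 * (M : ℂ) := by
  choose z hz1 hz2 hz3 using fun i => thr_val (h (a i))
  refine ⟨∑ i, z i, ?_, ?_, ?_⟩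
  · rw [Int.cast_sum]
    exact sum_congr rfl fun i _ => hz1 i
  · rw [Int.cast_sum]
    exact sum_congr rfl fun i _ => hz2 i
  · rw [sum_congr rfl fun i _ => hz3 i, sum_const, card_univ, Fintype.card_fin, nsmul_eq_mul]
    ring

theorem three7 {n : ℕ} [NeZero n] {m : ℕ} (a : Fin (m + 1) → ZMod n)
    (h : ∀ v ∈ rel a, v ≠ 0 → 8 ≤ nrm v) (hG : Fintype.card (ZMod n) = bound (m + 1) 7)
    (h3 : 3 ∣ n) : ∃ x : ℤ, x ^ 3 + 3 * x ^ 2 + 4 * (m + 1) = 6 * m * x := by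
  obtain ⟨χ, hχ, hχ1⟩ := thr_char h3
  obtain ⟨z, hz1, hz2, hz3⟩ := thr_sum a χ hχ
  have h1 : ∃ g, χ g ^ 2 ≠ 1 := by
    refine ⟨1, fun h2 => hχ1 ?_⟩
    have h4 := hχ 1
    rw [pow_succ, h2, one_mul] at h4
    exact h4
  have h2 := T7.seven_eq a h hG χ h1
  rw [hz1, hz2, hz3] at h2
  refine ⟨z, ?_⟩
  have h4 : ((z ^ 3 + 3 * z ^ 2 + 4 * (m + 1) : ℤ) : ℂ) = ((6 * m * z : ℤ) : ℂ) := by
    push_cast at h2 ⊢
    linear_combination h2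
  exact_mod_cast h4

theorem three6 {n : ℕ} [NeZero n] {m : ℕ} (a : Fin m → ZMod n)
    (h : ∀ v ∈ rel a, v ≠ 0 → 7 ≤ nrm v) (hG : Fintype.card (ZMod n) = bound m 6)
    (h3 : 3 ∣ n) : ∃ x : ℤ, x ^ 3 + 3 * x ^ 2 + 2 * (2 * m + 1) = 6 * m * x := by
  obtain ⟨χ, hχ, hχ1⟩ := thr_char h3
  obtain ⟨z, hz1, hz2, hz3⟩ := thr_sum a χ hχ
  have h1 : χ ≠ 1 := by
    rintro rfl
    exact hχ1 (AddChar.one_apply 1)
  have h2 := six_eq a h hG χ h1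
  rw [hz1, hz2, hz3] at h2
  refine ⟨1 + z, ?_⟩
  have h4 : (((1 + z) ^ 3 + 3 * (1 + z) ^ 2 + 2 * (2 * m + 1) : ℤ) : ℂ) = ((6 * m * (1 + z) : ℤ) : ℂ) := by
    push_cast at h2 ⊢
    linear_combination h2
  exact_mod_cast h4

end TightIndep.NO
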