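import Pool.Agent.Lib.MP_f31b39_co.NO.Mom
import Pool.Agent.Lib.MP_f31b39_co.NO.Cnt
import Pool.Agent.Lib.MP_f31b39_co.NO.Norm
import Pool.Agent.Lib.MP_f31b39_co.NO.Core
import Pool.Agent.Lib.MP_f31b39_co.NO.Max
import Pool.Agent.Lib.MP_f31b39_co.NO.Dif
import Pool.Agent.Lib.MP_f31b39_co.NO.Bd6
import Pool.Agent.Lib.MP_f31b39_co.NO.Ari6
import Pool.Agent.Lib.MP_f31b39_co.NO.Ari7
import Pool.Agent.Lib.MP_f31b39_co.NO.Thr
import Pool.Agent.Lib.MP_f31b39_co.NO.Cub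
import Pool.Agent.Lib.MP_f31b39_co.NO.Eqn6
import Pool.Agent.Lib.MP_f31b39_co.NO.Eqn7
import Pool.Agent.Lib.MP_f31b39_co.NO.P34
import Pool.Agent.Lib.MP_f31b39_co.T7.Main

/-!
# NO-Fin: the assembly
-/

namespace TightIndep.NO

open Finset

/-- the norm argument -/
theorem norm_arg {n : ℕ} [NeZero n] (hn : 7 ≤ n) (hn3 : Nat.Coprime 3 n) {ι : Type} [Fintype ι]
    [DecidableEq ι] (g : ι → ZMod n) (hg : Function.Injective g)
    (hd : ∀ i k : ι, i ≠ k →
      (univ.filter fun p : ι × ι => g p.1 - g p.2 = g i - g k).card ≤ 2)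
    (x : ZMod n → ℝ) (hx : ∀ j, (x j : ℂ) = ∑ i, ZMod.stdAddChar (j * g i)) (b : ℝ)
    (hb : 178 ≤ b)
    (heq : ∀ j : ZMod n, 2 * j ≠ 0 →
      x j ^ 3 + 3 * x j * x (2 * j) + 2 * x (3 * j) = b * x j)
    (h4 : ∀ j : ZMod n, 2 * j ≠ 0 → 4 * j = 0 → x j = 0)
    (hE : (2 : ℝ) ^ n.primeFactors.card < Fintype.card ι)
    (hF : ∀ M : ℝ, 0 ≤ M → M ^ 2 = 3 * M + 2 + b →
      9 * ((Fintype.card ι : ℝ) + (2 : ℝ) ^ n.primeFactors.card - 2) ≤
        4 * (b - 3 * M - 3)) : False := by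
  obtain ⟨M, hM0, hM⟩ : ∃ M : ℝ, 0 ≤ M ∧ M ^ 2 = 3 * M + 2 + b := by
    refine ⟨3 / 2 + √(b + 17 / 4), by positivity, ?_⟩
    have h := Real.sq_sqrt (show 0 ≤ b + 17 / 4 by linarith)
    linear_combination h
  have hM15 : 15 ≤ M := by
    by_contra hcon
    push Not at hcon
    nlinarith
  obtain ⟨h1, h2⟩ := ep_em n (by omega)
  have h1R : 2 * (ep n : ℝ) + 2 = 2 ^ n.primeFactors.card := by exact_mod_cast h1
  have h2R : 2 * (em n : ℝ) = 2 ^ n.primeFactors.card := by exact_mod_cast h2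
  obtain ⟨m1, m2⟩ := mom g hg hd x hx
  have hφ : (0 : ℝ) < Nat.totient n := by
    exact_mod_cast Nat.totient_pos.2 (by omega)
  have hpos : 0 < ∑ u : (ZMod n)ˣ, x u ^ 2 := by
    refine lt_of_lt_of_le ?_ m2
    apply mul_pos hφ
    rw [h2R]
    linarith
  have hne : ∃ u : (ZMod n)ˣ, x u ≠ 0 := by
    by_contra hno
    push Not at hno
    rw [Finset.sum_eq_zero fun u _ => by rw [hno u]; ring] at hpos
    exact lt_irrefl _ hpos
  have hN := norm_ge g x hx hne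
  have hmax := maxb hn3 x b M (by linarith) heq h4 hM0 (by linarith)
  refine core hn hn3 x b M _ (by linarith) hmax heq m1 hN ?_ ?_ ?_
  · nlinarith
  · have := hF M hM0 hM
    linarith
  · have hb' : b = M ^ 2 - 3 * M - 2 := by linarith
    rw [hb']
    nlinarith [mul_nonneg (show (0 : ℝ) ≤ M - 15 by linarith) (sq_nonneg M),
      mul_nonneg (show (0 : ℝ) ≤ M - 15 by linarith) (mul_nonneg hM0 (sq_nonneg M)),
      sq_nonneg M, sq_nonneg (M ^ 2 - 6 * M - 3)]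

private theorem real_cond (b M R : ℝ) (hM : M ^ 2 = 3 * M + 2 + b) (hR : 6 ≤ R)
    (h : 16 * b + 68 ≤ (R - 6) ^ 2) : 4 * M ≤ R := by
  by_contra hcon
  push Not at hcon
  nlinarith

theorem fin6 {n : ℕ} [NeZero n] {m : ℕ} (a : Fin m → ZMod n)
    (h : ∀ v ∈ rel a, v ≠ 0 → 7 ≤ nrm v) (hG : Fintype.card (ZMod n) = bound m 6) : m ≤ 64 := by
  by_contra hm
  push Not at hm
  have h3n : 3 * n = (2 * m + 1) * (2 * m ^ 2 + 2 * m + 3) := by
    rw [← bound6, ← hG, ZMod.card]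
  have hn : 7 ≤ n := by nlinarith
  by_cases h3 : 3 ∣ n
  · obtain ⟨x, hx⟩ := three6 a h hG h3
    have := cub6 m x hx
    omega
  have hn3 : Nat.Coprime 3 n := (Nat.Prime.coprime_iff_not_dvd Nat.prime_three).2 h3
  obtain ⟨c1, c2⟩ := ari6 m n hm h3n h3
  obtain ⟨x, hx, heq⟩ := x6 a h hG
  have hodd : ∀ j : ZMod n, 2 * j = 0 → j = 0 := by
    have h2n : Nat.Coprime 2 n := by
      rw [Nat.coprime_two_left]
      have h5 : Odd (3 * n) := by
        rw [h3n]
        exact Odd.mul ⟨m, by ring⟩ ⟨m ^ 2 + m + 1, by ring⟩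
      exact (Nat.odd_mul.1 h5).2
    intro j hj
    have hu : IsUnit ((2 : ℕ) : ZMod n) := (ZMod.isUnit_iff_coprime 2 n).2 h2n
    exact (hu.mul_right_eq_zero).1 (by exact_mod_cast hj)
  have h5 : ∀ v ∈ rel a, v ≠ 0 → 5 ≤ nrm v := fun v hv hv0 => (h v hv hv0).trans' (by norm_num)
  have hcard : Fintype.card (Option (Fin m × Bool)) = 2 * m + 1 := by
    rw [Fintype.card_option, Fintype.card_prod, Fintype.card_fin, Fintype.card_bool]
    ring
  have c2R : (96 * m + 68 : ℝ) ≤ (2 * m - 7 - 3 * 2 ^ n.primeFactors.card) ^ 2 := by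
    have e : ((2 * m - 7 - 3 * 2 ^ n.primeFactors.card : ℕ) : ℝ) =
        2 * m - 7 - 3 * 2 ^ n.primeFactors.card := by
      rw [Nat.sub_sub, Nat.cast_sub (by omega)]
      push_cast
      ring
    rw [← e]
    exact_mod_cast c2
  have c1R : (3 * 2 ^ n.primeFactors.card + 7 : ℝ) ≤ 2 * m := by exact_mod_cast c1
  have hmR : (65 : ℝ) ≤ m := by exact_mod_cast hm
  refine norm_arg hn hn3 (sg a) (sg_inj a h5) (sg_diff a h5) x hx (6 * m : ℝ) (by linarith)
    (fun j hj => heq j fun h0 => hj (by rw [h0, mul_zero])) ?_ ?_ ?_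
  · intro j hj h4
    exact absurd (hodd (2 * j) (by rw [← mul_assoc]; norm_num; exact h4)) hj
  · rw [hcard]
    push_cast
    have : (0 : ℝ) < 2 ^ n.primeFactors.card := by positivity
    linarith
  · intro M hM0 hM
    rw [hcard]
    push_cast
    have := real_cond (6 * m) M (2 * m - 1 - 3 * 2 ^ n.primeFactors.card) hM (by linarith)
      (by convert c2R using 1 <;> ring)
    linarith

theorem fin7 {n : ℕ} [NeZero n] {m : ℕ} (a : Fin (m + 1) → ZMod n)
    (h : ∀ v ∈ rel a, v ≠ 0 → 8 ≤ nrm v) (hG : Fintype.card (ZMod n) = bound (m + 1) 7)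
    (hm : 35 ≤ m + 1) : False := by
  have h3n : 3 * n = 8 * (m + 1) * ((m + 1) ^ 2 + 2) := by
    rw [← T7.three_bound (m + 1) (by omega), ← hG, ZMod.card]
  obtain ⟨-, s, hs⟩ := T7.family a h hG (by omega)
  have hn : 7 ≤ n := by nlinarith
  by_cases h3 : 3 ∣ n
  · obtain ⟨x, hx⟩ := three7 a h hG h3
    have := cub7 (m + 1) s x hs (by push_cast; linear_combination hx)
    omega
  have hn3 : Nat.Coprime 3 n := (Nat.Prime.coprime_iff_not_dvd Nat.prime_three).2 h3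
  obtain ⟨c1, c2⟩ := ari7 (m + 1) n s hm hs h3n h3
  obtain ⟨x, hx, heq, h4⟩ := x7 a h hG fun i => by
    exact_mod_cast T7.odd_val a h hG i
  have h5 : ∀ v ∈ rel a, v ≠ 0 → 5 ≤ nrm v := fun v hv hv0 => (h v hv hv0).trans' (by norm_num)
  have hcard : Fintype.card (Fin (m + 1) × Bool) = 2 * (m + 1) := by
    rw [Fintype.card_prod, Fintype.card_fin, Fintype.card_bool]
    ring
  have c2R : (96 * (m + 1) : ℝ) ≤ (2 * (m + 1) - 12 - 3 * 2 ^ n.primeFactors.card) ^ 2 + 28 := by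
    have e : ((2 * (m + 1) - 12 - 3 * 2 ^ n.primeFactors.card : ℕ) : ℝ) =
        2 * (m + 1) - 12 - 3 * 2 ^ n.primeFactors.card := by
      rw [Nat.sub_sub, Nat.cast_sub (by omega)]
      push_cast
      ring
    rw [← e]
    exact_mod_cast c2
  have c1R : (3 * 2 ^ n.primeFactors.card + 12 : ℝ) ≤ 2 * (m + 1) := by exact_mod_cast c1
  have hmR : (35 : ℝ) ≤ m + 1 := by exact_mod_cast hm
  refine norm_arg hn hn3 (fun i => sg a (some i))
    (fun i k hik => Option.some_injective _ (sg_inj a h5 hik)) (sg_diff' a h5) x hx (6 * m : ℝ)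
    (by linarith) heq h4 ?_ ?_
  · rw [hcard]
    push_cast
    have : (0 : ℝ) < 2 ^ n.primeFactors.card := by positivity
    linarith
  · intro M hM0 hM
    rw [hcard]
    push_cast
    have := real_cond (6 * m) M (2 * (m + 1) - 6 - 3 * 2 ^ n.primeFactors.card) hM (by linarith)
      (by linarith [c2R])
    linarith

end TightIndep.NO
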