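import Pool.Agent.Lib.MP_f31b39_co.NO.Defs

/-!
# NO-Om: bounds for the number of prime factors
-/

namespace TightIndep.NO

open Finset

private theorem prod_le {n : ℕ} (hn : 0 < n) : ∏ p ∈ n.primeFactors, p ≤ n :=
  Nat.le_of_dvd hn (Nat.prod_primeFactors_dvd n)

private theorem comp (P S : Finset ℕ) (c : ℕ) (h1 : ∀ p ∈ P, p ∉ S → c ≤ p) (h2 : ∀ p ∈ S, p ≤ c) :
    c ^ P.card * ∏ p ∈ S, p ≤ c ^ S.card * ∏ p ∈ P, p := by
  have e1 : P.card = (P ∩ S).card + (P \ S).card := by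
    rw [add_comm]; exact (card_sdiff_add_card_inter P S).symm
  have e2 : S.card = (P ∩ S).card + (S \ P).card := by
    rw [add_comm, inter_comm]; exact (card_sdiff_add_card_inter S P).symm
  have e3 : ∏ p ∈ P, p = (∏ p ∈ P ∩ S, p) * ∏ p ∈ P \ S, p := by
    rw [mul_comm]
    conv_lhs => rw [← sdiff_union_inter P S]
    exact prod_union (disjoint_sdiff_inter P S)
  have e4 : ∏ p ∈ S, p = (∏ p ∈ P ∩ S, p) * ∏ p ∈ S \ P, p := by
    rw [mul_comm, inter_comm P S]
    conv_lhs => rw [← sdiff_union_inter S P]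
    exact prod_union (disjoint_sdiff_inter S P)
  have e5 : c ^ (P \ S).card ≤ ∏ p ∈ P \ S, p := by
    refine pow_card_le_prod _ _ _ fun p hp => ?_
    rw [mem_sdiff] at hp
    exact h1 p hp.1 hp.2
  have e6 : ∏ p ∈ S \ P, p ≤ c ^ (S \ P).card := by
    refine prod_le_pow_card _ _ _ fun p hp => ?_
    rw [mem_sdiff] at hp
    exact h2 p hp.1
  rw [e1, e2, e3, e4, pow_add, pow_add]
  calc c ^ (P ∩ S).card * c ^ (P \ S).card * ((∏ p ∈ P ∩ S, p) * ∏ p ∈ S \ P, p)
      = c ^ (P ∩ S).card * (∏ p ∈ P ∩ S, p) * (c ^ (P \ S).card * ∏ p ∈ S \ P, p) := by ring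
    _ ≤ c ^ (P ∩ S).card * (∏ p ∈ P ∩ S, p) * ((∏ p ∈ P \ S, p) * c ^ (S \ P).card) :=
        Nat.mul_le_mul_left _ (Nat.mul_le_mul e5 e6)
    _ = c ^ (P ∩ S).card * c ^ (S \ P).card * ((∏ p ∈ P ∩ S, p) * ∏ p ∈ P \ S, p) := by ring

theorem om6 (n : ℕ) (hn : 0 < n) (h2 : ¬ 2 ∣ n) (h3 : ¬ 3 ∣ n) :
    16 ^ n.primeFactors.card * 5005 ≤ 65536 * n := by
  have h := comp n.primeFactors {5, 7, 11, 13} 16 (fun p hp hS => ?_) (by decide)
  · have e1 : ∏ p ∈ ({5, 7, 11, 13} : Finset ℕ), p = 5005 := by decide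
    have e2 : ({5, 7, 11, 13} : Finset ℕ).card = 4 := by decide
    rw [e1, e2] at h
    calc 16 ^ n.primeFactors.card * 5005 ≤ 16 ^ 4 * ∏ p ∈ n.primeFactors, p := h
      _ ≤ 16 ^ 4 * n := Nat.mul_le_mul_left _ (prod_le hn)
      _ = 65536 * n := by norm_num
  · by_contra hlt
    rw [not_le] at hlt
    have hpp := Nat.prime_of_mem_primeFactors hp
    have hpd := Nat.dvd_of_mem_primeFactors hp
    interval_cases p <;> first | exact h2 hpd | exact h3 hpd | exact hS (by decide) | exact absurd hpp (by decide)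

theorem om7 (n : ℕ) (hn : 0 < n) (h3 : ¬ 3 ∣ n) :
    16 ^ n.primeFactors.card * 10010 ≤ 1048576 * n := by
  have h := comp n.primeFactors {2, 5, 7, 11, 13} 16 (fun p hp hS => ?_) (by decide)
  · have e1 : ∏ p ∈ ({2, 5, 7, 11, 13} : Finset ℕ), p = 10010 := by decide
    have e2 : ({2, 5, 7, 11, 13} : Finset ℕ).card = 5 := by decide
    rw [e1, e2] at h
    calc 16 ^ n.primeFactors.card * 10010 ≤ 16 ^ 5 * ∏ p ∈ n.primeFactors, p := h
      _ ≤ 16 ^ 5 * n := Nat.mul_le_mul_left _ (prod_le hn)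
      _ = 1048576 * n := by norm_num
  · by_contra hlt
    rw [not_le] at hlt
    have hpp := Nat.prime_of_mem_primeFactors hp
    have hpd := Nat.dvd_of_mem_primeFactors hp
    interval_cases p <;> first | exact h3 hpd | exact hS (by decide) | exact absurd hpp (by decide)

/-- the primes below `101` without `3` -/
def pl : List ℕ := [2, 5, 7, 11, 13, 17, 19, 23, 29, 31, 37, 41, 43, 47, 53, 59, 61, 67, 71, 73,
  79, 83, 89, 97]

private theorem pl_nodup : pl.Nodup := by decide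

private theorem pl_prime : ∀ p ∈ pl, p.Prime := by
  unfold pl
  intro p hp
  simp only [List.mem_cons, List.not_mem_nil, or_false] at hp
  rcases hp with h | h | h | h | h | h | h | h | h | h | h | h | h | h | h | h | h | h | h | h | h | h | h | h <;>
    · subst h; norm_num

private theorem mem_pl {p : ℕ} (hp : p.Prime) (h3 : p ≠ 3) (h : p < 101) : p ∈ pl := by
  unfold pl
  interval_cases p <;> first | decide | exact absurd rfl h3 | exact absurd hp (by decide)

theorem om_list (n : ℕ) (hn : 0 < n) (h3 : ¬ 3 ∣ n) (k : ℕ)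
    (h : n < (pl.filter (fun p => n % p = 0)).prod * 101 ^ (k + 1)) :
    n.primeFactors.card ≤ (pl.filter (fun p => n % p = 0)).length + k := by
  set Lf := pl.filter (fun p => n % p = 0) with hLf
  have hnd : Lf.Nodup := pl_nodup.filter _
  by_contra hcon
  rw [not_le] at hcon
  have hsub : Lf.toFinset ⊆ n.primeFactors := by
    intro p hp
    rw [List.mem_toFinset, hLf, List.mem_filter] at hp
    have h1 : n % p = 0 := by simpa using hp.2
    exact Nat.mem_primeFactors.2 ⟨pl_prime p hp.1, Nat.dvd_of_mod_eq_zero h1, hn.ne'⟩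
  have hcard : Lf.toFinset.card = Lf.length := List.toFinset_card_of_nodup hnd
  have hsd : k + 1 ≤ (n.primeFactors \ Lf.toFinset).card := by
    rw [card_sdiff_of_subset hsub, hcard]
    omega
  have hbig : 101 ^ (n.primeFactors \ Lf.toFinset).card ≤ ∏ p ∈ n.primeFactors \ Lf.toFinset, p := by
    refine pow_card_le_prod _ _ _ fun p hp => ?_
    rw [mem_sdiff] at hp
    have hpp := Nat.prime_of_mem_primeFactors hp.1
    have hpd := Nat.dvd_of_mem_primeFactors hp.1
    by_contra hlt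
    rw [not_le] at hlt
    apply hp.2
    rw [List.mem_toFinset, hLf, List.mem_filter]
    refine ⟨mem_pl hpp (fun h => h3 (h ▸ hpd)) hlt, ?_⟩
    simpa using Nat.mod_eq_zero_of_dvd hpd
  have hprod : ∏ p ∈ Lf.toFinset, p = Lf.prod := by
    have h1 := List.prod_toFinset (fun p : ℕ => p) hnd
    rw [h1, List.map_id']
  have hall : (∏ p ∈ n.primeFactors \ Lf.toFinset, p) * ∏ p ∈ Lf.toFinset, p = ∏ p ∈ n.primeFactors, p :=
    prod_sdiff hsub
  have hfin : Lf.prod * 101 ^ (k + 1) ≤ n := by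
    calc Lf.prod * 101 ^ (k + 1) ≤ Lf.prod * 101 ^ (n.primeFactors \ Lf.toFinset).card :=
          Nat.mul_le_mul_left _ (Nat.pow_le_pow_right (by norm_num) hsd)
      _ ≤ Lf.prod * ∏ p ∈ n.primeFactors \ Lf.toFinset, p := Nat.mul_le_mul_left _ hbig
      _ = ∏ p ∈ n.primeFactors, p := by rw [← hall, hprod, mul_comm]
      _ ≤ n := prod_le hn
  omega

end TightIndep.NO
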