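import Pool.Agent.Lib.MP_f31b39_co.NO.Defs

/-!
# NO-Pcr: a criterion modulo a prime
-/

namespace TightIndep.NO

open Finset

section

open Polynomial

private theorem Pcr_ne (p : ℕ) [Fact p.Prime] : (X : (ZMod p)[X]) - 1 ≠ 0 := by
  have h := X_sub_C_ne_zero (1 : ZMod p)
  rwa [C_1] at h

private theorem Pcr_geom (p : ℕ) [Fact p.Prime] : ((X : (ZMod p)[X]) - 1) ^ (p - 1) = ∑ i ∈ range p, X ^ i := by
  have hp : 0 < p := (Fact.out : p.Prime).pos
  apply mul_right_cancel₀ (Pcr_ne p)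
  rw [← pow_succ, Nat.sub_add_cancel hp, geom_sum_mul, sub_pow_char, one_pow]

private theorem Pcr_cyc (p : ℕ) [Fact p.Prime] : cyclotomic p (ZMod p) = ((X : (ZMod p)[X]) - 1) ^ (p - 1) := by
  apply mul_right_cancel₀ (Pcr_ne p)
  rw [cyclotomic_prime_mul_X_sub_one, Pcr_geom, geom_sum_mul]

/-- the local computation at `1` -/
private theorem Pcr_local (p : ℕ) [Fact p.Prime] (g f : (ZMod p)[X]) (K b : ZMod p) (j : ℕ) (hj : 1 ≤ j)
    (hf : f = C K + (X - 1) ^ j * g) (h0 : K * (K ^ 2 + 3 * K + 2 - b) = 0)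
    (hd : ((X : (ZMod p)[X]) - 1) ^ (j + 1) ∣ f ^ 3 + 3 * f * expand (ZMod p) 2 f + 2 * expand (ZMod p) 3 f - C b * f) :
    (3 * K ^ 2 + 3 * K * (1 + 2 ^ j) + 2 * 3 ^ j - b) * g.eval 1 = 0 := by
  have e2 : expand (ZMod p) 2 f = C K + (X - 1) ^ j * ((X + 1) ^ j * expand (ZMod p) 2 g) := by
    rw [hf, map_add, expand_C, map_mul, map_pow, map_sub, expand_X, map_one,
      show (X ^ 2 - 1 : (ZMod p)[X]) = (X - 1) * (X + 1) by ring, mul_pow, mul_assoc]
  have e3 : expand (ZMod p) 3 f = C K + (X - 1) ^ j * ((X ^ 2 + X + 1) ^ j * expand (ZMod p) 3 g) := by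
    rw [hf, map_add, expand_C, map_mul, map_pow, map_sub, expand_X, map_one,
      show (X ^ 3 - 1 : (ZMod p)[X]) = (X - 1) * (X ^ 2 + X + 1) by ring, mul_pow, mul_assoc]
  have hC : (C K : (ZMod p)[X]) * (C K ^ 2 + 3 * C K + 2 - C b) = 0 := by
    have h1 := congrArg (C : ZMod p → (ZMod p)[X]) h0
    have h2 : (C 3 : (ZMod p)[X]) = 3 := map_ofNat C 3
    have h3 : (C 2 : (ZMod p)[X]) = 2 := map_ofNat C 2
    simp only [map_mul, map_add, map_sub, map_pow, map_zero, h2, h3] at h1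
    exact h1
  have e1 : g.eval 1 = (expand (ZMod p) 2 g).eval 1 := by rw [expand_eval, one_pow]
  have e1' : g.eval 1 = (expand (ZMod p) 3 g).eval 1 := by rw [expand_eval, one_pow]
  rw [e2, e3, hf] at hd
  generalize expand (ZMod p) 2 g = G2 at hd e1
  generalize expand (ZMod p) 3 g = G3 at hd e1'
  have key : (C K + (X - 1) ^ j * g) ^ 3 + 3 * (C K + (X - 1) ^ j * g) * (C K + (X - 1) ^ j * ((X + 1) ^ j * G2)) +
      2 * (C K + (X - 1) ^ j * ((X ^ 2 + X + 1) ^ j * G3)) - C b * (C K + (X - 1) ^ j * g) =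
      (X - 1) ^ j * ((3 * C K ^ 2 * g + 3 * C K * (g + (X + 1) ^ j * G2) + 2 * ((X ^ 2 + X + 1) ^ j * G3) - C b * g) +
        (X - 1) ^ j * (3 * C K * g ^ 2 + (X - 1) ^ j * g ^ 3 + 3 * g * ((X + 1) ^ j * G2))) := by
    linear_combination hC
  rw [key, pow_succ, mul_dvd_mul_iff_left (pow_ne_zero _ (Pcr_ne p))] at hd
  obtain ⟨r, hr⟩ := hd
  have h2 := congrArg (Polynomial.eval (1 : ZMod p)) hr
  simp only [eval_mul, eval_add, eval_sub, eval_pow, eval_X, eval_one, eval_C, sub_self, zero_mul, eval_ofNat] at h2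
  rw [← e1, ← e1', zero_pow (by omega : j ≠ 0)] at h2
  have h3 : (1 : ZMod p) ^ 2 + 1 + 1 = 3 := by norm_num
  have h4 : (1 : ZMod p) + 1 = 2 := by norm_num
  rw [h3, h4] at h2
  linear_combination h2

end

theorem pcrit (p : ℕ) [Fact p.Prime] (T : ZMod p → ℕ) (K : ℕ) (hK : ∑ c, T c = K)
    (hKp : K + 1 < p) (b : ℤ) (ζ : ℂ) (hζ : IsPrimitiveRoot ζ p)
    (heq : (∑ c, (T c : ℂ) * ζ ^ c.val) ^ 3 +
      3 * (∑ c, (T c : ℂ) * ζ ^ c.val) * (∑ c, (T c : ℂ) * (ζ ^ 2) ^ c.val) +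
      2 * ∑ c, (T c : ℂ) * (ζ ^ 3) ^ c.val = (b : ℂ) * ∑ c, (T c : ℂ) * ζ ^ c.val)
    (h0 : (p : ℤ) ∣ K * (K ^ 2 + 3 * K + 2 - b))
    (hL : ∀ j ∈ Icc 1 (p - 2), ¬ (p : ℤ) ∣ 3 * K ^ 2 + 3 * K * (1 + 2 ^ j) + 2 * 3 ^ j - b) :
    ∀ c, c ≠ 0 → T c = 0 := by
  classical
  have hp : p.Prime := Fact.out
  have hp0 : 0 < p := hp.pos
  let f : Polynomial ℤ := ∑ c : ZMod p, Polynomial.C (T c : ℤ) * Polynomial.X ^ c.val
  let F : Polynomial ℤ := f ^ 3 + 3 * f * Polynomial.expand ℤ 2 f + 2 * Polynomial.expand ℤ 3 f - Polynomial.C b * f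
  have hev : ∀ x : ℂ, Polynomial.aeval x f = ∑ c, (T c : ℂ) * x ^ c.val := by
    intro x
    simp [f]
  have hF : Polynomial.aeval ζ F = 0 := by
    have h1 : Polynomial.aeval ζ F = (Polynomial.aeval ζ f) ^ 3 + 3 * (Polynomial.aeval ζ f) * (Polynomial.aeval (ζ ^ 2) f) +
        2 * Polynomial.aeval (ζ ^ 3) f - (b : ℂ) * Polynomial.aeval ζ f := by
      simp only [F, map_sub, map_add, map_mul, map_pow, Polynomial.expand_aeval, Polynomial.aeval_C, map_ofNat]
      simp
    rw [h1, hev, hev, hev, heq, sub_self]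
  have hdvd : Polynomial.cyclotomic p ℤ ∣ F := by
    rw [Polynomial.cyclotomic_eq_minpoly hζ hp0]
    exact minpoly.isIntegrallyClosed_dvd (hζ.isIntegral hp0) hF
  have hdvd2 : ((Polynomial.X : Polynomial (ZMod p)) - 1) ^ (p - 1) ∣ F.map (Int.castRingHom (ZMod p)) := by
    rw [← Pcr_cyc, ← Polynomial.map_cyclotomic p (Int.castRingHom (ZMod p))]
    exact Polynomial.map_dvd _ hdvd
  obtain ⟨fb, hfb⟩ : ∃ fb : Polynomial (ZMod p), fb = f.map (Int.castRingHom (ZMod p)) := ⟨_, rfl⟩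
  have hfb1 : fb = ∑ c : ZMod p, Polynomial.C (T c : ZMod p) * Polynomial.X ^ c.val := by
    rw [hfb]
    simp only [f, Polynomial.map_sum, Polynomial.map_mul, Polynomial.map_pow, Polynomial.map_X, Polynomial.map_C]
    simp
  have hFm : F.map (Int.castRingHom (ZMod p)) = fb ^ 3 + 3 * fb * Polynomial.expand (ZMod p) 2 fb +
      2 * Polynomial.expand (ZMod p) 3 fb - Polynomial.C (b : ZMod p) * fb := by
    simp only [F, Polynomial.map_sub, Polynomial.map_add, Polynomial.map_mul, Polynomial.map_pow, Polynomial.map_expand,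
      Polynomial.map_C, ← hfb, Polynomial.map_ofNat]
    simp
  have hcoef : ∀ c : ZMod p, fb.coeff c.val = (T c : ZMod p) := by
    intro c
    rw [hfb1, Polynomial.finset_sum_coeff, Finset.sum_eq_single c]
    · rw [Polynomial.coeff_C_mul, Polynomial.coeff_X_pow, if_pos rfl, mul_one]
    · intro c' _ hc'
      rw [Polynomial.coeff_C_mul, Polynomial.coeff_X_pow, if_neg, mul_zero]
      intro h
      exact hc' (ZMod.val_injective p h.symm)
    · intro h
      exact absurd (Finset.mem_univ c) h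
  have hev1 : fb.eval 1 = (K : ZMod p) := by
    rw [hfb1, Polynomial.eval_finset_sum, ← hK]
    simp
  have hdeg : (fb - Polynomial.C (K : ZMod p)).natDegree ≤ p - 1 := by
    refine (Polynomial.natDegree_sub_le _ _).trans (max_le ?_ ?_)
    · rw [hfb1]
      refine Polynomial.natDegree_sum_le_of_forall_le _ _ fun c _ => ?_
      refine (Polynomial.natDegree_C_mul_X_pow_le _ _).trans ?_
      have := ZMod.val_lt c
      omega
    · rw [Polynomial.natDegree_C]
      omega
  have hmain : ∃ c : ZMod p, fb - Polynomial.C (K : ZMod p) = Polynomial.C c * ∑ i ∈ range p, Polynomial.X ^ i := by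
    by_cases hG : fb - Polynomial.C (K : ZMod p) = 0
    · exact ⟨0, by rw [hG, map_zero, zero_mul]⟩
    · obtain ⟨g, hg, hg1⟩ := Polynomial.exists_eq_pow_rootMultiplicity_mul_and_not_dvd _ hG 1
      obtain ⟨j, hj⟩ : ∃ j, j = (fb - Polynomial.C (K : ZMod p)).rootMultiplicity 1 := ⟨_, rfl⟩
      rw [← hj, Polynomial.C_1] at hg
      have hj1 : 1 ≤ j := by
        rw [hj]
        refine (Polynomial.rootMultiplicity_pos hG).2 ?_
        rw [Polynomial.IsRoot.def, Polynomial.eval_sub, hev1, Polynomial.eval_C, sub_self]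
      have hge : g.eval 1 ≠ 0 := by
        intro h
        exact hg1 (Polynomial.dvd_iff_isRoot.2 h)
      have hj2 : p - 1 ≤ j := by
        by_contra hlt
        have hjm : j ∈ Icc 1 (p - 2) := by
          rw [Finset.mem_Icc]
          omega
        have h0' : (K : ZMod p) * ((K : ZMod p) ^ 2 + 3 * (K : ZMod p) + 2 - (b : ZMod p)) = 0 := by
          have h1 := (ZMod.intCast_zmod_eq_zero_iff_dvd _ p).2 h0
          push_cast at h1
          exact h1
        have hd : ((Polynomial.X : Polynomial (ZMod p)) - 1) ^ (j + 1) ∣ fb ^ 3 + 3 * fb * Polynomial.expand (ZMod p) 2 fb +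
            2 * Polynomial.expand (ZMod p) 3 fb - Polynomial.C (b : ZMod p) * fb := by
          rw [← hFm]
          exact (pow_dvd_pow _ (by omega)).trans hdvd2
        have h2 := Pcr_local p g fb (K : ZMod p) (b : ZMod p) j hj1 (by rw [← hg]; ring) h0' hd
        have h3 := (mul_eq_zero.1 h2).resolve_right hge
        apply hL j hjm
        rw [← ZMod.intCast_zmod_eq_zero_iff_dvd]
        push_cast
        exact h3
      obtain ⟨k, rfl⟩ := Nat.exists_eq_add_of_le hj2
      have hr : fb - Polynomial.C (K : ZMod p) = (((Polynomial.X : Polynomial (ZMod p)) - 1) ^ k * g) *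
          (Polynomial.X - 1) ^ (p - 1) := by
        rw [hg, pow_add]
        ring
      have hr0 : (((Polynomial.X : Polynomial (ZMod p)) - 1) ^ k * g) ≠ 0 := by
        intro h
        rw [h, zero_mul] at hr
        exact hG hr
      have hnd : (((Polynomial.X : Polynomial (ZMod p)) - 1) ^ k * g).natDegree = 0 := by
        have h1 := congrArg Polynomial.natDegree hr
        rw [Polynomial.natDegree_mul hr0 (pow_ne_zero _ (Pcr_ne p)), Polynomial.natDegree_pow] at h1
        have h2 : ((Polynomial.X : Polynomial (ZMod p)) - 1).natDegree = 1 := by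
          have h3 := Polynomial.natDegree_X_sub_C (1 : ZMod p)
          rwa [Polynomial.C_1] at h3
        rw [h2] at h1
        omega
      obtain ⟨c, hc⟩ := Polynomial.natDegree_eq_zero.1 hnd
      exact ⟨c, by rw [hr, ← hc, Pcr_geom]⟩
  obtain ⟨c0, hc0⟩ := hmain
  have hall : ∀ c : ZMod p, c ≠ 0 → (T c : ZMod p) = c0 := by
    intro c hc
    have h1 := congrArg (fun P : Polynomial (ZMod p) => P.coeff c.val) hc0
    simp only [Polynomial.coeff_sub, hcoef, Polynomial.coeff_C_mul, Polynomial.finset_sum_coeff, Polynomial.coeff_X_pow,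
      Polynomial.coeff_C] at h1
    have h2 : c.val ≠ 0 := by
      rw [Ne, ZMod.val_eq_zero]
      exact hc
    rw [if_neg h2, sub_zero, Finset.sum_ite_eq, if_pos (Finset.mem_range.2 (ZMod.val_lt c)), mul_one] at h1
    exact h1
  have hle : ∀ c, T c ≤ K := fun c => hK ▸ Finset.single_le_sum (fun _ _ => Nat.zero_le _) (Finset.mem_univ c)
  intro c hc
  by_contra hne
  have hge : ∀ c' : ZMod p, c' ≠ 0 → 1 ≤ T c' := by
    intro c' hc'
    have h1 : (T c' : ZMod p) = (T c : ZMod p) := by rw [hall c' hc', hall c hc]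
    have h2 := (ZMod.natCast_eq_natCast_iff' _ _ _).1 h1
    rw [Nat.mod_eq_of_lt (by have := hle c'; omega), Nat.mod_eq_of_lt (by have := hle c; omega)] at h2
    omega
  have h3 : (Finset.univ.erase (0 : ZMod p)).card ≤ ∑ c, T c := by
    calc (Finset.univ.erase (0 : ZMod p)).card = ∑ c' ∈ Finset.univ.erase (0 : ZMod p), 1 := by rw [Finset.card_eq_sum_ones]
      _ ≤ ∑ c' ∈ Finset.univ.erase (0 : ZMod p), T c' := Finset.sum_le_sum fun c' hc' => hge c' (Finset.ne_of_mem_erase hc')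
      _ ≤ ∑ c, T c := Finset.sum_le_sum_of_subset (Finset.erase_subset _ _)
  rw [Finset.card_erase_of_mem (Finset.mem_univ _), Finset.card_univ, ZMod.card, hK] at h3
  omega

end TightIndep.NO
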