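import Pool.Agent.Lib.MP_f31b39_co.NO.Defs
import Pool.Agent.Lib.MP_f31b39_co.T7.Sys

/-!
# NO-S17: the case `t = 7`, `m = 17`, `n = 13192 = 8 * 17 * 97`: definitions
-/

namespace TightIndep.NO

open Finset

/-- 17 integers `≡ 1 (mod 4)` that satisfy the equations for `n = 13192` -/
structure S17 (b : Fin 17 → ℤ) : Prop where
  one : ∀ i, b i % 4 = 1
  eq : ∀ ω : ℂ, ω ^ 13192 = 1 → ω ^ 2 ≠ 1 →
    T7.tau b ω ^ 3 + 3 * T7.tau b ω * T7.tau b (ω ^ 2) + 2 * T7.tau b (ω ^ 3) =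
      96 * T7.tau b ω
  bd : ∀ ω : ℂ, ω ^ 13192 = 1 → ω ^ 2 ≠ 1 → ‖T7.tau b ω‖ ≤ 12

/-- the number of `i` with `b i ≡ c (mod 17)` -/
def e17 (b : Fin 17 → ℤ) (c : ZMod 17) : ℕ := (univ.filter fun i => ((b i : ℤ) : ZMod 17) = c).card

end TightIndep.NO
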