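import Pool.Agent.Lib.MP_f31b39_co.NO.Defs
import Pool.Agent.Lib.MP_f31b39_co.AS.Newton
import Pool.Agent.Lib.MP_f31b39_co.AS.Sph

/-!
# NO-Six: the equation of a character for `t = 6`
-/

namespace TightIndep.NO

open Finset

private theorem six_mon {G : Type} [AddCommGroup G] {m : ℕ} (a : Fin m → G) (χ : AddChar G ℂ)
    (v : Fin m → ℤ) : mon (fun i => χ (a i)) v = χ (∑ i, v i • a i) := by
  unfold mon
  rw [addChar_map_sum]
  refine prod_congr rfl fun i _ => ?_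
  rw [AddChar.map_zsmul_eq_zpow]

private theorem six_cc (P : ℕ → ℂ) :
    cc P 3 = (P 1 ^ 3 + 3 * P 1 * P 2 + 2 * P 3) / 6 := by
  have h1 : cc P 1 = P 1 := by
    rw [show (1 : ℕ) = 0 + 1 from rfl, cc_succ]
    simp [cc_zero]
  have h2 : cc P 2 = (P 1 ^ 2 + P 2) / 2 := by
    rw [show (2 : ℕ) = 1 + 1 from rfl, cc_succ, sum_range_succ, sum_range_one]
    norm_num [cc_zero, h1]
    ring
  rw [show (3 : ℕ) = 2 + 1 from rfl, cc_succ, sum_range_succ, sum_range_succ, sum_range_one]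
  norm_num [cc_zero, h1, h2]
  ring

private theorem six_sum {G : Type} [AddCommGroup G] [Fintype G] {m : ℕ} (a : Fin m → G)
    (h : ∀ v ∈ rel a, v ≠ 0 → 7 ≤ nrm v) (hG : Fintype.card G = bound m 6) (f : G → ℂ) :
    ∑ u ∈ ball m 3, f (∑ i, u i • a i) = ∑ g, f g := by
  refine (sum_image_fam 6 a h (ball m 3) ?_ ?_).2 f
  · intro u hu u' hu'
    rw [mem_ball] at hu hu'
    have h3 := nrm_sub_le u u'
    omega
  · rw [hG, card_ball, ← bound_even m 3]

theorem six_eq {G : Type} [AddCommGroup G] [Fintype G] {m : ℕ} (a : Fin m → G)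
    (h : ∀ v ∈ rel a, v ≠ 0 → 7 ≤ nrm v) (hG : Fintype.card G = bound m 6)
    (χ : AddChar G ℂ) (hχ : χ ≠ 1) :
    (1 + ∑ i, (χ (a i) + (χ (a i))⁻¹)) ^ 3 +
      3 * (1 + ∑ i, (χ (a i) + (χ (a i))⁻¹)) * (1 + ∑ i, (χ (a i) ^ 2 + (χ (a i))⁻¹ ^ 2)) +
      2 * (1 + ∑ i, (χ (a i) ^ 3 + (χ (a i))⁻¹ ^ 3)) =
      6 * (m : ℂ) * (1 + ∑ i, (χ (a i) + (χ (a i))⁻¹)) := by
  have hx : ∀ i, χ (a i) ≠ 0 := by
    intro i h0
    have h1 : χ (a i + -a i) = 1 := by rw [add_neg_cancel, AddChar.map_zero_eq_one]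
    rw [AddChar.map_add_eq_mul, h0, zero_mul] at h1
    exact zero_ne_one h1
  have hsum : ∑ v ∈ ball m 3, mon (fun i => χ (a i)) v = 0 := by
    rw [← AddChar.sum_eq_zero_of_ne_one hχ, ← six_sum a h hG (fun g => χ g)]
    exact sum_congr rfl fun v _ => six_mon a χ v
  rw [sum_ball, newton_even _ hx, six_cc] at hsum
  have e2 : Even 2 := by decide
  have e1 : ¬ Even 1 := by decide
  have e3 : ¬ Even 3 := by decide
  simp only [pw, e1, e2, e3, if_true, if_false, sub_zero, pow_one] at hsum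
  linear_combination 6 * hsum

end TightIndep.NO
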